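import Pool.Agent.Lib_MP_cddbc9.Prob

/-!
# Plays with infinitely many completed blocks (piece BL)

`play_blocks`: Adam plays `u` first; at times `n ≥ |u|`: let `N = |u| + l * ((n - |u|) / l)` (start of the block), `q = ρ N`; if
`ρ (N + i) = γ q i` for all `i ≤ n - N` he plays `β q (n - N)`, otherwise some letter `a` with `(ρ n, a) ∈ E` (if there is one).
On the cylinder of a path to `q1` with word `u` (positive measure), almost surely: all steps in the support, so `(ρ n, w n) ∈ E` for `n ≥ |u|`.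
A block starting in a state of `E` is completed with conditional probability `≥ ε ^ l`, `ε` = least positive value of the `r.σ q a q'` (finitely many), so the
measure of (no completed block among the blocks number `R, …, R + j - 1`, and the prefix is `p`) is `≤ (1 - ε^l) ^ j`:
a set which depends only on the states up to the start of a block is a finite disjoint union of cylinders.  So almost surely
infinitely many blocks are completed (on the cylinder of `p`).
-/

set_option autoImplicit false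

open Filter MeasureTheory

namespace Pool.Agent.MAR

/-- the set `S` depends only on the states up to time `n` -/
private def Blocks_Dep {Q : Type} (n : ℕ) (S : Set (ℕ → Q)) : Prop :=
  ∀ ρ ρ' : ℕ → Q, (∀ i ≤ n, ρ i = ρ' i) → ρ ∈ S → ρ' ∈ S

/-- cylinders -/
private def Blocks_cyl {Q : Type} (n : ℕ) (h : ℕ → Q) : Set (ℕ → Q) := {ρ | ∀ i ≤ n, ρ i = h i}

private lemma Blocks_dep_cyl {Q : Type} {n m : ℕ} (hnm : n ≤ m) (h : ℕ → Q) :
    Blocks_Dep m (Blocks_cyl n h) := fun _ _ e h1 i hi =>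
  (e i (hi.trans hnm)).symm.trans (h1 i hi)

private lemma Blocks_meas {A : Type} (B : NPA A) {n : ℕ} {S : Set (ℕ → B.Q)}
    (hS : Blocks_Dep n S) : MeasurableSet S := by
  have := B.fin
  have : MeasurableSingletonClass B.Q := ⟨fun _ => MeasurableSpace.measurableSet_top⟩
  let f : (ℕ → B.Q) → (Fin (n + 1) → B.Q) := fun ρ i => ρ i
  have hf : Measurable f := measurable_pi_iff.2 fun i => measurable_pi_apply _
  have e : S = f ⁻¹' (f '' S) := by
    ext ρ
    constructor
    · intro h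
      exact ⟨ρ, h, rfl⟩
    · rintro ⟨ρ', h, e⟩
      exact hS ρ' ρ (fun i hi => congrFun e ⟨i, by omega⟩) h
  rw [e]
  exact hf (Set.to_countable _).measurableSet

private lemma Blocks_sum {A : Type} (B : NPA A) (μ : Measure (ℕ → B.Q)) (n : ℕ) (c : ENNReal)
    {S : Set (ℕ → B.Q)} (T : Set (ℕ → B.Q)) (hS : Blocks_Dep n S)
    (h : ∀ g ∈ S, μ (Blocks_cyl n g ∩ T) ≤ c * μ (Blocks_cyl n g)) : μ (S ∩ T) ≤ c * μ S := by
  classical
  let _ := B.fin
  let ext : (Fin (n + 1) → B.Q) → (ℕ → B.Q) := fun t i =>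
    if h : i < n + 1 then t ⟨i, h⟩ else B.q0
  let s : Finset (Fin (n + 1) → B.Q) := Finset.univ.filter fun t => ext t ∈ S
  have hext0 : ∀ t i (h : i < n + 1), ext t i = t ⟨i, h⟩ := fun t i h => dif_pos h
  have hext : ∀ t ρ, ρ ∈ Blocks_cyl n (ext t) ↔ ∀ i : Fin (n + 1), ρ i = t i := by
    intro t ρ
    constructor
    · intro h i
      exact (h i (by omega)).trans (hext0 t i i.2)
    · intro h i hi
      exact (h ⟨i, by omega⟩).trans (hext0 t i (by omega)).symm
  have e1 : S = ⋃ t ∈ s, Blocks_cyl n (ext t) := by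
    ext ρ
    simp only [Set.mem_iUnion, exists_prop, s, Finset.mem_filter, Finset.mem_univ, true_and]
    constructor
    · intro hρ
      have h1 : ρ ∈ Blocks_cyl n (ext fun i => ρ i) := (hext _ _).2 fun i => rfl
      exact ⟨fun i => ρ i, hS ρ _ (fun i hi => h1 i hi) hρ, h1⟩
    · rintro ⟨t, ht, h1⟩
      exact hS _ ρ (fun i hi => (h1 i hi).symm) ht
  have e2 : μ S = ∑ t ∈ s, μ (Blocks_cyl n (ext t)) := by
    conv_lhs => rw [e1]
    refine measure_biUnion_finset ?_ fun t _ => Blocks_meas B (Blocks_dep_cyl le_rfl _)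
    intro t _ t' _ htt'
    change Disjoint (Blocks_cyl n (ext t)) (Blocks_cyl n (ext t'))
    rw [Set.disjoint_left]
    intro ρ h1 h2
    exact htt' (funext fun i => ((hext t ρ).1 h1 i).symm.trans ((hext t' ρ).1 h2 i))
  have e3 : S ∩ T = ⋃ t ∈ s, Blocks_cyl n (ext t) ∩ T := by
    conv_lhs => rw [e1]
    simp only [Set.iUnion_inter]
  rw [e3, e2, Finset.mul_sum]
  refine (measure_biUnion_finset_le _ _).trans (Finset.sum_le_sum fun t ht => ?_)
  exact h _ (Finset.mem_filter.1 ht).2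

section lam

variable {Q A : Type} (u : List A) (l : ℕ) (γ : Q → ℕ → Q) (β : Q → ℕ → A) (e : Q → A)

open Classical in
/-- the strategy of Adam -/
private noncomputable def Blocks_lam (ρ : ℕ → Q) (n : ℕ) : A :=
  if h : n < u.length then u[n]
  else
    if ∀ j ≤ n - (u.length + l * ((n - u.length) / l)),
        ρ (u.length + l * ((n - u.length) / l) + j) =
          γ (ρ (u.length + l * ((n - u.length) / l))) j then
      β (ρ (u.length + l * ((n - u.length) / l))) (n - (u.length + l * ((n - u.length) / l)))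
    else e (ρ n)

variable {u l γ β e}

private lemma Blocks_lam_adapted (ρ ρ' : ℕ → Q) (n : ℕ) (h : ∀ i ≤ n, ρ i = ρ' i) :
    Blocks_lam u l γ β e ρ n = Blocks_lam u l γ β e ρ' n := by
  unfold Blocks_lam
  by_cases hn : n < u.length
  · rw [dif_pos hn, dif_pos hn]
  · rw [dif_neg hn, dif_neg hn]
    have h1 := Nat.mul_div_le (n - u.length) l
    generalize (n - u.length) / l = R at *
    have h2 : ρ (u.length + l * R) = ρ' (u.length + l * R) := h _ (by omega)
    have h3 : (∀ j ≤ n - (u.length + l * R), ρ (u.length + l * R + j) =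
        γ (ρ (u.length + l * R)) j) ↔ ∀ j ≤ n - (u.length + l * R),
        ρ' (u.length + l * R + j) = γ (ρ' (u.length + l * R)) j := by
      refine forall₂_congr fun j hj => ?_
      rw [h2, h (u.length + l * R + j) (by omega)]
    by_cases h4 : ∀ j ≤ n - (u.length + l * R), ρ (u.length + l * R + j) =
        γ (ρ (u.length + l * R)) j
    · rw [if_pos h4, if_pos (h3.1 h4), h2]
    · rw [if_neg h4, if_neg (fun h5 => h4 (h3.2 h5)), h n le_rfl]

private lemma Blocks_lam_lt (ρ : ℕ → Q) (n : ℕ) (h : n < u.length) :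
    Blocks_lam u l γ β e ρ n = u[n] := by
  unfold Blocks_lam
  rw [dif_pos h]

private lemma Blocks_lam_block (ρ : ℕ → Q) (R i : ℕ) (hi : i < l)
    (h : ∀ j ≤ i, ρ (u.length + l * R + j) = γ (ρ (u.length + l * R)) j) :
    Blocks_lam u l γ β e ρ (u.length + l * R + i) = β (ρ (u.length + l * R)) i := by
  unfold Blocks_lam
  have h1 : (u.length + l * R + i - u.length) / l = R := by
    rw [show u.length + l * R + i - u.length = i + l * R by omega,
      Nat.add_mul_div_left _ _ (by omega), Nat.div_eq_of_lt hi, zero_add]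
  have h2 : u.length + l * R + i - (u.length + l * R) = i := by omega
  rw [dif_neg (by omega), h1, h2, if_pos h]

private lemma Blocks_lam_mem {E : Set (Q × A)} (hl : 0 < l)
    (hγ : ∀ q, (∃ a, (q, a) ∈ E) → ∀ i < l, (γ q i, β q i) ∈ E)
    (he : ∀ q, (∃ a, (q, a) ∈ E) → (q, e q) ∈ E) (ρ : ℕ → Q) (n : ℕ) (hn : u.length ≤ n)
    (h : ∀ m, u.length ≤ m → m ≤ n → ∃ a, (ρ m, a) ∈ E) :
    (ρ n, Blocks_lam u l γ β e ρ n) ∈ E := by
  unfold Blocks_lam
  rw [dif_neg (by omega)]
  have h1 := Nat.mul_div_le (n - u.length) l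
  have h2 := Nat.lt_mul_div_succ (n - u.length) hl
  generalize (n - u.length) / l = R at *
  by_cases h4 : ∀ j ≤ n - (u.length + l * R), ρ (u.length + l * R + j) =
      γ (ρ (u.length + l * R)) j
  · rw [if_pos h4]
    have h5 := h4 _ le_rfl
    rw [show u.length + l * R + (n - (u.length + l * R)) = n by omega] at h5
    rw [h5]
    refine hγ _ (h _ (by omega) (by omega)) _ ?_
    rw [Nat.mul_succ] at h2
    omega
  · rw [if_neg h4]
    exact he _ (h n hn le_rfl)

end lam

private lemma Blocks_path {V A : Type} {s : V → A → Set V} {E : Set (V × A)} {q q' : V}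
    {u : List A} (h : PathIn s E q u q') : ∃ p : ℕ → V, p 0 = q ∧ p u.length = q' ∧
      ∀ i (hi : i < u.length), p (i + 1) ∈ s (p i) u[i] := by
  induction h with
  | nil q => exact ⟨fun _ => q, rfl, rfl, fun i hi => absurd hi (by simp)⟩
  | @cons q q' q'' a u h h' t ih =>
    obtain ⟨p, hp0, hp1, hp⟩ := ih
    refine ⟨fun n => Nat.casesOn n q p, rfl, ?_, ?_⟩
    · simpa using hp1
    · intro i hi
      cases i with
      | zero => simpa [hp0] using h'
      | succ i => exact hp i (by simpa using hi)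

/-- a play with infinitely many completed blocks -/
theorem play_blocks {A : Type} (B : NPA A) (r : B.Resolver) (hw : B.Wins r) (hfin : Finite A) (u : List A) (q1 : B.Q)
    (hu : r.Rch u q1) (E : Set (B.Q × A))
    (hE : ∀ q a q', (q, a) ∈ E → q' ∈ r.arena q a → ∃ a', (q', a') ∈ E) (hq1 : ∃ a, (q1, a) ∈ E)
    (l : ℕ) (hl : 0 < l) (γ : B.Q → ℕ → B.Q) (β : B.Q → ℕ → A) (h0 : ∀ q, γ q 0 = q)
    (hγ : ∀ q, (∃ a, (q, a) ∈ E) → ∀ i < l, (γ q i, β q i) ∈ E ∧ γ q (i + 1) ∈ r.arena (γ q i) (β q i)) :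
    ∃ (w : ℕ → A) (ρ : ℕ → B.Q), ρ 0 = B.q0 ∧ (∀ n, ρ (n + 1) ∈ r.arena (ρ n) (w n)) ∧
      seg w 0 u.length = u ∧ ρ u.length = q1 ∧ (w ∈ B.lang → ParityAcc (B.prs w ρ)) ∧
      (∀ n, u.length ≤ n → (ρ n, w n) ∈ E) ∧
      ∀ N, ∃ n, N ≤ n ∧ u.length ≤ n ∧ ∀ i < l, w (n + i) = β (ρ n) i ∧ ρ (n + i + 1) = γ (ρ n) (i + 1) := by
  classical
  let _ := B.fin
  have hSt : ∃ e : B.Q → A, ∀ q, (∃ a, (q, a) ∈ E) → (q, e q) ∈ E := by
    obtain ⟨a1, ha1⟩ := hq1
    refine ⟨fun q => if h : ∃ a, (q, a) ∈ E then h.choose else a1, fun q hq => ?_⟩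
    beta_reduce
    rw [dif_pos hq]
    exact hq.choose_spec
  obtain ⟨e, he⟩ := hSt
  set lam : (ℕ → B.Q) → ℕ → A := Blocks_lam u l γ β e with hlam
  have had : ∀ ρ ρ' n, (∀ i ≤ n, ρ i = ρ' i) → lam ρ n = lam ρ' n := Blocks_lam_adapted
  obtain ⟨μ, hμ, hμ0, hstep, hwin⟩ := law_adapted B r hw lam had
  have hstep' : ∀ (n : ℕ) (h : ℕ → B.Q), h 0 = B.q0 → μ (Blocks_cyl (n + 1) h) =
      μ (Blocks_cyl n h) * r.σ (h n) (lam h n) (h (n + 1)) := hstep
  have hdep0 : Blocks_Dep 0 {ρ : ℕ → B.Q | ρ 0 = B.q0} := fun ρ ρ' h h1 => (h 0 le_rfl).symm.trans h1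
  -- almost surely the steps are in the support
  have hae0 : ∀ᵐ ρ ∂μ, ρ 0 = B.q0 := by
    rw [ae_iff]
    exact (prob_compl_eq_zero_iff (Blocks_meas B hdep0)).2 hμ0
  have hsupp : ∀ᵐ ρ ∂μ, ∀ n, ρ (n + 1) ∈ r.arena (ρ n) (lam ρ n) := by
    rw [ae_all_iff]
    intro n
    have h1 : μ ({ρ : ℕ → B.Q | ρ 0 = B.q0} ∩ {ρ | ρ (n + 1) ∉ r.arena (ρ n) (lam ρ n)}) ≤
        0 * μ {ρ : ℕ → B.Q | ρ 0 = B.q0} := by
      refine Blocks_sum B μ n 0 _ (fun ρ ρ' h h1 => (h 0 (Nat.zero_le _)).symm.trans h1) ?_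
      intro g hg
      rw [zero_mul, nonpos_iff_eq_zero]
      have h2 : Blocks_cyl n g ∩ {ρ | ρ (n + 1) ∉ r.arena (ρ n) (lam ρ n)} ⊆
          ⋃ q ∈ (Finset.univ.filter fun q => q ∉ r.arena (g n) (lam g n) : Finset B.Q),
            Blocks_cyl (n + 1) (Function.update g (n + 1) q) := by
        rintro ρ ⟨h3, h4⟩
        have h5 : ρ n = g n := h3 n le_rfl
        have h6 : lam ρ n = lam g n := had _ _ _ h3
        rw [Set.mem_ofPred_eq, h5, h6] at h4
        simp only [Set.mem_iUnion, Finset.mem_filter, Finset.mem_univ, true_and, exists_prop]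
        refine ⟨ρ (n + 1), h4, fun i hi => ?_⟩
        rcases Nat.lt_or_ge n i with h7 | h7
        · obtain rfl : i = n + 1 := by omega
          rw [Function.update_self]
        · rw [Function.update_of_ne (by omega)]
          exact h3 i h7
      refine measure_mono_null h2 (le_antisymm ((measure_biUnion_finset_le _ _).trans ?_) zero_le)
      rw [Finset.sum_eq_zero]
      intro q hq
      have hq' : q ∉ r.arena (g n) (lam g n) := (Finset.mem_filter.1 hq).2
      rw [hstep' n _ (by rw [Function.update_of_ne (by omega)]; exact hg)]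
      have h8 : Function.update g (n + 1) q n = g n := Function.update_of_ne (by omega) _ _
      have h9 : lam (Function.update g (n + 1) q) n = lam g n :=
        had _ _ _ fun i hi => Function.update_of_ne (by omega) _ _
      rw [h8, h9, Function.update_self]
      have h10 : r.σ (g n) (lam g n) q = 0 := by
        by_contra h
        exact hq' ((PMF.mem_support_iff _ _).2 h)
      rw [h10, mul_zero]
    rw [zero_mul, nonpos_iff_eq_zero] at h1
    have h2 : ∀ᵐ ρ ∂μ, ¬ (ρ 0 = B.q0 ∧ ρ (n + 1) ∉ r.arena (ρ n) (lam ρ n)) := by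
      rw [ae_iff]
      simp only [not_not]
      exact h1
    filter_upwards [hae0, h2] with ρ h3 h4
    by_contra h5
    exact h4 ⟨h3, h5⟩
  -- the prefix
  obtain ⟨p, hp0, hp1, hp⟩ := Blocks_path hu
  have hpos : ∀ n, n ≤ u.length → μ (Blocks_cyl n p) ≠ 0 := by
    intro n
    induction n with
    | zero =>
      intro _
      have : Blocks_cyl 0 p = {ρ | ρ 0 = B.q0} := by
        ext ρ
        constructor
        · intro h
          exact (h 0 le_rfl).trans hp0
        · intro h i hi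
          obtain rfl : i = 0 := by omega
          exact Eq.trans h hp0.symm
      rw [this, hμ0]
      exact one_ne_zero
    | succ n ih =>
      intro hn
      rw [hstep' n p hp0]
      refine mul_ne_zero (ih (by omega)) ?_
      have h1 := hp n hn
      rw [hlam, Blocks_lam_lt p n hn]
      exact (PMF.mem_support_iff _ _).1 h1
  -- a lower bound for the probability of a completed block
  let f : B.Q → ENNReal := fun q => ∏ i ∈ Finset.range l, r.σ (γ q i) (β q i) (γ q (i + 1))
  let St : Finset B.Q := Finset.univ.filter fun q => ∃ a, (q, a) ∈ E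
  have hSt' : ∀ q, q ∈ St ↔ ∃ a, (q, a) ∈ E := fun q => by simp [St]
  let δ : ENNReal := St.inf f
  have hδ0 : 0 < δ := by
    rw [Finset.lt_inf_iff ENNReal.zero_lt_top]
    intro q hq
    rw [pos_iff_ne_zero]
    refine Finset.prod_ne_zero_iff.2 fun i hi => ?_
    exact (PMF.mem_support_iff _ _).1 (hγ q ((hSt' q).1 hq) i (Finset.mem_range.1 hi)).2
  have hδ : ∀ q, (∃ a, (q, a) ∈ E) → δ ≤ f q := fun q hq => Finset.inf_le ((hSt' q).2 hq)
  have hδ1 : δ ≤ 1 := by
    refine (hδ q1 hq1).trans (Finset.prod_le_one' fun i _ => PMF.coe_le_one _ _)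
  have hdl : 1 - δ < 1 := ENNReal.sub_lt_self ENNReal.one_ne_top one_ne_zero hδ0.ne'
  -- the event that block number `R` is completed
  let C : ℕ → Set (ℕ → B.Q) := fun R => {ρ | ∀ i ≤ l, ρ (u.length + l * R + i) =
    γ (ρ (u.length + l * R)) i}
  have hCdep : ∀ R n, u.length + l * (R + 1) ≤ n → Blocks_Dep n (C R) := by
    intro R n hn ρ ρ' h h1 i hi
    rw [Nat.mul_succ] at hn
    rw [← h (u.length + l * R + i) (by omega), ← h (u.length + l * R) (by omega)]
    exact h1 i hi
  have hblock : ∀ (R : ℕ) (g : ℕ → B.Q), g 0 = B.q0 → (∃ a, (g (u.length + l * R), a) ∈ E) →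
      μ (Blocks_cyl (u.length + l * R) g ∩ (C R)ᶜ) ≤
        (1 - δ) * μ (Blocks_cyl (u.length + l * R) g) := by
    intro R g hg hgE
    set N := u.length + l * R with hN
    let g' : ℕ → B.Q := fun n => if n ≤ N then g n else γ (g N) (n - N)
    have hg'0 : ∀ i ≤ N, g' i = g i := fun i hi => if_pos hi
    have hg'1 : ∀ i, g' (N + i) = γ (g N) i := by
      intro i
      rcases Nat.eq_zero_or_pos i with rfl | hi
      · rw [h0]
        exact hg'0 N le_rfl
      · have : ¬ N + i ≤ N := by omega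
        simp only [g', if_neg this]
        congr 1
        omega
    have h1 : ∀ i, i ≤ l → μ (Blocks_cyl (N + i) g') = μ (Blocks_cyl N g) *
        ∏ j ∈ Finset.range i, r.σ (γ (g N) j) (β (g N) j) (γ (g N) (j + 1)) := by
      intro i
      induction i with
      | zero =>
        intro _
        rw [Finset.prod_range_zero, mul_one]
        congr 1
        ext ρ
        exact forall₂_congr fun i hi => by rw [hg'0 i hi]
      | succ i ih =>
        intro hi
        have h2 := hstep' (N + i) g' (by rw [hg'0 0 (Nat.zero_le _)]; exact hg)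
        have h3 : lam g' (N + i) = β (g N) i := by
          have := Blocks_lam_block (u := u) (l := l) (γ := γ) (β := β) (e := e) g' R i (by omega)
            (fun j _ => by
              rw [← hN, hg'1 j, hg'0 N le_rfl])
          rw [← hN, hg'0 N le_rfl] at this
          exact this
        rw [show N + (i + 1) = N + i + 1 by ring, h2, ih (by omega), h3,
          show N + i + 1 = N + (i + 1) by ring, hg'1, hg'1, Finset.prod_range_succ, mul_assoc]
    have h2 : δ * μ (Blocks_cyl N g) ≤ μ (Blocks_cyl N g ∩ C R) := by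
      have h3 : Blocks_cyl (N + l) g' ⊆ Blocks_cyl N g ∩ C R := by
        intro ρ hρ
        refine ⟨fun i hi => (hρ i (by omega)).trans (hg'0 i hi), fun i hi => ?_⟩
        rw [← hN, hρ (N + i) (by omega), hρ N (by omega), hg'1, hg'0 N le_rfl]
      calc δ * μ (Blocks_cyl N g) ≤ f (g N) * μ (Blocks_cyl N g) := by
            gcongr
            exact hδ _ hgE
        _ = μ (Blocks_cyl (N + l) g') := by rw [h1 l le_rfl, mul_comm]
        _ ≤ _ := measure_mono h3
    have hm1 : MeasurableSet (C R) := Blocks_meas B (hCdep R _ le_rfl)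
    have h4 : μ (Blocks_cyl N g) = μ (Blocks_cyl N g ∩ C R) + μ (Blocks_cyl N g \ C R) :=
      (measure_inter_add_sdiff _ hm1).symm
    rw [ENNReal.sub_mul (fun _ _ => measure_ne_top _ _), one_mul]
    refine ENNReal.le_sub_of_add_le_right (ENNReal.mul_ne_top (ne_top_of_le_ne_top
      ENNReal.one_ne_top hδ1) (measure_ne_top _ _)) ?_
    rw [add_comm]
    calc δ * μ (Blocks_cyl N g) + μ (Blocks_cyl N g ∩ (C R)ᶜ) ≤
          μ (Blocks_cyl N g ∩ C R) + μ (Blocks_cyl N g \ C R) := add_le_add h2 le_rfl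
      _ = _ := h4.symm
  -- being in the states of `E`
  have hinE : ∀ (ρ : ℕ → B.Q) (n : ℕ), ρ u.length = q1 →
      (∀ m, m < n → ρ (m + 1) ∈ r.arena (ρ m) (lam ρ m)) →
      ∀ m, u.length ≤ m → m ≤ n → ∃ a, (ρ m, a) ∈ E := by
    intro ρ n h1 h2 m
    induction m using Nat.strong_induction_on with
    | _ m ih =>
      intro hm hmn
      rcases Nat.eq_or_lt_of_le hm with h3 | h3
      · rw [← h3, h1]
        exact hq1
      · obtain ⟨m', rfl⟩ : ∃ m', m = m' + 1 := ⟨m - 1, by omega⟩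
        have h4 : (ρ m', lam ρ m') ∈ E :=
          Blocks_lam_mem hl (fun q hq i hi => (hγ q hq i hi).1) he ρ m' (by omega)
            (fun j hj hj' => ih j (by omega) hj (by omega))
        exact hE _ _ _ h4 (h2 m' (by omega))
  -- the event that no block from number `R₀` on is completed
  let F : ℕ → ℕ → Set (ℕ → B.Q) := fun R₀ j => {ρ | ρ ∈ Blocks_cyl u.length p ∧
    (∀ m, m < u.length + l * (R₀ + j) → ρ (m + 1) ∈ r.arena (ρ m) (lam ρ m)) ∧
    ∀ R, R₀ ≤ R → R < R₀ + j → ρ ∉ C R}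
  have hFdep : ∀ R₀ j, Blocks_Dep (u.length + l * (R₀ + j)) (F R₀ j) := by
    rintro R₀ j ρ ρ' h ⟨h1, h2, h3⟩
    refine ⟨Blocks_dep_cyl (by omega) p ρ ρ' h h1, fun m hm => ?_, fun R hR hR' h4 => ?_⟩
    · rw [← h (m + 1) (by omega), ← h m (by omega),
        ← had ρ ρ' m (fun i hi => h i (by omega))]
      exact h2 m hm
    · refine h3 R hR hR' (hCdep R (u.length + l * (R₀ + j)) ?_ ρ' ρ (fun i hi => (h i hi).symm) h4)
      have := Nat.mul_le_mul_left l (show R + 1 ≤ R₀ + j by omega)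
      omega
  have hF : ∀ R₀ j, μ (F R₀ j) ≤ (1 - δ) ^ j := by
    intro R₀ j
    induction j with
    | zero => rw [pow_zero]; exact prob_le_one
    | succ j ih =>
      have h1 : F R₀ (j + 1) ⊆ F R₀ j ∩ (C (R₀ + j))ᶜ := by
        rintro ρ ⟨h1, h2, h3⟩
        refine ⟨⟨h1, fun m hm => h2 m ?_, fun R hR hR' => h3 R hR (by omega)⟩,
          h3 (R₀ + j) (by omega) (by omega)⟩
        have := Nat.mul_le_mul_left l (show R₀ + j ≤ R₀ + (j + 1) by omega)
        omega
      have h2 : μ (F R₀ j ∩ (C (R₀ + j))ᶜ) ≤ (1 - δ) * μ (F R₀ j) := by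
        refine Blocks_sum B μ _ _ _ (hFdep R₀ j) ?_
        rintro g ⟨h1, h2, -⟩
        exact hblock (R₀ + j) g ((h1 0 (Nat.zero_le _)).trans hp0)
          (hinE g _ ((h1 _ le_rfl).trans hp1) h2 _ (by omega) le_rfl)
      calc μ (F R₀ (j + 1)) ≤ μ (F R₀ j ∩ (C (R₀ + j))ᶜ) := measure_mono h1
        _ ≤ (1 - δ) * μ (F R₀ j) := h2
        _ ≤ (1 - δ) * (1 - δ) ^ j := by gcongr
        _ = (1 - δ) ^ (j + 1) := (pow_succ' _ _).symm
  have hG : ∀ R₀, μ (⋂ j, F R₀ j) = 0 := by
    intro R₀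
    refine le_antisymm ?_ zero_le
    refine ge_of_tendsto' (ENNReal.tendsto_pow_atTop_nhds_zero_of_lt_one hdl) fun j => ?_
    exact (measure_mono (Set.iInter_subset _ j)).trans (hF R₀ j)
  have hGae : ∀ᵐ ρ ∂μ, ∀ R₀, ρ ∉ ⋂ j, F R₀ j := by
    rw [ae_all_iff]
    intro R₀
    rw [ae_iff]
    simp only [not_not]
    exact hG R₀
  obtain ⟨ρ, hρp, hρs, hρw, hρG⟩ : ∃ ρ, ρ ∈ Blocks_cyl u.length p ∧
      (∀ n, ρ (n + 1) ∈ r.arena (ρ n) (lam ρ n)) ∧
      (lam ρ ∈ B.lang → ParityAcc (B.prs (lam ρ) ρ)) ∧ ∀ R₀, ρ ∉ ⋂ j, F R₀ j := by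
    by_contra hcon
    push Not at hcon
    refine hpos u.length le_rfl ?_
    have h1 : ∀ᵐ ρ ∂μ, ρ ∉ Blocks_cyl u.length p := by
      filter_upwards [hsupp, hwin, hGae] with ρ h2 h3 h4 h5
      obtain ⟨R₀, h6⟩ := hcon ρ h5 h2 h3
      exact h4 R₀ h6
    rw [ae_iff] at h1
    simpa using h1
  have hρ1 : ρ u.length = q1 := (hρp _ le_rfl).trans hp1
  refine ⟨lam ρ, ρ, (hρp 0 (Nat.zero_le _)).trans hp0, hρs, ?_, hρ1, hρw, ?_, ?_⟩
  · refine List.ext_getElem (by simp [seg]) fun i h1 h2 => ?_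
    simp only [seg, List.getElem_map, List.getElem_range, zero_add]
    exact Blocks_lam_lt ρ i h2
  · intro n hn
    exact Blocks_lam_mem hl (fun q hq i hi => (hγ q hq i hi).1) he ρ n hn
      (fun m hm hm' => hinE ρ n hρ1 (fun m _ => hρs m) m hm hm')
  · intro N
    have h1 := hρG N
    rw [Set.mem_iInter] at h1
    push Not at h1
    obtain ⟨j, hj⟩ := h1
    have h2 : ∃ R, N ≤ R ∧ ρ ∈ C R := by
      by_contra hcon
      push Not at hcon
      exact hj ⟨hρp, fun m _ => hρs m, fun R hR _ => hcon R hR⟩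
    obtain ⟨R, hR, hC⟩ := h2
    refine ⟨u.length + l * R, ?_, by omega, fun i hi => ⟨?_, ?_⟩⟩
    · have := Nat.le_mul_of_pos_left R hl
      omega
    · exact Blocks_lam_block ρ R i hi fun j hj => hC j (by omega)
    · exact hC (i + 1) (by omega)

end Pool.Agent.MAR
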