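import Mathlib

/-!
# MP_cddbc9_lc: memoryless stochastic resolvers: definitions

Parity automata (min-even, priorities on transitions), HD automata, MA automata; the thread language `Lg`.
Paper proof: /team-store/ma_hd_proof.md.
-/

set_option autoImplicit false

open Filter MeasureTheory

namespace Pool.Agent.MAR

/-! ## Parity automata, HD, MA -/

/-- the least number which occurs infinitely often in the sequence is even -/
def ParityAcc (p : ℕ → ℕ) : Prop :=
  ∃ n, Even n ∧ (∃ᶠ i in atTop, p i = n) ∧ ∀ n' < n, ¬ ∃ᶠ i in atTop, p i = n'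

/-- nondeterministic parity automata: finite set of states `Q`, initial state `q0`, transition relation `Δ`,
priorities `pr` of the transitions (only the values on transitions matter) -/
structure NPA (A : Type) where
  Q : Type
  fin : Fintype Q
  q0 : Q
  Δ : Q → A → Q → Prop
  pr : Q → A → Q → ℕ

section NPA
variable {A : Type}

instance NPA.msp (B : NPA A) : MeasurableSpace B.Q := ⊤

/-- number of states -/
def NPA.size (B : NPA A) : ℕ := @Fintype.card B.Q B.fin

/-- `ρ` is a run on the infinite word `w` -/
def NPA.Run (B : NPA A) (w : ℕ → A) (ρ : ℕ → B.Q) : Prop :=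
  ρ 0 = B.q0 ∧ ∀ i, B.Δ (ρ i) (w i) (ρ (i + 1))

/-- the sequence of priorities of a run -/
def NPA.prs (B : NPA A) (w : ℕ → A) (ρ : ℕ → B.Q) : ℕ → ℕ := fun i => B.pr (ρ i) (w i) (ρ (i + 1))

/-- the language: the infinite words with an accepting run -/
def NPA.lang (B : NPA A) : Set (ℕ → A) := {w | ∃ ρ, B.Run w ρ ∧ ParityAcc (B.prs w ρ)}

/-- the history of a play of the HD game after `n` rounds: the letters of Adam and the states reached by Eve -/
def NPA.hist (B : NPA A) (w : ℕ → A) (ρ : ℕ → B.Q) (n : ℕ) : List (A × B.Q) :=
  (List.range n).map fun i => (w i, ρ (i + 1))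

/-- history-deterministic: Eve has a strategy `s` (from the history and the new letter to the next state) such that in every
play she moves along transitions and wins, i.e. the word is not in the language or her run is accepting -/
def NPA.HD (B : NPA A) : Prop :=
  ∃ s : List (A × B.Q) → A → B.Q, ∀ (w : ℕ → A) (ρ : ℕ → B.Q), ρ 0 = B.q0 →
    (∀ n, ρ (n + 1) = s (B.hist w ρ n) (w n)) →
      (∀ n, B.Δ (ρ n) (w n) (ρ (n + 1))) ∧ (w ∈ B.lang → ParityAcc (B.prs w ρ))

/-- memoryless stochastic resolver: for every state and letter a probability distribution on the transitions -/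
structure NPA.Resolver (B : NPA A) where
  σ : B.Q → A → PMF B.Q
  supp : ∀ q a q', q' ∈ (σ q a).support → B.Δ q a q'

/-- history of the play of the strategy `α` of Adam (from histories to letters) in which Eve's states are `ρ` -/
def NPA.hs (B : NPA A) (α : List (A × B.Q) → A) (ρ : ℕ → B.Q) : ℕ → List (A × B.Q)
  | 0 => []
  | n + 1 => NPA.hs B α ρ n ++ [(α (NPA.hs B α ρ n), ρ (n + 1))]

/-- the letters of this play -/
def NPA.ltr (B : NPA A) (α : List (A × B.Q) → A) (ρ : ℕ → B.Q) (n : ℕ) : A := α (B.hs α ρ n)

/-- `μ` is the law of the random sequence of states in the play of the resolver `r` against the strategy `α` of Adam: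
the next state is chosen by `r` from the current state and the letter, independently of the rest of the history.
(These conditions determine the probability measure `μ`.) -/
structure NPA.IsLaw (B : NPA A) (r : B.Resolver) (α : List (A × B.Q) → A) (μ : Measure (ℕ → B.Q)) : Prop where
  prob : IsProbabilityMeasure μ
  init : μ {ρ | ρ 0 = B.q0} = 1
  step : ∀ (n : ℕ) (h : ℕ → B.Q), μ {ρ | ∀ i ≤ n + 1, ρ i = h i} =
    μ {ρ | ∀ i ≤ n, ρ i = h i} * r.σ (h n) (B.ltr α h n) (h (n + 1))

/-- `r` makes Eve win with probability `1` against every strategy `α` of Adam (who sees the letters and Eve's choices):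
almost surely the word is not in the language or the run is accepting.  (The law `μ` of the play exists and is unique.) -/
def NPA.Wins (B : NPA A) (r : B.Resolver) : Prop :=
  ∀ (α : List (A × B.Q) → A) (μ : Measure (ℕ → B.Q)), B.IsLaw r α μ →
    ∀ᵐ ρ ∂μ, B.ltr α ρ ∈ B.lang → ParityAcc (B.prs (B.ltr α ρ) ρ)

/-- memoryless-adversarially resolvable -/
def NPA.MA (B : NPA A) : Prop := ∃ r : B.Resolver, B.Wins r

end NPA

/-! ## The thread language -/

/-- the alphabet -/
inductive Let (k m : ℕ) : Type
  | perm (g : Equiv.Perm (Fin k)) : Let k m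
  | kp (x y : Fin k) : Let k m
  | jj (x : Fin k) (i : Fin m) (y : Fin 4) : Let k m
  | go (t : Option Bool) (i : Fin m) (a b : Fin k) : Let k m
  | zz (i : Fin m) (y : Fin 4) : Let k m
  | mm (i : Fin m) (s : Fin 4) (a b : Fin k) : Let k m
  | ff (t : Bool) (i : Fin m) (a b : Fin k) : Let k m
  deriving DecidableEq, Fintype

/-- classes: `none` is class 0 -/
abbrev Cl (m : ℕ) := Option (Fin m)

/-- threads -/
abbrev Th (k m : ℕ) := Fin k ⊕ (Fin m × Fin 4)

section threads
variable {k m : ℕ}

/-- class of a thread -/
def cls : Th k m → Cl m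
  | .inl _ => none
  | .inr p => some p.1

/-- the two special pairs of threads of the classes `i ≥ 1` -/
def pf : Bool → Fin 4 × Fin 4
  | false => (3, 0)
  | true => (1, 2)

/-- the three pairs of the letters `go` -/
def pg : Option Bool → Fin 4 × Fin 4
  | none => (0, 1)
  | some t => pf t

/-- source class of a letter -/
def src : Let k m → Cl m
  | .perm _ => none
  | .kp _ _ => none
  | .jj _ _ _ => none
  | .go _ _ _ _ => none
  | .zz i _ => some i
  | .mm i _ _ _ => some i
  | .ff _ i _ _ => some i

/-- target class of a letter -/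
def tgt : Let k m → Cl m
  | .perm _ => none
  | .kp _ _ => none
  | .jj _ i _ => some i
  | .go _ i _ _ => some i
  | .zz i _ => some i
  | .mm _ _ _ _ => none
  | .ff _ _ _ _ => none

/-- the partial map of a letter -/
def act : Let k m → Th k m → Option (Th k m)
  | .perm g, .inl x => some (.inl (g x))
  | .kp x y, .inl z => if z = x ∨ z = y then some (.inl z) else none
  | .jj x i y, .inl z => if z = x then some (.inr (i, y)) else none
  | .go t i a b, .inl z =>
      if z = a then some (.inr (i, (pg t).1)) else if z = b then some (.inr (i, (pg t).2)) else none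
  | .zz i y, .inr (j, z) => if j = i ∧ z = y then some (.inr (j, z)) else none
  | .mm i s a b, .inr (j, z) => if j = i then some (.inl (if z = s then a else b)) else none
  | .ff t i a b, .inr (j, z) =>
      if j = i then (if z = (pf t).1 then some (.inl a) else if z = (pf t).2 then some (.inl b) else none) else none
  | _, _ => none

/-- the class after a letter: a letter with the wrong source does not change the class (and kills all threads) -/
def nc (c : Cl m) (a : Let k m) : Cl m := if src a = c then tgt a else c

/-- the class after a finite word -/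
def ncs (c : Cl m) : List (Let k m) → Cl m
  | [] => c
  | a :: u => ncs (nc c a) u

/-- the partial map of a finite word -/
def acts : List (Let k m) → Th k m → Option (Th k m)
  | [], x => some x
  | a :: u, x => (act a x).bind (acts u)

/-- the `j` letters of `w` from position `n` on -/
def seg {A : Type} (w : ℕ → A) (n j : ℕ) : List A := (List.range j).map fun i => w (n + i)

/-- the words such that, starting in the class `c`, every thread of the class at any time dies later -/
def Lg (c : Cl m) : Set (ℕ → Let k m) :=
  {w | ∀ n (x : Th k m), cls x = ncs c (seg w 0 n) → ∃ j, acts (seg w n j) x = none}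

end threads

/-! ## Arenas and end components -/

section arena
variable {V A : Type}

/-- paths inside `E`, with their words -/
inductive PathIn (s : V → A → Set V) (E : Set (V × A)) : V → List A → V → Prop
  | nil (q : V) : PathIn s E q [] q
  | cons {q q' q'' : V} {a : A} {u : List A} (h : (q, a) ∈ E) (h' : q' ∈ s q a) (t : PathIn s E q' u q'') :
      PathIn s E q (a :: u) q''

/-- end components -/
structure EC (s : V → A → Set V) (E : Set (V × A)) : Prop where
  ne : E.Nonempty
  cl : ∀ q a q', (q, a) ∈ E → q' ∈ s q a → ∃ a', (q', a') ∈ E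
  conn : ∀ q a q' a', (q, a) ∈ E → (q', a') ∈ E → ∃ u, PathIn s E q u q'

/-- the least priority on the edges of `E` is odd -/
def OddE (s : V → A → Set V) (pr : V → A → V → ℕ) (E : Set (V × A)) : Prop :=
  ∃ q a q', (q, a) ∈ E ∧ q' ∈ s q a ∧ Odd (pr q a q') ∧
    ∀ p b p', (p, b) ∈ E → p' ∈ s p b → pr q a q' ≤ pr p b p'

/-- union of the odd end components -/
def Rset (s : V → A → Set V) (pr : V → A → V → ℕ) : Set (V × A) :=
  {p | ∃ E, EC s E ∧ OddE s pr E ∧ p ∈ E}

end arena

section support
variable {A : Type}

/-- the arena of a resolver -/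
def NPA.Resolver.arena {B : NPA A} (r : B.Resolver) : B.Q → A → Set B.Q := fun q a => (r.σ q a).support

/-- `q` is reachable by the word `u` -/
def NPA.Resolver.Rch {B : NPA A} (r : B.Resolver) (u : List A) (q : B.Q) : Prop :=
  PathIn r.arena Set.univ B.q0 u q

end support

/-! ## Deterministic models -/

section det
variable {k m : ℕ}

/-- run of a deterministic automaton -/
def drun {Q A : Type} (δ : Q → A → Q) (q : Q) : List A → Q
  | [] => q
  | a :: u => drun δ (δ q a) u

/-- the priorities along a walk -/
def wpr {Q A : Type} (δ : Q → A → Q) (pr : Q → A → ℕ) : Q → List A → List ℕ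
  | _, [] => []
  | q, a :: u => pr q a :: wpr δ pr (δ q a) u

/-- the least priority on the walk is odd -/
def OddW {Q A : Type} (δ : Q → A → Q) (pr : Q → A → ℕ) (q : Q) (u : List A) : Prop :=
  ∃ n ∈ wpr δ pr q u, Odd n ∧ ∀ n' ∈ wpr δ pr q u, n ≤ n'

/-- what is used about a deterministic parity automaton of the language `Lg none` (all states reachable) -/
structure DM (k m : ℕ) where
  Q : Type
  fin : Fintype Q
  q0 : Q
  δ : Q → Let k m → Q
  pr : Q → Let k m → ℕ
  cl : Q → Cl m
  cl0 : cl q0 = none
  hcl : ∀ q a, cl (δ q a) = nc (cl q) a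
  oddfix : ∀ (q : Q) (u : List (Let k m)) (x : Th k m), u ≠ [] → drun δ q u = q → cls x = cl q →
    acts u x = some x → OddW δ pr q u
  kill : ∀ (q : Q) (u : List (Let k m)), drun δ q u = q → (∀ x : Th k m, cls x = cl q → acts u x = none) →
    ¬ OddW δ pr q u

/-- number of states -/
def DM.size (D : DM k m) : ℕ := @Fintype.card D.Q D.fin

end det

end Pool.Agent.MAR
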