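import Pool.Agent.Lib_MP_cddbc9.LowB

/-!
# Lower bound, part C: bottom pairs, loops, counting (piece LC)

Section 3 of /team-store/ma_hd_proof.md, from (Bot) on.
-/

set_option autoImplicit false

open Filter

namespace Pool.Agent.MAR

section
variable {k m : ℕ} (D : DM k m)

private theorem LowC_step {q : D.Q} {x y : Th k m} {a : Let k m} (hx : cls x = D.cl q) (h : act a x = some y) :
    cls y = D.cl (D.δ q a) ∧ D.To (q, x) (D.δ q a, y) := by
  obtain ⟨h1, h2⟩ := act_cls h
  refine ⟨?_, [a], rfl, ?_⟩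
  · rw [D.hcl, nc, if_pos (h1.trans hx), h2]
  · simp only [acts, h]
    rfl

private theorem LowC_botstep {h0 : ℕ} (hmin : ∀ (q : D.Q) (x : Th k m), cls x = D.cl q → h0 ≤ D.ht (q, x))
    {q : D.Q} {x y : Th k m} {a : Let k m} (hx : cls x = D.cl q) (hh : D.ht (q, x) = h0) (h : act a x = some y) :
    cls y = D.cl (D.δ q a) ∧ D.ht (D.δ q a, y) = h0 := by
  obtain ⟨h1, h2⟩ := LowC_step D hx h
  exact ⟨h1, le_antisymm (hh ▸ D.ht_le h2) (hmin _ _ h1)⟩

/-- pairs of least height: every thread of every class occurs -/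
theorem DM.bottom (hk : 0 < k) : ∃ h0, (∀ (q : D.Q) (x : Th k m), cls x = D.cl q → h0 ≤ D.ht (q, x)) ∧
    ∀ y : Th k m, ∃ q : D.Q, cls y = D.cl q ∧ D.ht (q, y) = h0 := by
  classical
  have hex : ∃ n, ∃ (q : D.Q) (x : Th k m), cls x = D.cl q ∧ D.ht (q, x) = n :=
    ⟨_, D.q0, .inl ⟨0, hk⟩, by rw [D.cl0]; rfl, rfl⟩
  obtain ⟨q, x, hx, hh⟩ := Nat.find_spec hex
  have hmin : ∀ (q : D.Q) (x : Th k m), cls x = D.cl q → Nat.find hex ≤ D.ht (q, x) :=
    fun q x hx => Nat.find_min' hex ⟨q, x, hx, rfl⟩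
  refine ⟨Nat.find hex, hmin, ?_⟩
  obtain ⟨q1, x1, hx1, hh1⟩ : ∃ (q1 : D.Q) (x1 : Fin k), cls (.inl x1 : Th k m) = D.cl q1 ∧
      D.ht (q1, .inl x1) = Nat.find hex := by
    rcases x with x | ⟨i, z⟩
    · exact ⟨q, x, hx, hh⟩
    · have h1 : act (.mm i z ⟨0, hk⟩ ⟨0, hk⟩ : Let k m) (.inr (i, z)) = some (.inl ⟨0, hk⟩) := by simp [act]
      obtain ⟨h2, h3⟩ := LowC_botstep D hmin hx hh h1
      exact ⟨_, _, h2, h3⟩
  rintro (y | ⟨i, z⟩)
  · have h1 : act (.perm (Equiv.swap x1 y) : Let k m) (.inl x1) = some (.inl y) := by simp [act]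
    obtain ⟨h2, h3⟩ := LowC_botstep D hmin hx1 hh1 h1
    exact ⟨_, h2, h3⟩
  · have h1 : act (.jj x1 i z : Let k m) (.inl x1) = some (.inr (i, z)) := by simp [act]
    obtain ⟨h2, h3⟩ := LowC_botstep D hmin hx1 hh1 h1
    exact ⟨_, h2, h3⟩

theorem DM.bottom_T {h0 : ℕ} (hmin : ∀ (q : D.Q) (x : Th k m), cls x = D.cl q → h0 ≤ D.ht (q, x)) (hk : 0 < k)
    {q : D.Q} {y : Th k m} (hy : cls y = D.cl q) (h : D.ht (q, y) = h0) : D.T q = {y} := by
  obtain ⟨a, ha, ha'⟩ : ∃ a : Let k m, act a y = some y ∧ ∀ x, act a x ≠ none → x = y := by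
    rcases y with y | ⟨i, z⟩
    · refine ⟨.kp y y, by simp [act], ?_⟩
      rintro (x | ⟨j, z⟩) hx
      · by_contra hne
        apply hx
        have : ¬ (x = y ∨ x = y) := fun h' => hne (by rcases h' with rfl | rfl <;> rfl)
        simp only [act, if_neg this]
      · exact absurd rfl hx
    · refine ⟨.zz i z, by simp [act], ?_⟩
      rintro (x | ⟨j, z'⟩) hx
      · exact absurd rfl hx
      · by_contra hne
        apply hx
        have : ¬ (j = i ∧ z' = z) := fun h' => hne (by rw [h'.1, h'.2])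
        simp only [act, if_neg this]
  obtain ⟨h1, h2⟩ := LowC_step D hy ha
  obtain ⟨u, hu1, hu2⟩ := D.ht_back h2 (h ▸ hmin _ _ h1)
  have hodd : OddW D.δ D.pr q (a :: u) := by
    refine D.oddfix q (a :: u) y (List.cons_ne_nil _ _) hu1 hy ?_
    simp only [acts, ha]
    exact hu2
  have hsub : ∀ x ∈ D.T q, x = y := by
    intro x hx
    apply ha'
    intro hnone
    apply hx.2 (a :: u) hu1 hodd
    simp only [acts, hnone]
    rfl
  obtain ⟨x, hx⟩ := D.T_ne hk q
  apply Set.eq_singleton_iff_unique_mem.2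
  exact ⟨hsub x hx ▸ hx, hsub⟩

private theorem LowC_good (hk : 2 ≤ k) (hn : D.nC none < k * (k - 1)) : ∃ N, D.Good N := by
  have hk0 : 0 < k := by omega
  obtain ⟨u, q, hq, hrec, -⟩ := D.rec_exists D.cl0
  have hyz : (⟨0, hk0⟩ : Fin k) ≠ ⟨1, by omega⟩ := by
    intro h
    simp at h
  by_cases hS : D.S q = {⟨0, hk0⟩, ⟨1, by omega⟩}
  · exact ⟨_, q, _, _, hrec, hyz, hS, le_rfl⟩
  · exact ⟨max (D.ht (q, .inl ⟨0, hk0⟩)) (D.ht (q, .inl ⟨1, by omega⟩)), D.pd hk0 hn _ q _ _ hrec hyz
      ((le_max_left _ _).trans (Nat.le_succ _)) ((le_max_right _ _).trans (Nat.le_succ _)) hS⟩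

private theorem LowC_pf (t : Bool) : (pf t).1 ≠ (pf t).2 := by
  cases t <;> decide

private theorem LowC_go1 (t : Option Bool) (i : Fin m) (a b : Fin k) :
    act (.go t i a b : Let k m) (.inl a) = some (.inr (i, (pg t).1)) := by simp [act]

private theorem LowC_go2 (t : Option Bool) (i : Fin m) {a b : Fin k} (h : a ≠ b) :
    act (.go t i a b : Let k m) (.inl b) = some (.inr (i, (pg t).2)) := by simp [act, h.symm]

private theorem LowC_ff1 (t : Bool) (i : Fin m) (a b : Fin k) :
    act (.ff t i a b : Let k m) (.inr (i, (pf t).1)) = some (.inl a) := by simp [act]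

private theorem LowC_ff2 (t : Bool) (i : Fin m) (a b : Fin k) :
    act (.ff t i a b : Let k m) (.inr (i, (pf t).2)) = some (.inl b) := by
  simp [act, (LowC_pf t).symm]

/-- the state `v` with its two loops through every class -/
theorem DM.exists_v (hk : 2 ≤ k) (hn : D.nC none < k * (k - 1)) : ∃ (v : D.Q) (a b : Fin k), a ≠ b ∧ D.Rec v ∧ D.S v = {a, b} ∧
    D.To (v, .inl a) (v, .inl b) ∧ D.To (v, .inl b) (v, .inl a) ∧ (∃ N, D.ht (v, .inl a) = N + 1 ∧ ¬ D.Good N) ∧
    ∀ (t : Bool) (i : Fin m), ∃ ρ : List (Let k m), drun D.δ v (.go (some t) i a b :: .ff t i a b :: ρ) = v ∧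
      acts ρ (.inl a : Th k m) = some (.inl a) := by
  classical
  have hk0 : 0 < k := by omega
  have hex := LowC_good D hk hn
  obtain ⟨q, x, y, hrec, hxy, hS, hht⟩ := Nat.find_spec hex
  have hpos := D.ht_pos (q, .inl x)
  obtain ⟨N, hN⟩ : ∃ N, Nat.find hex = N + 1 := ⟨Nat.find hex - 1, by omega⟩
  have hnot : ¬ D.Good N := Nat.find_min hex (by omega)
  have hge : ∀ (q' : D.Q) (x' y' : Fin k), D.Rec q' → x' ≠ y' → D.S q' = {x', y'} → N + 1 ≤ D.ht (q', .inl x') := by
    intro q' x' y' h1 h2 h3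
    by_contra hlt
    exact hnot ⟨q', x', y', h1, h2, h3, by omega⟩
  obtain ⟨v, a, b, hab, hrv, hSv, t1, t2, t3, t4⟩ := D.tw2 hk0 hn hrec hxy hS
  have hqx : D.ht (q, .inl x) = N + 1 := le_antisymm (hN ▸ hht) (hge q x y hrec hxy hS)
  have hva : D.ht (v, .inl a) = N + 1 := by
    rw [← hqx]
    exact le_antisymm (D.ht_le t1) (D.ht_le t2)
  have hvb : D.ht (v, .inl b) = N + 1 := by
    rw [← hqx]
    exact le_antisymm (D.ht_le t3) (D.ht_le t4)
  refine ⟨v, a, b, hab, hrv, hSv, DM.To.trans D t2 t3, DM.To.trans D t4 t1, ⟨N, hva, hnot⟩, ?_⟩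
  intro t i
  have hcl : D.cl (drun D.δ v [.go (some t) i a b, .ff t i a b]) = none := by
    simp only [drun, D.hcl, hrv.1]
    simp [nc, src, tgt]
  obtain ⟨u, q2, hu, hr2, hux⟩ := D.rec_exists hcl
  have hA : D.To (v, .inl a) (q2, .inl a) := by
    refine ⟨.go (some t) i a b :: .ff t i a b :: u, ?_, ?_⟩
    · exact hu
    · simp only [acts, LowC_go1, pg, Option.bind_some, LowC_ff1, hux]
  have hB : D.To (v, .inl b) (q2, .inl b) := by
    refine ⟨.go (some t) i a b :: .ff t i a b :: u, ?_, ?_⟩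
    · exact hu
    · simp only [acts, LowC_go2 _ _ hab, pg, Option.bind_some, LowC_ff2, hux]
  have hS2 : D.S q2 = {a, b} := by
    by_contra hne
    exact hnot (D.pd hk0 hn N q2 a b hr2 hab (hva ▸ D.ht_le hA) (hvb ▸ D.ht_le hB) hne)
  obtain ⟨ρ0, h1, h2⟩ := D.ht_back hA (hva ▸ hge q2 a b hr2 hab hS2)
  refine ⟨u ++ ρ0, ?_, ?_⟩
  · show drun D.δ (drun D.δ v [.go (some t) i a b, .ff t i a b]) (u ++ ρ0) = v
    rw [drun_append, hu]
    exact h1
  · rw [acts_append, hux]
    exact h2

theorem DM.card_none (hk : 2 ≤ k) (hn : D.nC none < k * (k - 1)) : k * (k + 1) / 2 ≤ D.nC none := by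
  classical
  have hk0 : 0 < k := by omega
  have : Finite D.Q := @Finite.of_fintype _ D.fin
  obtain ⟨v, a, b, hab, hrv, hSv, -, -, -, -⟩ := D.exists_v hk hn
  obtain ⟨h0, hmin, hbot⟩ := D.bottom hk0
  have hex : ∀ e : Sym2 (Fin k), ∃ q : D.Q, D.cl q = none ∧ D.S q = {z | z ∈ e} := by
    intro e
    induction e using Sym2.ind with
    | _ x y =>
      by_cases hxy : x = y
      · subst hxy
        obtain ⟨q, h1, h2⟩ := hbot (.inl x)
        refine ⟨q, h1.symm, ?_⟩
        ext z
        simp [DM.S, D.bottom_T hmin hk0 h1 h2]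
      · obtain ⟨g, hga, hgb⟩ : ∃ g : Equiv.Perm (Fin k), g a = x ∧ g b = y := by
          refine ⟨(Equiv.swap a x).trans (Equiv.swap (Equiv.swap a x b) y), ?_, ?_⟩
          · simp only [Equiv.trans_apply, Equiv.swap_apply_left]
            rw [Equiv.swap_apply_of_ne_of_ne _ hxy]
            intro h
            apply hab
            have := congrArg (Equiv.swap a x) h
            rw [Equiv.swap_apply_self, Equiv.swap_apply_right] at this
            exact this
          · simp only [Equiv.trans_apply, Equiv.swap_apply_left]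
        obtain ⟨h1, h2, -⟩ := D.rec_perm hk0 hrv g
        refine ⟨_, h1.1, ?_⟩
        rw [h2, hSv, Set.image_pair, hga, hgb]
        ext z
        simp
  choose f hf1 hf2 using hex
  have hinj : Function.Injective (fun e : Sym2 (Fin k) => (⟨f e, hf1 e⟩ : {q : D.Q // D.cl q = none})) := by
    intro e e' h
    have h1 : f e = f e' := congrArg Subtype.val h
    have h2 : {z | z ∈ e} = {z | z ∈ e'} := by rw [← hf2, ← hf2, h1]
    apply Sym2.ext
    intro z
    exact Set.ext_iff.1 h2 z
  have h3 := Nat.card_le_card_of_injective _ hinj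
  rw [Nat.card_eq_fintype_card, Sym2.card, Fintype.card_fin, Nat.choose_two_right, Nat.add_sub_cancel, mul_comm] at h3
  exact h3

theorem DM.card_four (hk : 0 < k) (i : Fin m) : 4 ≤ D.nC (some i) := by
  classical
  have : Finite D.Q := @Finite.of_fintype _ D.fin
  obtain ⟨h0, hmin, hbot⟩ := D.bottom hk
  choose f hf1 hf2 using fun y : Fin 4 => hbot (.inr (i, y))
  have hinj : Function.Injective (fun y : Fin 4 => (⟨f y, (hf1 y).symm⟩ : {q : D.Q // D.cl q = some i})) := by
    intro y y' h
    have h1 : f y = f y' := congrArg Subtype.val h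
    have h2 := D.bottom_T hmin hk (hf1 y) (hf2 y)
    have h3 := D.bottom_T hmin hk (hf1 y') (hf2 y')
    rw [h1, h3] at h2
    have h4 := Set.singleton_injective h2
    simpa using h4.symm
  have h3 := Nat.card_le_card_of_injective _ hinj
  rw [Nat.card_eq_fintype_card, Fintype.card_fin] at h3
  exact h3

/-- the states `u_t`, `t = 1, 2` -/
private theorem LowC_u {v : D.Q} {a b : Fin k} (hrv : D.Rec v) (hS : D.S v = {a, b}) (hab : a ≠ b) (t : Bool) (i : Fin m)
    {ρ : List (Let k m)} (h1 : drun D.δ v (.go (some t) i a b :: .ff t i a b :: ρ) = v)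
    (h2 : acts ρ (.inl a : Th k m) = some (.inl a)) :
    OddW D.δ D.pr v (.go (some t) i a b :: .ff t i a b :: ρ) ∧
    (.inr (i, (pf t).1) : Th k m) ∈ D.T (D.δ v (.go (some t) i a b)) ∧
    (.inr (i, (pf t).2) : Th k m) ∈ D.T (D.δ v (.go (some t) i a b)) ∧
    ∃ c ∈ D.S v, acts ρ (.inl b : Th k m) = some (.inl c) := by
  have ha : (.inl a : Th k m) ∈ D.T v := by
    have : a ∈ D.S v := by rw [hS]; simp
    exact this
  have hb : (.inl b : Th k m) ∈ D.T v := by
    have : b ∈ D.S v := by rw [hS]; simp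
    exact this
  have hodd : OddW D.δ D.pr v (.go (some t) i a b :: .ff t i a b :: ρ) := by
    refine D.oddfix v _ (.inl a) (List.cons_ne_nil _ _) h1 ?_ ?_
    · rw [hrv.1]
      rfl
    · simp only [acts, LowC_go1, pg, Option.bind_some, LowC_ff1, h2]
  refine ⟨hodd, ?_, ?_, ?_⟩
  · obtain ⟨y, hy, hy'⟩ := D.T_map (u := [.go (some t) i a b]) (u' := .ff t i a b :: ρ) rfl h1 hodd ha
    simp only [acts, LowC_go1, pg, Option.bind_some, Option.some.injEq] at hy'
    rw [hy']
    exact hy
  · obtain ⟨y, hy, hy'⟩ := D.T_map (u := [.go (some t) i a b]) (u' := .ff t i a b :: ρ) rfl h1 hodd hb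
    simp only [acts, LowC_go2 _ _ hab, pg, Option.bind_some, Option.some.injEq] at hy'
    rw [hy']
    exact hy
  · obtain ⟨y, hy, hy'⟩ := D.T_map (u := .go (some t) i a b :: .ff t i a b :: ρ) (u' := []) h1 rfl
      (by rw [List.append_nil]; exact hodd) hb
    simp only [acts, LowC_go2 _ _ hab, pg, Option.bind_some, LowC_ff2] at hy'
    have hcy : cls y = none := by
      rw [hy.1, hrv.1]
    rcases y with c | ⟨j, z⟩
    · exact ⟨c, hy, hy'⟩
    · simp [cls] at hcy

theorem DM.card_seven (hk : 2 ≤ k) (hn : D.nC none < k * (k - 1)) (i : Fin m) : 7 ≤ D.nC (some i) := by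
  classical
  have hk0 : 0 < k := by omega
  have : Finite D.Q := @Finite.of_fintype _ D.fin
  obtain ⟨v, a, b, hab, hrv, hSv, tab, tba, ⟨N, hN, hnot⟩, hloop⟩ := D.exists_v hk hn
  obtain ⟨h0, hmin, hbot⟩ := D.bottom hk0
  choose s hs1 hs2 using fun y : Fin 4 => hbot (.inr (i, y))
  have hsT := fun y => D.bottom_T hmin hk0 (hs1 y) (hs2 y)
  have hvb : D.ht (v, .inl b) = N + 1 := by
    rw [← hN]
    exact le_antisymm (D.ht_le tab) (D.ht_le tba)
  have haT : (.inl a : Th k m) ∈ D.T v := by
    have : a ∈ D.S v := by rw [hSv]; simp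
    exact this
  have hbT : (.inl b : Th k m) ∈ D.T v := by
    have : b ∈ D.S v := by rw [hSv]; simp
    exact this
  have hcv : ∀ x : Fin k, cls (.inl x : Th k m) = D.cl v := by
    intro x
    rw [hrv.1]
    rfl
  -- the three states u
  set u : Option Bool → D.Q := fun t => D.δ v (.go t i a b) with hu
  have hucl : ∀ t, D.cl (u t) = some i := by
    intro t
    simp only [hu, D.hcl, hrv.1]
    simp [nc, src, tgt]
  choose ρ hρ1 hρ2 using fun t => hloop t i
  have hU := fun t => LowC_u D hrv hSv hab t i (hρ1 t) (hρ2 t)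
  -- u (some t) is not a bottom state
  have e1 : ∀ (t : Bool) (y : Fin 4), u (some t) ≠ s y := by
    intro t y h
    have h1 := (hU t).2.1
    have h2 := (hU t).2.2.1
    change _ ∈ D.T (u (some t)) at h1
    change _ ∈ D.T (u (some t)) at h2
    rw [h, hsT y, Set.mem_singleton_iff] at h1 h2
    have h3 := h1.trans h2.symm
    simp only [Sum.inr.injEq, Prod.mk.injEq, true_and] at h3
    exact LowC_pf t h3
  -- u true ≠ u false
  have e2 : u (some true) ≠ u (some false) := by
    intro h
    have h1 := (hU true).2.1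
    change _ ∈ D.T (u (some true)) at h1
    rw [h] at h1
    have hr := odd_rot (u := [Let.go (some false) i a b]) (u' := .ff false i a b :: ρ false)
      (q' := u (some false)) rfl (hρ1 false) (hU false).1
    have hc : drun D.δ (u (some false)) (.ff false i a b :: ρ false ++ [Let.go (some false) i a b]) =
        u (some false) := by
      rw [drun_append]
      have : drun D.δ (u (some false)) (.ff false i a b :: ρ false) = v := hρ1 false
      rw [this]
      rfl
    apply h1.2 _ hc hr
    have : act (.ff false i a b : Let k m) (.inr (i, (pf true).1)) = none := by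
      simp [act, pf]
    simp only [List.cons_append, acts, this]
    rfl
  -- u none ≠ u false
  have e3 : u none ≠ u (some false) := by
    intro h
    obtain ⟨c, hc, hc'⟩ := (hU false).2.2.2
    obtain ⟨τ, hτ1, hτ2⟩ : ∃ τ : List (Let k m), drun D.δ v τ = v ∧ acts τ (.inl c : Th k m) = some (.inl a) := by
      rw [hSv] at hc
      rcases hc with rfl | hc
      · exact ⟨[], rfl, rfl⟩
      · rw [Set.mem_singleton_iff.1 hc]
        exact tba
    have hrun : drun D.δ v (.go none i a b :: .ff false i a b :: (ρ false ++ τ)) = v := by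
      have h1 : drun D.δ v (.go none i a b :: .ff false i a b :: (ρ false ++ τ)) =
          drun D.δ (drun D.δ (u none) (.ff false i a b :: ρ false)) τ := by
        rw [← drun_append]
        rfl
      rw [h1, h]
      have h2 : drun D.δ (u (some false)) (.ff false i a b :: ρ false) = v := hρ1 false
      rw [h2, hτ1]
    have hodd := D.oddfix v _ (.inl a) (List.cons_ne_nil _ _) hrun (hcv a) (by
      have e0 : (pg none).1 = (pf false).2 := rfl
      simp only [acts, LowC_go1, e0, Option.bind_some, LowC_ff2, acts_append, hc', hτ2])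
    apply hbT.2 _ hrun hodd
    have e0 : act (.ff false i a b : Let k m) (.inr (i, (pg none).2)) = none := by
      simp [act, pf, pg]
    simp only [acts, LowC_go2 _ _ hab, Option.bind_some, e0]
    rfl
  -- u none ≠ u true
  have e4 : u none ≠ u (some true) := by
    intro h
    obtain ⟨τ, hτ1, hτ2⟩ := tab
    have hrun : drun D.δ v (.go none i a b :: .ff true i a b :: (ρ true ++ τ)) = v := by
      have h1 : drun D.δ v (.go none i a b :: .ff true i a b :: (ρ true ++ τ)) =
          drun D.δ (drun D.δ (u none) (.ff true i a b :: ρ true)) τ := by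
        rw [← drun_append]
        rfl
      rw [h1, h]
      have h2 : drun D.δ (u (some true)) (.ff true i a b :: ρ true) = v := hρ1 true
      rw [h2]
      exact hτ1
    have hτ2' : acts τ (.inl a : Th k m) = some (.inl b) := hτ2
    have hodd := D.oddfix v _ (.inl b) (List.cons_ne_nil _ _) hrun (hcv b) (by
      have e0 : (pg none).2 = (pf true).1 := rfl
      simp only [acts, LowC_go2 _ _ hab, e0, Option.bind_some, LowC_ff1, acts_append, hρ2 true, hτ2'])
    apply haT.2 _ hrun hodd
    have e0 : act (.ff true i a b : Let k m) (.inr (i, (pg none).1)) = none := by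
      simp [act, pf, pg]
    simp only [acts, LowC_go1, Option.bind_some, e0]
    rfl
  -- u none is not a bottom state
  have e5 : ∀ y : Fin 4, u none ≠ s y := by
    intro y h
    obtain ⟨z, hzy, hz⟩ : ∃ z : Fin 4, z ≠ y ∧ D.ht (s y, .inr (i, z)) ≤ N + 1 := by
      by_cases hy : y = 0
      · refine ⟨1, by rw [hy]; decide, ?_⟩
        rw [← hvb, ← h]
        exact D.ht_le (LowC_step D (hcv b) (LowC_go2 none i hab)).2
      · refine ⟨0, fun h' => hy h'.symm, ?_⟩
        rw [← hN, ← h]
        exact D.ht_le (LowC_step D (hcv a) (LowC_go1 none i a b)).2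
    have hne : a ≠ b := hab
    have hy1 : act (.mm i z a b : Let k m) (.inr (i, y)) = some (.inl b) := by
      simp [act, Ne.symm hzy]
    have hz1 : act (.mm i z a b : Let k m) (.inr (i, z)) = some (.inl a) := by
      simp [act]
    obtain ⟨h1, h2⟩ := LowC_botstep D hmin (hs1 y) (hs2 y) hy1
    have hcz : cls (.inr (i, z) : Th k m) = D.cl (s y) := hs1 y
    obtain ⟨-, h4⟩ := LowC_step D hcz hz1
    have hcl : D.cl (D.δ (s y) (.mm i z a b)) = none := h1.symm
    obtain ⟨w, q2, hw, hr2, hwx⟩ := D.rec_exists hcl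
    have hB : D.To (D.δ (s y) (.mm i z a b), .inl b) (q2, .inl b) := ⟨w, hw, hwx b⟩
    have hA : D.To (D.δ (s y) (.mm i z a b), .inl a) (q2, .inl a) := ⟨w, hw, hwx a⟩
    have hcb : cls (.inl b : Th k m) = D.cl q2 := by
      rw [hr2.1]
      rfl
    have hb0 : D.ht (q2, .inl b) = h0 := le_antisymm (h2 ▸ D.ht_le hB) (hmin _ _ hcb)
    have hT2 := D.bottom_T hmin hk0 hcb hb0
    have ha0 : D.ht (q2, .inl a) ≤ N + 1 := (D.ht_le hA).trans ((D.ht_le h4).trans hz)
    have hb1 : D.ht (q2, .inl b) ≤ N + 1 := by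
      rw [hb0, ← hN]
      exact hmin _ _ (hcv a)
    refine hnot (D.pd hk0 hn N q2 a b hr2 hab ha0 hb1 ?_)
    intro hS
    have h5 : a ∈ D.S q2 := by rw [hS]; simp
    have h6 : (.inl a : Th k m) ∈ D.T q2 := h5
    rw [hT2, Set.mem_singleton_iff, Sum.inl.injEq] at h6
    exact hab h6
  -- injection
  have hinj : Function.Injective (fun p : Fin 4 ⊕ Option Bool =>
      (match p with
        | .inl y => (⟨s y, (hs1 y).symm⟩ : {q : D.Q // D.cl q = some i})
        | .inr t => ⟨u t, hucl t⟩)) := by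
    have hss : ∀ y y', s y = s y' → y = y' := by
      intro y y' h
      have h2 := hsT y
      rw [h, hsT y'] at h2
      have h4 := Set.singleton_injective h2
      simpa using h4.symm
    have huu : ∀ t t', u t = u t' → t = t' := by
      intro t t' h
      rcases t with _ | t <;> rcases t' with _ | t'
      · rfl
      · cases t'
        · exact absurd h e3
        · exact absurd h e4
      · cases t
        · exact absurd h.symm e3
        · exact absurd h.symm e4
      · cases t <;> cases t'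
        · rfl
        · exact absurd h.symm e2
        · exact absurd h e2
        · rfl
    have hus : ∀ t y, u t ≠ s y := by
      intro t y
      rcases t with _ | t
      · exact e5 y
      · exact e1 t y
    rintro (y | t) (y' | t') h
    · have h1 : s y = s y' := congrArg Subtype.val h
      rw [hss y y' h1]
    · have h1 : s y = u t' := congrArg Subtype.val h
      exact absurd h1.symm (hus t' y)
    · have h1 : u t = s y' := congrArg Subtype.val h
      exact absurd h1 (hus t y')
    · have h1 : u t = u t' := congrArg Subtype.val h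
      rw [huu t t' h1]
  have h3 := Nat.card_le_card_of_injective _ hinj
  rw [Nat.card_eq_fintype_card, Fintype.card_sum, Fintype.card_fin, Fintype.card_option, Fintype.card_bool] at h3
  exact h3

private theorem LowC_sum : D.size = D.nC none + ∑ i : Fin m, D.nC (some i) := by
  classical
  let _ := D.fin
  have h1 : D.size = ∑ c : Cl m, Fintype.card {q : D.Q // D.cl q = c} := by
    unfold DM.size
    rw [← Fintype.card_sigma]
    exact (Fintype.card_congr (Equiv.sigmaFiberEquiv D.cl)).symm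
  rw [h1, Fintype.sum_option]
  unfold DM.nC
  simp only [Nat.card_eq_fintype_card]

theorem DM.card_ge (hk : 2 ≤ k) : k * (k + 1) / 2 + 7 * m ≤ D.size ∨ k * (k - 1) + 4 * m ≤ D.size := by
  rw [LowC_sum D]
  by_cases hn : D.nC none < k * (k - 1)
  · left
    have h1 := D.card_none hk hn
    have h2 : ∑ _i : Fin m, 7 ≤ ∑ i : Fin m, D.nC (some i) := Finset.sum_le_sum fun i _ => D.card_seven hk hn i
    rw [Finset.sum_const, Finset.card_univ, Fintype.card_fin, smul_eq_mul] at h2
    omega
  · right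
    have h2 : ∑ _i : Fin m, 4 ≤ ∑ i : Fin m, D.nC (some i) :=
      Finset.sum_le_sum fun i _ => D.card_four (by omega) i
    rw [Finset.sum_const, Finset.card_univ, Fintype.card_fin, smul_eq_mul] at h2
    omega

end

end Pool.Agent.MAR
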