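import Pool.Agent.Lib_MP_cddbc9.Defs

/-!
# Periodic words: from a deterministic parity automaton to a `DM` (piece PE)

States: the states reachable from `q0` (subtype).  Class of a reachable state: `ncs none u` for a word `u` leading to it.  Well defined: if `u`, `u'` lead to
`q` with different classes `c ≠ c'`, there is a word in `Lg c` not in `Lg c'` or conversely (c = none, c' = some i: the constant word `perm 1` is not in `Lg none`, it is in `Lg (some i)`;
some i, some j: the constant word `zz i 0` is not in `Lg (some i)`, it is in `Lg (some j)`); `u w` and `u' w` have the same run from `q` on, so both are accepted or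
both not; and `u w ∈ Lg none ↔ w ∈ Lg (ncs none u)`.
`oddfix`, `kill`: let `v` lead to `q`, `drun δ q u = q`, `u ≠ []`.  The run on `v u u u …` has (after `|v|`) periodic priorities `wpr δ pr q u`, so it is accepting iff the
least element of `wpr δ pr q u` is even.  If `u` fixes a thread of the class, the word is not in the language; if `u` kills all threads of the
class, it is in the language (a thread which is alive at some time is at the start of the next copy of `u` dead or a thread of the class, and dies in this copy).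
-/

set_option autoImplicit false

open Filter

namespace Pool.Agent.MAR

variable {k m : ℕ}

/-! ### Words -/

private theorem Per_seg_zero {A : Type} (w : ℕ → A) (n : ℕ) : seg w n 0 = [] := by
  simp [seg]

private theorem Per_seg_add {A : Type} (w : ℕ → A) (n a b : ℕ) :
    seg w n (a + b) = seg w n a ++ seg w (n + a) b := by
  unfold seg
  rw [List.range_add, List.map_append, List.map_map]
  congr 1
  apply List.map_congr_left
  intro i _
  simp [Nat.add_assoc]

private theorem Per_seg_one {A : Type} (w : ℕ → A) (n : ℕ) : seg w n 1 = [w n] := by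
  simp [seg]

private theorem Per_seg_succ {A : Type} (w : ℕ → A) (n j : ℕ) :
    seg w n (j + 1) = seg w n j ++ [w (n + j)] := by
  rw [Per_seg_add, Per_seg_one]

private theorem Per_seg_len {A : Type} (w : ℕ → A) (n j : ℕ) : (seg w n j).length = j := by
  simp [seg]

private theorem Per_seg_succ' {A : Type} (w : ℕ → A) (n j : ℕ) :
    seg w n (j + 1) = w n :: seg w (n + 1) j := by
  rw [Nat.add_comm j 1, Per_seg_add, Per_seg_one]
  rfl

/-- put a letter in front -/
private def Per_cns {A : Type} (a : A) (w : ℕ → A) : ℕ → A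
  | 0 => a
  | n + 1 => w n

private theorem Per_seg_cns {A : Type} (a : A) (w : ℕ → A) (n j : ℕ) :
    seg (Per_cns a w) (n + 1) j = seg w n j := by
  unfold seg
  apply List.map_congr_left
  intro i _
  have : n + 1 + i = (n + i) + 1 := by omega
  rw [this]
  rfl

private theorem Per_seg_cns0 {A : Type} (a : A) (w : ℕ → A) (j : ℕ) :
    seg (Per_cns a w) 0 (j + 1) = a :: seg w 0 j := by
  rw [Per_seg_succ']
  have h := Per_seg_cns a w 0 j
  rw [h]
  rfl

private theorem Per_drun_append {Q A : Type} (δ : Q → A → Q) (u v : List A) :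
    ∀ q : Q, drun δ q (u ++ v) = drun δ (drun δ q u) v := by
  induction u with
  | nil => intro q; rfl
  | cons a u ih => intro q; exact ih (δ q a)

private theorem Per_wpr_append {Q A : Type} (δ : Q → A → Q) (pr : Q → A → ℕ) (u v : List A) :
    ∀ q : Q, wpr δ pr q (u ++ v) = wpr δ pr q u ++ wpr δ pr (drun δ q u) v := by
  induction u with
  | nil => intro q; rfl
  | cons a u ih =>
    intro q
    simp only [List.cons_append, wpr, drun]
    rw [ih]

private theorem Per_ncs_append (u v : List (Let k m)) :
    ∀ c : Cl m, ncs c (u ++ v) = ncs (ncs c u) v := by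
  induction u with
  | nil => intro c; rfl
  | cons a u ih => intro c; exact ih (nc c a)

private theorem Per_acts_append (u v : List (Let k m)) :
    ∀ x : Th k m, acts (u ++ v) x = (acts u x).bind (acts v) := by
  induction u with
  | nil => intro x; rfl
  | cons a u ih =>
    intro x
    simp only [List.cons_append, acts]
    cases act a x with
    | none => rfl
    | some y => exact ih y

/-! ### Classes -/

private theorem Per_act_cls (a : Let k m) (x y : Th k m) (h : act a x = some y) :
    cls y = nc (cls x) a := by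
  rcases x with z | ⟨j, z⟩
  · cases a with
    | perm g =>
      simp only [act, Option.some.injEq] at h
      subst h
      rfl
    | kp x' y' =>
      simp only [act] at h
      split_ifs at h
      simp only [Option.some.injEq] at h
      subst h
      rfl
    | jj x' i y' =>
      simp only [act] at h
      split_ifs at h
      simp only [Option.some.injEq] at h
      subst h
      rfl
    | go t i a b =>
      simp only [act] at h
      split_ifs at h <;>
      · simp only [Option.some.injEq] at h
        subst h
        rfl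
    | zz i y' => simp [act] at h
    | mm i s a b => simp [act] at h
    | ff t i a b => simp [act] at h
  · cases a with
    | perm g => simp [act] at h
    | kp x' y' => simp [act] at h
    | jj x' i y' => simp [act] at h
    | go t i a b => simp [act] at h
    | zz i y' =>
      simp only [act] at h
      split_ifs at h with h1
      simp only [Option.some.injEq] at h
      subst h
      obtain ⟨rfl, _⟩ := h1
      simp [cls, nc, src, tgt]
    | mm i s a b =>
      simp only [act] at h
      split_ifs at h with h1
      · simp only [Option.some.injEq] at h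
        subst h
        subst h1
        simp [cls, nc, src, tgt]
      · simp only [Option.some.injEq] at h
        subst h
        subst h1
        simp [cls, nc, src, tgt]
    | ff t i a b =>
      simp only [act] at h
      split_ifs at h with h1 h2 h3
      · simp only [Option.some.injEq] at h
        subst h
        subst h1
        simp [cls, nc, src, tgt]
      · simp only [Option.some.injEq] at h
        subst h
        subst h1
        simp [cls, nc, src, tgt]

private theorem Per_acts_cls (u : List (Let k m)) :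
    ∀ x y : Th k m, acts u x = some y → cls y = ncs (cls x) u := by
  induction u with
  | nil =>
    intro x y h
    simp only [acts, Option.some.injEq] at h
    subst h
    rfl
  | cons a u ih =>
    intro x y h
    simp only [acts] at h
    cases h1 : act a x with
    | none => rw [h1] at h; exact absurd h (by simp)
    | some z =>
      rw [h1] at h
      have h2 := ih z y h
      rw [h2, Per_act_cls a x z h1]
      rfl

private theorem Per_Lg_cns (c : Cl m) (a : Let k m) (w : ℕ → Let k m) :
    Per_cns a w ∈ (Lg c : Set (ℕ → Let k m)) ↔ w ∈ (Lg (nc c a) : Set (ℕ → Let k m)) := by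
  constructor
  · intro h n x hx
    obtain ⟨j, hj⟩ := h (n + 1) x (by rw [Per_seg_cns0]; exact hx)
    rw [Per_seg_cns] at hj
    exact ⟨j, hj⟩
  · intro h n x hx
    cases n with
    | zero =>
      rw [Per_seg_zero] at hx
      have hx' : cls x = c := hx
      cases h1 : act a x with
      | none =>
        refine ⟨1, ?_⟩
        rw [Per_seg_one]
        change (act a x).bind (acts []) = none
        rw [h1]
        rfl
      | some y =>
        obtain ⟨j, hj⟩ := h 0 y (by rw [Per_seg_zero, Per_act_cls a x y h1, hx']; rfl)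
        refine ⟨j + 1, ?_⟩
        rw [Per_seg_cns0]
        change (act a x).bind (acts (seg w 0 j)) = none
        rw [h1]
        exact hj
    | succ n =>
      rw [Per_seg_cns0] at hx
      obtain ⟨j, hj⟩ := h n x hx
      refine ⟨j, ?_⟩
      rw [Per_seg_cns]
      exact hj

/-! ### Acceptance -/

/-- acceptance from the state `q` -/
private def Per_Acc {Q A : Type} (δ : Q → A → Q) (pr : Q → A → ℕ) (q : Q) (w : ℕ → A) : Prop :=
  ParityAcc (fun i => pr (drun δ q (seg w 0 i)) (w i))

private theorem Per_freq_shift (p : ℕ → ℕ) (n : ℕ) :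
    (∃ᶠ i in atTop, p (i + 1) = n) ↔ ∃ᶠ i in atTop, p i = n := by
  have h := Filter.map_add_atTop_eq_nat 1
  conv_rhs => rw [← h]
  rw [Filter.frequently_map]

private theorem Per_ParityAcc_shift (p : ℕ → ℕ) :
    ParityAcc (fun i => p (i + 1)) ↔ ParityAcc p := by
  unfold ParityAcc
  simp only [Per_freq_shift]

private theorem Per_Acc_cns {Q A : Type} (δ : Q → A → Q) (pr : Q → A → ℕ) (q : Q) (a : A) (w : ℕ → A) :
    Per_Acc δ pr q (Per_cns a w) ↔ Per_Acc δ pr (δ q a) w := by
  unfold Per_Acc
  rw [← Per_ParityAcc_shift]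
  have : (fun i => pr (drun δ q (seg (Per_cns a w) 0 (i + 1))) (Per_cns a w (i + 1))) =
      fun i => pr (drun δ (δ q a) (seg w 0 i)) (w i) := by
    funext i
    rw [Per_seg_cns0]
    rfl
  rw [this]

private theorem Per_Lg_Acc {Q : Type} (δ : Q → Let k m → Q) (pr : Q → Let k m → ℕ) (u : List (Let k m)) :
    ∀ (c : Cl m) (q : Q), (∀ w : ℕ → Let k m, w ∈ (Lg c : Set (ℕ → Let k m)) ↔ Per_Acc δ pr q w) →
      ∀ w : ℕ → Let k m, w ∈ (Lg (ncs c u) : Set (ℕ → Let k m)) ↔ Per_Acc δ pr (drun δ q u) w := by
  induction u with
  | nil => intro c q h w; exact h w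
  | cons a u ih =>
    intro c q h
    refine ih (nc c a) (δ q a) ?_
    intro w
    rw [← Per_Lg_cns, ← Per_Acc_cns]
    exact h _

/-! ### The languages of the classes are different -/

private theorem Per_ncs_const (c : Cl m) (a : Let k m) (h : nc c a = c) (j : ℕ) (n : ℕ) :
    ncs c (seg (fun _ => a) n j) = c := by
  induction j with
  | zero => rw [Per_seg_zero]; rfl
  | succ j ih =>
    rw [Per_seg_succ, Per_ncs_append, ih]
    exact h

private theorem Per_acts_const (x : Th k m) (a : Let k m) (h : act a x = some x) (j : ℕ) (n : ℕ) :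
    acts (seg (fun _ => a) n j) x = some x := by
  induction j with
  | zero => rw [Per_seg_zero]; rfl
  | succ j ih =>
    rw [Per_seg_succ, Per_acts_append, ih]
    change (act a x).bind (acts []) = some x
    rw [h]
    rfl

private theorem Per_const_not (c : Cl m) (x : Th k m) (hx : cls x = c) (a : Let k m)
    (h : act a x = some x) : (fun _ => a) ∉ (Lg c : Set (ℕ → Let k m)) := by
  intro hw
  obtain ⟨j, hj⟩ := hw 0 x (by rw [Per_seg_zero]; exact hx)
  rw [Per_acts_const x a h] at hj
  exact absurd hj (by simp)

private theorem Per_const_mem (c : Cl m) (a : Let k m) (h : nc c a = c)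
    (hk : ∀ x : Th k m, cls x = c → act a x = none) : (fun _ => a) ∈ (Lg c : Set (ℕ → Let k m)) := by
  intro n x hx
  rw [Per_ncs_const c a h] at hx
  refine ⟨1, ?_⟩
  rw [Per_seg_one]
  change (act a x).bind (acts []) = none
  rw [hk x hx]
  rfl

private theorem Per_Lg_inj (hk : 0 < k) (c c' : Cl m)
    (h : ∀ w : ℕ → Let k m, w ∈ (Lg c : Set (ℕ → Let k m)) ↔ w ∈ (Lg c' : Set (ℕ → Let k m))) :
    c = c' := by
  have key1 : ∀ i : Fin m, (fun _ => Let.perm 1 : ℕ → Let k m) ∈ (Lg (some i) : Set (ℕ → Let k m)) := by
    intro i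
    apply Per_const_mem
    · simp [nc, src]
    · intro x hx
      rcases x with z | ⟨j, z⟩
      · exact absurd hx (by simp [cls])
      · rfl
  have key2 : (fun _ => Let.perm 1 : ℕ → Let k m) ∉ (Lg none : Set (ℕ → Let k m)) := by
    apply Per_const_not none (.inl ⟨0, hk⟩) rfl
    rfl
  have key3 : ∀ i : Fin m, (fun _ => Let.zz i 0 : ℕ → Let k m) ∉ (Lg (some i) : Set (ℕ → Let k m)) := by
    intro i
    apply Per_const_not (some i) (.inr (i, 0)) rfl
    simp [act]
  have key4 : ∀ i j : Fin m, i ≠ j → (fun _ => Let.zz i 0 : ℕ → Let k m) ∈ (Lg (some j) : Set (ℕ → Let k m)) := by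
    intro i j hij
    apply Per_const_mem
    · simp [nc, src, hij]
    · intro x hx
      rcases x with z | ⟨j', z⟩
      · exact absurd hx (by simp [cls])
      · have : j' = j := by simpa [cls] using hx
        subst this
        have hij' : ¬ (j' = i ∧ z = 0) := fun hh => hij hh.1.symm
        simp only [act, if_neg hij']
  cases c with
  | none =>
    cases c' with
    | none => rfl
    | some i => exact absurd ((h _).2 (key1 i)) key2
  | some i =>
    cases c' with
    | none => exact absurd ((h _).1 (key1 i)) key2
    | some j =>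
      by_contra hne
      have hij : i ≠ j := fun hh => hne (by rw [hh])
      exact key3 i ((h _).2 (key4 i j hij))

/-! ### Periodic words -/

/-- the periodic word -/
private def Per_pw {A : Type} (u : List A) (hu : u ≠ []) (i : ℕ) : A :=
  u[i % u.length]'(Nat.mod_lt _ (List.length_pos_of_ne_nil hu))

private theorem Per_pw_add {A : Type} (u : List A) (hu : u ≠ []) (t i : ℕ) :
    Per_pw u hu (t * u.length + i) = Per_pw u hu i := by
  unfold Per_pw
  congr 1
  rw [Nat.add_comm, Nat.mul_comm, Nat.add_mul_mod_self_left]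

private theorem Per_seg_pw {A : Type} (u : List A) (hu : u ≠ []) (t n j : ℕ) :
    seg (Per_pw u hu) (t * u.length + n) j = seg (Per_pw u hu) n j := by
  unfold seg
  apply List.map_congr_left
  intro i _
  rw [Nat.add_assoc, Per_pw_add]

private theorem Per_seg_pw_self {A : Type} (u : List A) (hu : u ≠ []) :
    seg (Per_pw u hu) 0 u.length = u := by
  apply List.ext_getElem
  · rw [Per_seg_len]
  · intro i h1 h2
    simp only [seg, List.getElem_map, List.getElem_range, Nat.zero_add, Per_pw, Nat.mod_eq_of_lt h2]

private theorem Per_seg_pw_mul_succ {A : Type} (u : List A) (hu : u ≠ []) (t : ℕ) :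
    seg (Per_pw u hu) 0 ((t + 1) * u.length) = seg (Per_pw u hu) 0 (t * u.length) ++ u := by
  rw [Nat.add_mul, Nat.one_mul, Per_seg_add, Nat.zero_add]
  have h := Per_seg_pw u hu t 0 u.length
  rw [Nat.add_zero] at h
  rw [h, Per_seg_pw_self]

private theorem Per_drun_pw {Q A : Type} (δ : Q → A → Q) (q : Q) (u : List A) (hu : u ≠ [])
    (h : drun δ q u = q) (t : ℕ) : drun δ q (seg (Per_pw u hu) 0 (t * u.length)) = q := by
  induction t with
  | zero => rw [Nat.zero_mul, Per_seg_zero]; rfl
  | succ t ih => rw [Per_seg_pw_mul_succ, Per_drun_append, ih, h]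

private theorem Per_ncs_pw (c : Cl m) (u : List (Let k m)) (hu : u ≠ [])
    (h : ncs c u = c) (t : ℕ) : ncs c (seg (Per_pw u hu) 0 (t * u.length)) = c := by
  induction t with
  | zero => rw [Nat.zero_mul, Per_seg_zero]; rfl
  | succ t ih => rw [Per_seg_pw_mul_succ, Per_ncs_append, ih, h]

private theorem Per_acts_pw (x : Th k m) (u : List (Let k m)) (hu : u ≠ [])
    (h : acts u x = some x) (t : ℕ) : acts (seg (Per_pw u hu) 0 (t * u.length)) x = some x := by
  induction t with
  | zero => rw [Nat.zero_mul, Per_seg_zero]; rfl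
  | succ t ih => rw [Per_seg_pw_mul_succ, Per_acts_append, ih]; exact h

private theorem Per_wpr_seg {Q A : Type} (δ : Q → A → Q) (pr : Q → A → ℕ) (q : Q) (w : ℕ → A) (j : ℕ) :
    wpr δ pr q (seg w 0 j) = (List.range j).map (fun i => pr (drun δ q (seg w 0 i)) (w i)) := by
  induction j with
  | zero => rw [Per_seg_zero]; rfl
  | succ j ih =>
    rw [Per_seg_succ, Per_wpr_append, ih, List.range_succ, List.map_append]
    congr 1
    rw [Nat.zero_add]
    rfl

private theorem Per_mem_wpr {Q A : Type} (δ : Q → A → Q) (pr : Q → A → ℕ) (q : Q) (u : List A) (hu : u ≠ [])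
    (n : ℕ) : n ∈ wpr δ pr q u ↔
      ∃ i < u.length, pr (drun δ q (seg (Per_pw u hu) 0 i)) (Per_pw u hu i) = n := by
  conv_lhs => rw [← Per_seg_pw_self u hu]
  rw [Per_wpr_seg]
  simp only [List.mem_map, List.mem_range]

private theorem Per_pr_pw {Q A : Type} (δ : Q → A → Q) (pr : Q → A → ℕ) (q : Q) (u : List A) (hu : u ≠ [])
    (h : drun δ q u = q) (t i : ℕ) :
    pr (drun δ q (seg (Per_pw u hu) 0 (t * u.length + i))) (Per_pw u hu (t * u.length + i)) =
      pr (drun δ q (seg (Per_pw u hu) 0 i)) (Per_pw u hu i) := by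
  rw [Per_seg_add, Per_drun_append, Per_drun_pw δ q u hu h, Per_pw_add, Nat.zero_add]
  have h2 := Per_seg_pw u hu t 0 i
  rw [Nat.add_zero] at h2
  rw [h2]

private theorem Per_freq {Q A : Type} (δ : Q → A → Q) (pr : Q → A → ℕ) (q : Q) (u : List A) (hu : u ≠ [])
    (h : drun δ q u = q) (n : ℕ) :
    (∃ᶠ i in atTop, pr (drun δ q (seg (Per_pw u hu) 0 i)) (Per_pw u hu i) = n) ↔
      n ∈ wpr δ pr q u := by
  rw [Per_mem_wpr δ pr q u hu]
  have hpos := List.length_pos_of_ne_nil hu
  constructor
  · intro hf
    obtain ⟨i, hi⟩ := hf.exists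
    refine ⟨i % u.length, Nat.mod_lt _ hpos, ?_⟩
    rw [← hi]
    have h3 := Per_pr_pw δ pr q u hu h (i / u.length) (i % u.length)
    rw [Nat.div_add_mod'] at h3
    exact h3.symm
  · rintro ⟨i, _, hi⟩
    rw [Filter.frequently_atTop]
    intro a
    refine ⟨a * u.length + i, ?_, ?_⟩
    · have : a * 1 ≤ a * u.length := Nat.mul_le_mul_left a hpos
      omega
    · rw [Per_pr_pw δ pr q u hu h]
      exact hi

private theorem Per_OddW_iff {Q A : Type} (δ : Q → A → Q) (pr : Q → A → ℕ) (q : Q) (u : List A) (hu : u ≠ [])
    (h : drun δ q u = q) : OddW δ pr q u ↔ ¬ Per_Acc δ pr q (Per_pw u hu) := by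
  unfold OddW Per_Acc ParityAcc
  simp only [Per_freq δ pr q u hu h]
  constructor
  · rintro ⟨n, hn, hodd, hmin⟩ ⟨n', heven, hn', hlt⟩
    have h1 : n ≤ n' := hmin n' hn'
    have h2 : ¬ n < n' := fun hh => hlt n hh hn
    have h3 : n = n' := by omega
    subst h3
    exact (Nat.not_even_iff_odd.2 hodd) heven
  · intro hna
    have hne : ∃ n, n ∈ wpr δ pr q u := by
      refine ⟨pr (drun δ q (seg (Per_pw u hu) 0 0)) (Per_pw u hu 0), ?_⟩
      rw [Per_mem_wpr δ pr q u hu]
      exact ⟨0, List.length_pos_of_ne_nil hu, rfl⟩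
    classical
    refine ⟨Nat.find hne, Nat.find_spec hne, ?_, fun n' hn' => Nat.find_min' hne hn'⟩
    by_contra hno
    apply hna
    exact ⟨Nat.find hne, Nat.not_odd_iff_even.1 hno, Nat.find_spec hne,
      fun n' hn' => Nat.find_min hne hn'⟩

private theorem Per_pw_not (c : Cl m) (u : List (Let k m)) (hu : u ≠ []) (x : Th k m) (hx : cls x = c)
    (h : acts u x = some x) : Per_pw u hu ∉ (Lg c : Set (ℕ → Let k m)) := by
  intro hw
  obtain ⟨j, hj⟩ := hw 0 x (by rw [Per_seg_zero]; exact hx)
  have hpos := List.length_pos_of_ne_nil hu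
  have h1 : j ≤ j * u.length := by
    have : j * 1 ≤ j * u.length := Nat.mul_le_mul_left j hpos
    omega
  obtain ⟨l, hl⟩ := Nat.exists_eq_add_of_le h1
  have h2 := Per_acts_pw x u hu h j
  rw [hl, Per_seg_add, Per_acts_append, hj] at h2
  exact absurd h2 (by simp)

private theorem Per_pw_mem (c : Cl m) (u : List (Let k m)) (hu : u ≠ []) (hc : ncs c u = c)
    (h : ∀ x : Th k m, cls x = c → acts u x = none) : Per_pw u hu ∈ (Lg c : Set (ℕ → Let k m)) := by
  intro n x hx
  have hpos := List.length_pos_of_ne_nil hu
  have h1 : n ≤ n * u.length := by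
    have : n * 1 ≤ n * u.length := Nat.mul_le_mul_left n hpos
    omega
  obtain ⟨l, hl⟩ := Nat.exists_eq_add_of_le h1
  refine ⟨l + u.length, ?_⟩
  rw [Per_seg_add, Per_acts_append]
  cases h2 : acts (seg (Per_pw u hu) n l) x with
  | none => rfl
  | some y =>
    have h3 : cls y = c := by
      rw [Per_acts_cls _ x y h2, hx]
      have h4 := Per_ncs_pw c u hu hc n
      rw [hl, Per_seg_add, Per_ncs_append, Nat.zero_add] at h4
      exact h4
    have h5 : seg (Per_pw u hu) (n + l) u.length = u := by
      rw [← hl]
      have h6 := Per_seg_pw u hu n 0 u.length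
      rw [Nat.add_zero] at h6
      rw [h6, Per_seg_pw_self]
    change acts (seg (Per_pw u hu) (n + l) u.length) y = none
    rw [h5]
    exact h y h3

/-! ### The model -/

theorem dm_of_det (hk : 0 < k) {Q : Type} [Fintype Q] (q0 : Q) (δ : Q → Let k m → Q) (pr : Q → Let k m → ℕ)
    (h : ∀ w : ℕ → Let k m, w ∈ (Lg none : Set (ℕ → Let k m)) ↔ ParityAcc (fun i => pr (drun δ q0 (seg w 0 i)) (w i))) :
    ∃ D : DM k m, D.size ≤ Fintype.card Q := by
  classical
  have hL : ∀ (u : List (Let k m)) (w : ℕ → Let k m),
      w ∈ (Lg (ncs none u) : Set (ℕ → Let k m)) ↔ Per_Acc δ pr (drun δ q0 u) w :=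
    fun u => Per_Lg_Acc δ pr u none q0 h
  have hwd : ∀ u u' : List (Let k m), drun δ q0 u = drun δ q0 u' → ncs (none : Cl m) u = ncs none u' := by
    intro u u' huu
    apply Per_Lg_inj hk
    intro w
    rw [hL u w, hL u' w, huu]
  -- the reachable states
  let R : Type := {q : Q // ∃ u, drun δ q0 u = q}
  let dR : R → Let k m → R := fun q a => ⟨δ q.1 a, q.2.choose ++ [a], by
    rw [Per_drun_append, q.2.choose_spec]; rfl⟩
  let pR : R → Let k m → ℕ := fun q a => pr q.1 a
  let cR : R → Cl m := fun q => ncs none q.2.choose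
  have hcR : ∀ (q : R) (u : List (Let k m)), drun δ q0 u = q.1 → cR q = ncs none u := by
    intro q u hu
    exact hwd _ _ (by rw [q.2.choose_spec, hu])
  have hrun : ∀ (u : List (Let k m)) (q : R), (drun dR q u).1 = drun δ q.1 u := by
    intro u
    induction u with
    | nil => intro q; rfl
    | cons a u ih => intro q; exact ih (dR q a)
  have hwpr : ∀ (u : List (Let k m)) (q : R), wpr dR pR q u = wpr δ pr q.1 u := by
    intro u
    induction u with
    | nil => intro q; rfl
    | cons a u ih =>
      intro q
      simp only [wpr]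
      rw [ih]
  have hodd : ∀ (u : List (Let k m)) (q : R), OddW dR pR q u ↔ OddW δ pr q.1 u := by
    intro u q
    unfold OddW
    rw [hwpr]
  have hLR : ∀ (q : R) (w : ℕ → Let k m), w ∈ (Lg (cR q) : Set (ℕ → Let k m)) ↔ Per_Acc δ pr q.1 w := by
    intro q w
    have h1 := hL q.2.choose w
    rw [q.2.choose_spec] at h1
    exact h1
  have hclR : ∀ (q : R) (a : Let k m), cR (dR q a) = nc (cR q) a := by
    intro q a
    rw [hcR (dR q a) (q.2.choose ++ [a]) (by rw [Per_drun_append, q.2.choose_spec]; rfl), Per_ncs_append]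
    rfl
  have hclRs : ∀ (u : List (Let k m)) (q : R), cR (drun dR q u) = ncs (cR q) u := by
    intro u
    induction u with
    | nil => intro q; rfl
    | cons a u ih =>
      intro q
      have h1 := ih (dR q a)
      rw [hclR] at h1
      exact h1
  refine ⟨{ Q := R, fin := inferInstance, q0 := ⟨q0, [], rfl⟩, δ := dR, pr := pR, cl := cR,
            cl0 := ?_, hcl := hclR, oddfix := ?_, kill := ?_ }, ?_⟩
  · exact hcR ⟨q0, [], rfl⟩ [] rfl
  · intro q u x hu hq hx hfix
    have hq' : drun δ q.1 u = q.1 := by rw [← hrun, hq]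
    rw [hodd, Per_OddW_iff δ pr q.1 u hu hq', ← hLR]
    exact Per_pw_not (cR q) u hu x hx hfix
  · intro q u hq hkill hO
    have hu : u ≠ [] := by
      rintro rfl
      obtain ⟨n, hn, _⟩ := hO
      simp [wpr] at hn
    have hq' : drun δ q.1 u = q.1 := by rw [← hrun, hq]
    rw [hodd, Per_OddW_iff δ pr q.1 u hu hq', ← hLR] at hO
    apply hO
    refine Per_pw_mem (cR q) u hu ?_ hkill
    rw [← hclRs, hq]
  · change @Fintype.card R _ ≤ Fintype.card Q
    exact Fintype.card_subtype_le _

end Pool.Agent.MAR
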