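import Pool.Agent.Lib_MP_cddbc9.Blocks

/-!
# Safe threads of odd end components (piece SF), sections (M3), (S2) of the paper proof

`Lg_inj`: the languages of different classes are different: for `c = none` and `some i`: the constant word `perm 1` (in class 0 the thread `0` survives, needs `0 < k`;
in class `i` all threads die at once); for `some i`, `some j`, `i ≠ j`: the constant word `zz i 0`.

`class_wd` (M3): let `q` be reachable by `u` and `u'`, classes `c`, `c'`.  For `w ∈ Lg c` (as a word from position `|u|` on) the word `u w` is in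
`Lg none` (threads before time `|u|`: they are dead or alive at time `|u|`, then they die later).  `play_fixed` gives a run through `q` which is accepting.
Then path of `u'` + rest of the run is an accepting run of `B` on `u' w` (least priority infinitely often: tail), so `u' w ∈ Lg none`, so `w ∈ Lg c'`.
By symmetry `Lg c = Lg c'`, so `c = c'`.

`safe_thread` (S2): suppose every thread `x` of class `c = ncs none u` is killed by the word of some path in `E` from `q`.
(1) The same holds for every state `p` of `E` with its class (`c_p`, well defined by `class_wd`, `p` is reachable through `E` from `q`): a thread `x` of class `c_p` which survives all `E`-paths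
 from `p`; take an `E`-path from `p` to `q`: `x ↦ x'` of class `c`, `x'` survives all `E`-paths from `q`: contradiction.
(2) So for every state `p` of `E` there is an `E`-path from `p` which kills all threads of class `c_p` (induction over the finitely many threads: append an `E`-path which kills
 the image of the next thread), and then (strong connectivity) runs through the edge of least (odd) priority of `E`.  Extend (the closure property of ECs) all these
 paths to the same length `l`.
(3) `play_blocks`: `w ∈ Lg none` as every thread alive at a time `n` is alive or dead at the start of the next completed block and is dead at its end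
 (the class at time `n` is the class of the state: `class_wd`); but the priorities from time `|u|` on are `≥` the least priority of `E`, which is odd and occurs
 infinitely often: not `ParityAcc`.  Contradiction.
-/

set_option autoImplicit false

open Filter

namespace Pool.Agent.MAR

variable {k m : ℕ}

private theorem Safe_acts_append (u v : List (Let k m)) (x : Th k m) :
    acts (u ++ v) x = (acts u x).bind (acts v) := by
  induction u generalizing x with
  | nil => rfl
  | cons a u ih =>
    simp only [List.cons_append, acts]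
    cases act a x with
    | none => rfl
    | some y => simpa using ih y

private theorem Safe_ncs_append (u v : List (Let k m)) (c : Cl m) : ncs c (u ++ v) = ncs (ncs c u) v := by
  induction u generalizing c with
  | nil => rfl
  | cons a u ih => simp only [List.cons_append, ncs, ih]

private theorem Safe_cls_act {a : Let k m} {x y : Th k m} (h : act a x = some y) :
    src a = cls x ∧ cls y = tgt a := by
  rcases x with z | ⟨j, z⟩ <;> cases a <;> simp only [act] at h <;> (try split_ifs at h) <;>
    simp_all [src, tgt, cls] <;> (try (subst h; rfl))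

private theorem Safe_cls_act2 {a : Let k m} {x y : Th k m} (h : act a x = some y) : cls y = nc (cls x) a := by
  obtain ⟨h1, h2⟩ := Safe_cls_act h
  unfold nc
  rw [if_pos h1, h2]

private theorem Safe_cls_acts (u : List (Let k m)) {x y : Th k m} (h : acts u x = some y) :
    cls y = ncs (cls x) u := by
  induction u generalizing x with
  | nil =>
    simp only [acts, Option.some.injEq] at h
    subst h
    rfl
  | cons a u ih =>
    simp only [acts] at h
    cases h1 : act a x with
    | none =>
      rw [h1] at h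
      simp at h
    | some z =>
      rw [h1] at h
      have h2 := ih (x := z) h
      rw [h2, Safe_cls_act2 h1]
      rfl

private theorem Safe_seg_add {A : Type} (w : ℕ → A) (n i j : ℕ) :
    seg w n (i + j) = seg w n i ++ seg w (n + i) j := by
  unfold seg
  rw [List.range_add, List.map_append, List.map_map]
  congr 1
  apply List.map_congr_left
  intro x _
  simp [Nat.add_assoc]

private theorem Safe_seg_congr {A : Type} {w w' : ℕ → A} {n n' j : ℕ} (h : ∀ i < j, w (n + i) = w' (n' + i)) :
    seg w n j = seg w' n' j := by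
  unfold seg
  apply List.map_congr_left
  intro i hi
  exact h i (List.mem_range.1 hi)

private def Safe_cat {A : Type} (u : List A) (w : ℕ → A) : ℕ → A :=
  fun n => if h : n < u.length then u[n] else w (n - u.length)

private theorem Safe_cat_ge {A : Type} (u : List A) (w : ℕ → A) (n : ℕ) :
    Safe_cat u w (u.length + n) = w n := by
  unfold Safe_cat
  rw [dif_neg (by omega)]
  congr 1
  omega

private theorem Safe_seg_cat {A : Type} (u : List A) (w : ℕ → A) : seg (Safe_cat u w) 0 u.length = u := by
  apply List.ext_getElem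
  · simp [seg]
  · intro i h1 h2
    simp [seg, Safe_cat, h2]

private theorem Safe_seg_cat_ge {A : Type} (u : List A) (w : ℕ → A) (n j : ℕ) :
    seg (Safe_cat u w) (u.length + n) j = seg w n j := by
  apply Safe_seg_congr
  intro i _
  rw [Nat.add_assoc, Safe_cat_ge]

private theorem Safe_Lg_cat (u : List (Let k m)) (w : ℕ → Let k m) (c : Cl m) :
    Safe_cat u w ∈ (Lg c : Set (ℕ → Let k m)) ↔ w ∈ (Lg (ncs c u) : Set (ℕ → Let k m)) := by
  constructor
  · intro h n x hx
    obtain ⟨j, hj⟩ := h (u.length + n) x (by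
      rw [hx, Safe_seg_add, zero_add, Safe_seg_cat, Safe_ncs_append]
      have h1 := Safe_seg_cat_ge u w 0 n
      rw [add_zero] at h1
      rw [h1])
    rw [Safe_seg_cat_ge] at hj
    exact ⟨j, hj⟩
  · intro h n x hx
    rcases le_or_gt u.length n with hn | hn
    · obtain ⟨d, rfl⟩ := Nat.exists_eq_add_of_le hn
      obtain ⟨j, hj⟩ := h d x (by
        rw [hx, Safe_seg_add, zero_add, Safe_seg_cat, Safe_ncs_append]
        have h1 := Safe_seg_cat_ge u w 0 d
        rw [add_zero] at h1
        rw [h1])
      exact ⟨j, by rw [Safe_seg_cat_ge]; exact hj⟩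
    · obtain ⟨d, hd⟩ := Nat.exists_eq_add_of_le hn.le
      cases hy : acts (seg (Safe_cat u w) n d) x with
      | none => exact ⟨d, hy⟩
      | some y =>
        have hcy : cls y = ncs c u := by
          rw [Safe_cls_acts _ hy, hx, ← Safe_ncs_append]
          have h1 := Safe_seg_add (Safe_cat u w) 0 n d
          rw [zero_add] at h1
          rw [← h1, ← hd, Safe_seg_cat]
        obtain ⟨j, hj⟩ := h 0 y (by rw [hcy]; rfl)
        refine ⟨d + j, ?_⟩
        rw [Safe_seg_add, Safe_acts_append, hy, ← hd]
        have h1 := Safe_seg_cat_ge u w 0 j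
        rw [add_zero] at h1
        rw [h1]
        exact hj

private theorem Safe_seg_const {A : Type} (a : A) (n j : ℕ) : seg (fun _ => a) n j = List.replicate j a := by
  unfold seg
  simp [List.map_const']

private theorem Safe_const1 (a : Let k m) (x : Th k m) (hax : act a x = some x) :
    (fun _ => a) ∉ (Lg (cls x) : Set (ℕ → Let k m)) := by
  intro h
  obtain ⟨j, hj⟩ := h 0 x rfl
  rw [Safe_seg_const] at hj
  have h1 : ∀ j : ℕ, acts (List.replicate j a) x = some x := by
    intro j
    induction j with
    | zero => rfl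
    | succ j ih =>
      rw [List.replicate_succ]
      simp only [acts]
      rw [hax]
      exact ih
  rw [h1] at hj
  simp at hj

private theorem Safe_const2 (a : Let k m) (c' : Cl m) (h : src a ≠ c') :
    (fun _ => a) ∈ (Lg c' : Set (ℕ → Let k m)) := by
  intro n x hx
  rw [Safe_seg_const] at hx
  have h1 : ∀ j : ℕ, ncs c' (List.replicate j a) = c' := by
    intro j
    induction j with
    | zero => rfl
    | succ j ih =>
      rw [List.replicate_succ]
      simp only [ncs]
      have h2 : nc c' a = c' := by
        unfold nc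
        rw [if_neg h]
      rw [h2]
      exact ih
  rw [h1] at hx
  refine ⟨1, ?_⟩
  rw [Safe_seg_const]
  simp only [List.replicate_succ, List.replicate_zero, acts]
  cases h2 : act a x with
  | none => rfl
  | some y =>
    exfalso
    exact h ((Safe_cls_act h2).1.trans hx)

private theorem Safe_fixer (hk : 0 < k) (c : Cl m) : ∃ (a : Let k m) (x : Th k m), src a = c ∧ cls x = c ∧ act a x = some x := by
  cases c with
  | none => exact ⟨.perm 1, .inl ⟨0, hk⟩, rfl, rfl, rfl⟩
  | some i => exact ⟨.zz i 0, .inr (i, 0), rfl, rfl, by simp [act]⟩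

theorem Lg_inj (hk : 0 < k) {c c' : Cl m} (h : (Lg c : Set (ℕ → Let k m)) = Lg c') : c = c' := by
  by_contra hne
  obtain ⟨a, x, h1, h2, h3⟩ := Safe_fixer (k := k) (m := m) hk c
  have h4 := Safe_const1 a x h3
  rw [h2, h] at h4
  exact h4 (Safe_const2 a c' (by rw [h1]; exact hne))

section paths
variable {V A : Type} {s : V → A → Set V} {E : Set (V × A)}

private theorem Safe_path_trans {p q r : V} {u v : List A} (h : PathIn s E p u q) (h' : PathIn s E q v r) :
    PathIn s E p (u ++ v) r := by
  induction h with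
  | nil => exact h'
  | cons h1 h2 _ ih => exact PathIn.cons h1 h2 (ih h')

private theorem Safe_path_univ {p q : V} {u : List A} (h : PathIn s E p u q) : PathIn s Set.univ p u q := by
  induction h with
  | nil => exact PathIn.nil _
  | cons h1 h2 _ ih => exact PathIn.cons (Set.mem_univ _) h2 ih

private theorem Safe_path_end (hcl : ∀ q a q', (q, a) ∈ E → q' ∈ s q a → ∃ a', (q', a') ∈ E) {p q : V} {u : List A}
    (h : PathIn s E p u q) (hp : ∃ a, (p, a) ∈ E) : ∃ a, (q, a) ∈ E := by
  induction h with
  | nil => exact hp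
  | cons h1 h2 _ ih => exact ih (hcl _ _ _ h1 h2)

private theorem Safe_path_run {w : ℕ → A} {ρ : ℕ → V} (h : ∀ i, ρ (i + 1) ∈ s (ρ i) (w i)) (n j : ℕ) :
    PathIn s Set.univ (ρ n) (seg w n j) (ρ (n + j)) := by
  induction j with
  | zero => exact PathIn.nil _
  | succ j ih =>
    rw [Safe_seg_add]
    refine Safe_path_trans ih ?_
    have h1 : seg w (n + j) 1 = [w (n + j)] := by simp [seg]
    rw [h1]
    exact PathIn.cons (Set.mem_univ _) (h (n + j)) (PathIn.nil _)

private theorem Safe_path_fn {q : V} {u : List A} {q' : V} (h : PathIn s E q u q') (g0 : ℕ → V) (b0 : ℕ → A)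
    (hg0 : g0 0 = q') : ∃ (g : ℕ → V) (b : ℕ → A), g 0 = q ∧ seg b 0 u.length = u ∧
      (∀ n, g (u.length + n) = g0 n ∧ b (u.length + n) = b0 n) ∧
      ∀ i < u.length, (g i, b i) ∈ E ∧ g (i + 1) ∈ s (g i) (b i) := by
  induction h with
  | nil q => exact ⟨g0, b0, hg0, rfl, fun n => by simp, fun i hi => by simp at hi⟩
  | @cons q q' q'' a u h1 h2 t ih =>
    obtain ⟨g, b, e1, e2, e3, e4⟩ := ih hg0
    refine ⟨fun n => Nat.casesOn n q g, fun n => Nat.casesOn n a b, rfl, ?_, ?_, ?_⟩
    · have h3 : seg (fun n => (Nat.casesOn n a b : A)) 0 (a :: u).length =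
          seg (fun n => (Nat.casesOn n a b : A)) 0 (1 + u.length) := by
        congr 1
        simp [Nat.add_comm]
      rw [h3, Safe_seg_add]
      have h4 : seg (fun n => (Nat.casesOn n a b : A)) (0 + 1) u.length = seg b 0 u.length := by
        apply Safe_seg_congr
        intro i _
        have h5 : 0 + 1 + i = i + 1 := by omega
        rw [h5, zero_add]
      rw [h4, e2]
      simp [seg]
    · intro n
      have h3 : (a :: u).length + n = (u.length + n) + 1 := by
        simp only [List.length_cons]
        omega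
      rw [h3]
      exact e3 n
    · intro i hi
      cases i with
      | zero => exact ⟨h1, by show g 0 ∈ s q a; rw [e1]; exact h2⟩
      | succ i => exact e4 i (by simp only [List.length_cons] at hi; omega)

end paths

private theorem Safe_parity_shift {p p' : ℕ → ℕ} (a b : ℕ) (h : ∀ n, p (a + n) = p' (b + n)) (hp : ParityAcc p) :
    ParityAcc p' := by
  have key : ∀ e, (∃ᶠ i in atTop, p i = e) ↔ ∃ᶠ i in atTop, p' i = e := by
    intro e
    rw [Filter.frequently_atTop, Filter.frequently_atTop]
    constructor
    · intro h1 N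
      obtain ⟨i, hi, hi2⟩ := h1 (a + N)
      obtain ⟨d, rfl⟩ := Nat.exists_eq_add_of_le (le_trans (Nat.le_add_right a N) hi)
      exact ⟨b + d, by omega, by rw [← h]; exact hi2⟩
    · intro h1 N
      obtain ⟨i, hi, hi2⟩ := h1 (b + N)
      obtain ⟨d, rfl⟩ := Nat.exists_eq_add_of_le (le_trans (Nat.le_add_right b N) hi)
      exact ⟨a + d, by omega, by rw [h]; exact hi2⟩
  obtain ⟨n, h1, h2, h3⟩ := hp
  exact ⟨n, h1, (key n).1 h2, fun n' hn' h4 => h3 n' hn' ((key n').2 h4)⟩

private theorem Safe_half (B : NPA (Let k m)) (r : B.Resolver) (hw : B.Wins r) (hL : B.lang = Lg none)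
    {u u' : List (Let k m)} {q : B.Q} (hu : r.Rch u q) (hu' : r.Rch u' q) (w : ℕ → Let k m)
    (h : w ∈ (Lg (ncs none u) : Set (ℕ → Let k m))) : w ∈ (Lg (ncs none u') : Set (ℕ → Let k m)) := by
  obtain ⟨ρ, h0, hs, hq, hacc⟩ := play_fixed B r hw u q hu (Safe_cat u w) (Safe_seg_cat u w)
  have hin : Safe_cat u w ∈ B.lang := by
    rw [hL]
    exact (Safe_Lg_cat u w none).2 h
  have hacc := hacc hin
  obtain ⟨g, b, e1, e2, e3, e4⟩ := Safe_path_fn hu' (fun n => ρ (u.length + n)) w (by simpa using hq)
  have hb : b = Safe_cat u' w := by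
    funext n
    rcases lt_or_ge n u'.length with hn | hn
    · have h1 : (seg b 0 u'.length)[n]? = u'[n]? := by rw [e2]
      rw [List.getElem?_eq_getElem (by simpa [seg] using hn), List.getElem?_eq_getElem hn] at h1
      simp only [seg, List.getElem_map, List.getElem_range, zero_add, Option.some.injEq] at h1
      rw [h1]
      unfold Safe_cat
      rw [dif_pos hn]
    · obtain ⟨d, rfl⟩ := Nat.exists_eq_add_of_le hn
      rw [Safe_cat_ge]
      exact (e3 d).2
  have hrun : B.Run (Safe_cat u' w) g := by
    refine ⟨e1, fun i => ?_⟩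
    rw [← hb]
    rcases lt_or_ge i u'.length with hn | hn
    · exact r.supp _ _ _ (e4 i hn).2
    · obtain ⟨d, rfl⟩ := Nat.exists_eq_add_of_le hn
      rw [Nat.add_assoc, (e3 d).1, (e3 (d + 1)).1, (e3 d).2]
      have h1 := r.supp _ _ _ (hs (u.length + d))
      rw [Safe_cat_ge] at h1
      exact h1
  have hpar : ParityAcc (B.prs (Safe_cat u' w) g) := by
    refine Safe_parity_shift u.length u'.length (fun n => ?_) hacc
    unfold NPA.prs
    rw [Safe_cat_ge, Safe_cat_ge, (e3 n).1, Nat.add_assoc, Nat.add_assoc, (e3 (n + 1)).1]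
  have h2 : Safe_cat u' w ∈ B.lang := ⟨g, hrun, hpar⟩
  rw [hL] at h2
  exact (Safe_Lg_cat u' w none).1 h2

theorem class_wd (hk : 0 < k) (B : NPA (Let k m)) (r : B.Resolver) (hw : B.Wins r) (hL : B.lang = Lg none)
    {u u' : List (Let k m)} {q : B.Q} (hu : r.Rch u q) (hu' : r.Rch u' q) : ncs none u = ncs none u' := by
  apply Lg_inj hk
  ext w
  exact ⟨Safe_half B r hw hL hu hu' w, Safe_half B r hw hL hu' hu w⟩

/-- infinite paths inside `E` -/
private theorem Safe_inf {V A : Type} {s : V → A → Set V} {E : Set (V × A)} (hne : ∀ q a, (s q a).Nonempty)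
    (hcl : ∀ q a q', (q, a) ∈ E → q' ∈ s q a → ∃ a', (q', a') ∈ E) (q : V) (hq : ∃ a, (q, a) ∈ E) :
    ∃ (g : ℕ → V) (b : ℕ → A), g 0 = q ∧ ∀ i, (g i, b i) ∈ E ∧ g (i + 1) ∈ s (g i) (b i) := by
  classical
  let T := {p : V // ∃ a, (p, a) ∈ E}
  let la : T → A := fun p => p.2.choose
  have hla : ∀ p : T, (p.1, la p) ∈ E := fun p => p.2.choose_spec
  let nx : T → T := fun p => ⟨(hne p.1 (la p)).choose, hcl p.1 (la p) _ (hla p) (hne p.1 (la p)).choose_spec⟩
  have hnx : ∀ p : T, (nx p).1 ∈ s p.1 (la p) := fun p => (hne p.1 (la p)).choose_spec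
  let G : ℕ → T := fun n => nx^[n] ⟨q, hq⟩
  refine ⟨fun n => (G n).1, fun n => la (G n), rfl, fun i => ⟨hla _, ?_⟩⟩
  show (nx^[i + 1] ⟨q, hq⟩ : T).1 ∈ _
  rw [Function.iterate_succ_apply']
  exact hnx _

theorem safe_thread (hk : 0 < k) (B : NPA (Let k m)) (r : B.Resolver) (hw : B.Wins r) (hL : B.lang = Lg none)
    (E : Set (B.Q × Let k m)) (hE : EC r.arena E) (hO : OddE r.arena B.pr E) (u : List (Let k m)) (q : B.Q)
    (hu : r.Rch u q) (hq : ∃ a, (q, a) ∈ E) :
    ∃ x : Th k m, cls x = ncs none u ∧ ∀ v q', PathIn r.arena E q v q' → acts v x ≠ none := by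
  classical
  by_contra hcon
  push Not at hcon
  have hne : ∀ (p : B.Q) (a : Let k m), (r.arena p a).Nonempty := fun p a => PMF.support_nonempty _
  -- (1)
  have h1 : ∀ (p : B.Q) (u' : List (Let k m)), (∃ a, (p, a) ∈ E) → r.Rch u' p → ∀ x : Th k m, cls x = ncs none u' →
      ∃ v p', PathIn r.arena E p v p' ∧ acts v x = none := by
    intro p u' hp hu' x hx
    obtain ⟨a, ha⟩ := hp
    obtain ⟨b, hb⟩ := hq
    obtain ⟨v, hv⟩ := hE.conn p a q b ha hb
    cases hy : acts v x with
    | none => exact ⟨v, q, hv, hy⟩
    | some y =>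
      have h2 : r.Rch (u' ++ v) q := Safe_path_trans hu' (Safe_path_univ hv)
      have h3 : cls y = ncs none u := by
        rw [Safe_cls_acts _ hy, hx, ← Safe_ncs_append]
        exact class_wd hk B r hw hL h2 hu
      obtain ⟨v', q', hv', hk'⟩ := hcon y h3
      exact ⟨v ++ v', q', Safe_path_trans hv hv', by rw [Safe_acts_append, hy]; exact hk'⟩
  -- (2)
  have h2 : ∀ (p : B.Q) (u' : List (Let k m)), (∃ a, (p, a) ∈ E) → r.Rch u' p → ∀ T : Finset (Th k m),
      (∀ x ∈ T, cls x = ncs none u') → ∃ v p', PathIn r.arena E p v p' ∧ ∀ x ∈ T, acts v x = none := by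
    intro p u' hp hu' T
    induction T using Finset.induction_on with
    | empty => exact fun _ => ⟨[], p, PathIn.nil _, fun x hx => by simp at hx⟩
    | insert x T hxT ih =>
      intro hT
      obtain ⟨v, p', hv, hv2⟩ := ih (fun y hy => hT y (Finset.mem_insert_of_mem hy))
      cases hy : acts v x with
      | none =>
        refine ⟨v, p', hv, fun z hz => ?_⟩
        rcases Finset.mem_insert.1 hz with rfl | hz
        · exact hy
        · exact hv2 z hz
      | some y =>
        have h3 : r.Rch (u' ++ v) p' := Safe_path_trans hu' (Safe_path_univ hv)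
        have h4 : cls y = ncs none (u' ++ v) := by
          rw [Safe_cls_acts _ hy, hT x (Finset.mem_insert_self _ _), ← Safe_ncs_append]
        obtain ⟨v', p'', hv', hk'⟩ := h1 p' (u' ++ v) (Safe_path_end hE.cl hv hp) h3 y h4
        refine ⟨v ++ v', p'', Safe_path_trans hv hv', fun z hz => ?_⟩
        rw [Safe_acts_append]
        rcases Finset.mem_insert.1 hz with rfl | hz
        · rw [hy]
          exact hk'
        · rw [hv2 z hz]
          rfl
  obtain ⟨qm, am, qm', hm1, hm2, hm3, hm4⟩ := hO
  -- infinite paths which kill the class of the state and run through the least edge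
  have h3 : ∀ p : B.Q, ∃ (L : ℕ) (g : ℕ → B.Q) (b : ℕ → Let k m), g 0 = p ∧ ((∃ a, (p, a) ∈ E) →
      (∀ i, (g i, b i) ∈ E ∧ g (i + 1) ∈ r.arena (g i) (b i)) ∧
      (∀ u', r.Rch u' p → ∀ x : Th k m, cls x = ncs none u' → acts (seg b 0 L) x = none) ∧
      ∃ i < L, g i = qm ∧ b i = am ∧ g (i + 1) = qm') := by
    intro p
    by_cases hp : ∃ a, (p, a) ∈ E
    swap
    · obtain ⟨a0, _⟩ := hq
      exact ⟨0, fun _ => p, fun _ => a0, rfl, fun h => absurd h hp⟩
    obtain ⟨a, ha⟩ := hp
    obtain ⟨b, hb⟩ := hq
    obtain ⟨v0, hv0⟩ := hE.conn q b p a hb ha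
    have hr0 : r.Rch (u ++ v0) p := Safe_path_trans hu (Safe_path_univ hv0)
    obtain ⟨v, p', hv, hv2⟩ := h2 p (u ++ v0) ⟨a, ha⟩ hr0 (Finset.univ.filter fun x => cls x = ncs none (u ++ v0))
      (fun x hx => (Finset.mem_filter.1 hx).2)
    obtain ⟨a', ha'⟩ := Safe_path_end hE.cl hv ⟨a, ha⟩
    obtain ⟨v', hv'⟩ := hE.conn p' a' qm am ha' hm1
    obtain ⟨g1, b1, hg1, hi1⟩ := Safe_inf hne hE.cl qm' (hE.cl qm am qm' hm1 hm2)
    have hpath : PathIn r.arena E p (v ++ v') qm := Safe_path_trans hv hv'
    obtain ⟨g, b2, e1, e2, e3, e4⟩ := Safe_path_fn hpath (fun n => (Nat.casesOn n qm g1 : B.Q))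
      (fun n => (Nat.casesOn n am b1 : Let k m)) rfl
    refine ⟨(v ++ v').length + 1, g, b2, e1, fun _ => ⟨?_, ?_, ?_⟩⟩
    · intro i
      rcases lt_or_ge i (v ++ v').length with hn | hn
      · exact e4 i hn
      · obtain ⟨d, rfl⟩ := Nat.exists_eq_add_of_le hn
        rw [Nat.add_assoc, (e3 d).1, (e3 d).2, (e3 (d + 1)).1]
        cases d with
        | zero => exact ⟨hm1, by show g1 0 ∈ _; rw [hg1]; exact hm2⟩
        | succ d => exact hi1 d
    · intro u' hu' x hx
      rw [Safe_seg_add, e2, Safe_acts_append, Safe_acts_append]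
      have h4 : acts v x = none := by
        apply hv2
        rw [Finset.mem_filter]
        refine ⟨Finset.mem_univ _, ?_⟩
        rw [hx]
        exact class_wd hk B r hw hL hu' hr0
      rw [h4]
      rfl
    · refine ⟨(v ++ v').length, Nat.lt_succ_self _, ?_, ?_, ?_⟩
      · have h4 := (e3 0).1
        rw [add_zero] at h4
        exact h4
      · have h4 := (e3 0).2
        rw [add_zero] at h4
        exact h4
      · rw [(e3 1).1]
        exact hg1
  choose L g b hg0 hgb using h3
  let _ := B.fin
  obtain ⟨l, hl0, hl⟩ : ∃ l : ℕ, 0 < l ∧ ∀ p, L p ≤ l :=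
    ⟨(Finset.univ.sup L) + 1, Nat.succ_pos _, fun p => (Finset.le_sup (Finset.mem_univ p)).trans (Nat.le_succ _)⟩
  obtain ⟨w, ρ, p1, p2, p3, p4, p5, p6, p7⟩ := play_blocks B r hw inferInstance u q hu E hE.cl hq l hl0 g b hg0
    (fun p hp i _ => (hgb p hp).1 i)
  have hin : w ∈ (Lg none : Set (ℕ → Let k m)) := by
    intro n x hx
    obtain ⟨n', hn1, hn2, hn3⟩ := p7 n
    obtain ⟨d, rfl⟩ := Nat.exists_eq_add_of_le hn1
    cases hy : acts (seg w n d) x with
    | none => exact ⟨d, hy⟩
    | some y =>
      have hr : r.Rch (seg w 0 (n + d)) (ρ (n + d)) := by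
        have h4 := Safe_path_run p2 0 (n + d)
        rw [p1, zero_add] at h4
        exact h4
      have hc : cls y = ncs none (seg w 0 (n + d)) := by
        rw [Safe_cls_acts _ hy, hx, ← Safe_ncs_append, Safe_seg_add, zero_add]
      have h4 := (hgb (ρ (n + d)) ⟨_, p6 _ hn2⟩).2.1 _ hr y hc
      have h5 : seg w (n + d) l = seg (b (ρ (n + d))) 0 l := by
        apply Safe_seg_congr
        intro i hi
        rw [zero_add]
        exact (hn3 i hi).1
      refine ⟨d + l, ?_⟩
      rw [Safe_seg_add, Safe_acts_append, hy, h5]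
      obtain ⟨e, he⟩ := Nat.exists_eq_add_of_le (hl (ρ (n + d)))
      show acts _ y = none
      rw [he, Safe_seg_add, Safe_acts_append, h4]
      rfl
  have hacc := p5 (by rw [hL]; exact hin)
  obtain ⟨e, he1, he2, he3⟩ := hacc
  have hge : ∀ n, u.length ≤ n → B.pr qm am qm' ≤ B.prs w ρ n := by
    intro n hn
    exact hm4 _ _ _ (p6 n hn) (p2 n)
  have hfr : ∃ᶠ i in atTop, B.prs w ρ i = B.pr qm am qm' := by
    rw [Filter.frequently_atTop]
    intro N
    obtain ⟨n, hn1, hn2, hn3⟩ := p7 N
    obtain ⟨i, hi, f1, f2, f3⟩ := (hgb (ρ n) ⟨_, p6 n hn2⟩).2.2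
    have hil : i < l := lt_of_lt_of_le hi (hl _)
    refine ⟨n + i, by omega, ?_⟩
    have f4 : ρ (n + i) = g (ρ n) i := by
      cases i with
      | zero => rw [hg0]; rfl
      | succ i => exact (hn3 i (by omega)).2
    unfold NPA.prs
    rw [(hn3 i hil).1, (hn3 i hil).2, f4, f1, f2, f3]
  rcases lt_trichotomy e (B.pr qm am qm') with hlt | heq | hgt
  · rw [Filter.frequently_atTop] at he2
    obtain ⟨n, hn1, hn2⟩ := he2 u.length
    have := hge n hn1
    omega
  · rw [heq] at he1
    exact (Nat.not_even_iff_odd.2 hm3) he1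
  · exact he3 _ hgt hfr

end Pool.Agent.MAR
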