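import Pool.Agent.Lib_MP_cddbc9.Split
import Pool.Agent.Lib_MP_cddbc9.Safe

/-!
# From MA to a deterministic automaton (piece TA)

`not_lang_of_R` (R): let the run be in `R` from time `N` on.  Let `M` be the union of all odd ECs which contain the state `ρ N`; it is an odd EC (finite union, `ec_union`).
By induction `ρ n` is a state of `M` for `n ≥ N` and `(ρ n, w n) ∈ M` : `(ρ n, w n)` is in an odd EC `E'`, `E' ∪ M` is an odd EC (common state `ρ n`) containing the
state `ρ N`, so `E' ⊆ M`; then `ρ (n+1)` is a state of `M` by closedness.  `safe_thread` for `M`, `u = seg w 0 N`, `q = ρ N` gives a thread which survives for ever.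

`det_of_MA`: `τ` from `exists_tau` for `s = r.arena` (nonempty: support of a PMF).  Let `st` be the run of `τ` on `w`.
`w ∉ Lg none = B.lang`: `st` is a run of `B` on `w` (`r.supp`), so it is not accepting.  `w ∈ Lg none`: let `I` be the set of pairs which occur infinitely often among `(st i, w i)`
(nonempty, finite type; from some time on all pairs are in `I`).  `I` is an EC of `τ`.  If `OddE`, then `I ⊆ R`, contradiction to `not_lang_of_R`.
So the least priority on the edges of `I` (which is the least priority that occurs infinitely often) is even.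
-/

set_option autoImplicit false

open Filter

namespace Pool.Agent.MAR

variable {k m : ℕ}

private theorem Tau_seg {A : Type} (w : ℕ → A) (n j : ℕ) :
    seg w n (j + 1) = w n :: seg w (n + 1) j := by
  unfold seg
  rw [List.range_succ_eq_map, List.map_cons, List.map_map]
  refine congrArg₂ List.cons rfl (List.map_congr_left fun i _ => ?_)
  show w (n + (i + 1)) = w (n + 1 + i)
  congr 1
  omega

private theorem Tau_path {V A : Type} {s : V → A → Set V} {E : Set (V × A)} (w : ℕ → A)
    (ρ : ℕ → V) (j : ℕ) : ∀ n, (∀ i < j, (ρ (n + i), w (n + i)) ∈ E) →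
      (∀ i, n ≤ i → ρ (i + 1) ∈ s (ρ i) (w i)) → PathIn s E (ρ n) (seg w n j) (ρ (n + j)) := by
  induction j with
  | zero =>
    intro n _ _
    exact PathIn.nil _
  | succ j ih =>
    intro n hE hs
    have h1 := ih (n + 1) (fun i hi => by
      have h2 := hE (i + 1) (by omega)
      rwa [show n + (i + 1) = n + 1 + i by omega] at h2) (fun i hi => hs i (by omega))
    rw [Tau_seg, show n + (j + 1) = n + 1 + j by omega]
    exact PathIn.cons (hE 0 (by omega)) (hs n le_rfl) h1

private theorem Tau_drun {Q A : Type} (δ : Q → A → Q) (u v : List A) :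
    ∀ q, drun δ q (u ++ v) = drun δ (drun δ q u) v := by
  induction u with
  | nil =>
    intro q
    rfl
  | cons a u ih =>
    intro q
    exact ih (δ q a)

private theorem Tau_drun_succ {Q A : Type} (δ : Q → A → Q) (q : Q) (w : ℕ → A) (i : ℕ) :
    drun δ q (seg w 0 (i + 1)) = δ (drun δ q (seg w 0 i)) (w i) := by
  have h1 : seg w 0 (i + 1) = seg w 0 i ++ [w i] := by
    unfold seg
    rw [List.range_succ, List.map_append]
    simp
  rw [h1, Tau_drun]
  rfl

theorem not_lang_of_R (hk : 0 < k) (B : NPA (Let k m)) (r : B.Resolver) (hw : B.Wins r) (hL : B.lang = Lg none)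
    (w : ℕ → Let k m) (ρ : ℕ → B.Q) (h0 : ρ 0 = B.q0) (hs : ∀ n, ρ (n + 1) ∈ r.arena (ρ n) (w n))
    (hR : ∀ᶠ n in atTop, (ρ n, w n) ∈ Rset r.arena B.pr) : w ∉ (Lg none : Set (ℕ → Let k m)) := by
  let _ := B.fin
  obtain ⟨N, hN⟩ := eventually_atTop.mp hR
  let F : Set (Set (B.Q × Let k m)) :=
    {E | EC r.arena E ∧ OddE r.arena B.pr E ∧ ∃ a, (ρ N, a) ∈ E}
  have hne : F.Nonempty := by
    obtain ⟨E, h1, h2, h3⟩ := hN N le_rfl
    exact ⟨E, h1, h2, _, h3⟩
  obtain ⟨M, hM⟩ := (Set.toFinite F).exists_maximal hne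
  obtain ⟨hMF, hmax⟩ := hM
  obtain ⟨hM1, hM2, hM3⟩ := hMF
  have key : ∀ n, N ≤ n → (∃ a, (ρ n, a) ∈ M) ∧ (ρ n, w n) ∈ M := by
    have step : ∀ n, N ≤ n → (∃ a, (ρ n, a) ∈ M) → (ρ n, w n) ∈ M := by
      intro n hn hex
      obtain ⟨E, h1, h2, h3⟩ := hN n hn
      have h4 := ec_union h1 hM1 h2 hM2 (ρ n) ⟨_, h3⟩ hex
      have h5 : E ∪ M ∈ F := by
        obtain ⟨a, ha⟩ := hM3
        exact ⟨h4.1, h4.2, a, Or.inr ha⟩
      exact hmax h5 Set.subset_union_right (Or.inl h3)
    intro n hn
    induction n, hn using Nat.le_induction with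
    | base => exact ⟨hM3, step N le_rfl hM3⟩
    | succ n hn ih =>
      have h1 := hM1.cl _ _ _ ih.2 (hs n)
      exact ⟨h1, step (n + 1) (by omega) h1⟩
  have hu : r.Rch (seg w 0 N) (ρ N) := by
    have h1 := Tau_path (s := r.arena) (E := Set.univ) w ρ N 0 (fun _ _ => Set.mem_univ _)
      (fun i _ => hs i)
    rw [h0, Nat.zero_add] at h1
    exact h1
  obtain ⟨x, hx, hx'⟩ := safe_thread hk B r hw hL M hM1 hM2 (seg w 0 N) (ρ N) hu hM3
  intro hwL
  obtain ⟨j, hj⟩ := hwL N x hx
  exact hx' (seg w N j) (ρ (N + j))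
    (Tau_path w ρ j N (fun i _ => (key (N + i) (by omega)).2) (fun i _ => hs i)) hj

private theorem Tau_freq {α : Type} [Finite α] {P : ℕ → Prop} (hP : ∃ᶠ i in atTop, P i)
    (e : ℕ → α) : ∃ x, ∃ᶠ i in atTop, P i ∧ e i = x := by
  by_contra hc
  have h1 : ∀ x, ∀ᶠ i in atTop, ¬ (P i ∧ e i = x) :=
    fun x => not_frequently.mp fun h => hc ⟨x, h⟩
  have h2 := eventually_all.mpr h1
  obtain ⟨i, hi1, hi2⟩ := (hP.and_eventually h2).exists
  exact hi2 (e i) ⟨hi1, rfl⟩

theorem det_of_MA (hk : 0 < k) (B : NPA (Let k m)) (hMA : B.MA) (hL : B.lang = Lg none) :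
    ∃ τ : B.Q → Let k m → B.Q, ∀ w : ℕ → Let k m, w ∈ (Lg none : Set (ℕ → Let k m)) ↔
      ParityAcc (fun i => B.pr (drun τ B.q0 (seg w 0 i)) (w i) (drun τ B.q0 (seg w 0 (i + 1)))) := by
  let _ := B.fin
  obtain ⟨r, hw⟩ := hMA
  obtain ⟨τ, hτ, hE⟩ := exists_tau r.arena (fun q a => (r.σ q a).support_nonempty) B.pr
  refine ⟨τ, fun w => ?_⟩
  set st : ℕ → B.Q := fun i => drun τ B.q0 (seg w 0 i) with hst
  have h0 : st 0 = B.q0 := rfl
  have hsuc : ∀ i, st (i + 1) = τ (st i) (w i) := fun i => Tau_drun_succ τ B.q0 w i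
  constructor
  · intro hwL
    have hfun : ∀ i, B.pr (st i) (w i) (st (i + 1)) = B.pr (st i) (w i) (τ (st i) (w i)) :=
      fun i => by rw [hsuc]
    let e : ℕ → B.Q × Let k m := fun i => (st i, w i)
    let I : Set (B.Q × Let k m) := {x | ∃ᶠ i in atTop, e i = x}
    let P : B.Q × Let k m → ℕ := fun x => B.pr x.1 x.2 (τ x.1 x.2)
    have hIne : I.Nonempty := by
      obtain ⟨x, hx⟩ := Tau_freq (P := fun _ => True) (Frequently.of_forall fun _ => trivial) e
      exact ⟨x, hx.mono fun i hi => hi.2⟩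
    have hev : ∀ᶠ i in atTop, e i ∈ I := by
      have h1 : ∀ x, ∀ᶠ i in atTop, x ∉ I → e i ≠ x := by
        intro x
        by_cases hx : x ∈ I
        · exact Eventually.of_forall fun i h => absurd hx h
        · exact (not_frequently.mp hx).mono fun i hi _ => hi
      refine (eventually_all.mpr h1).mono fun i hi => ?_
      by_contra hc
      exact hi (e i) hc rfl
    obtain ⟨N, hN⟩ := eventually_atTop.mp hev
    have hEC : EC (fun q a => ({τ q a} : Set B.Q)) I := by
      refine ⟨hIne, ?_, ?_⟩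
      · intro q a q' hqa hq'
        have hq' : q' = τ q a := hq'
        obtain ⟨a', ha'⟩ := Tau_freq (P := fun i => e i = (q, a)) hqa (fun i => w (i + 1))
        refine ⟨a', ?_⟩
        have h1 : ∃ᶠ i in atTop, e (i + 1) = (q', a') := by
          refine ha'.mono fun i hi => ?_
          have h2 : st i = q := congrArg Prod.fst hi.1
          have h3 : w i = a := congrArg Prod.snd hi.1
          show (st (i + 1), w (i + 1)) = (q', a')
          rw [hsuc, h2, h3, hi.2, hq']
        exact (tendsto_add_atTop_nat 1).frequently h1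
      · intro q a q' a' hq hq'
        obtain ⟨i, hi, hi'⟩ := frequently_atTop.mp hq N
        obtain ⟨j, hj, hj'⟩ := frequently_atTop.mp hq' i
        refine ⟨seg w i (j - i), ?_⟩
        have h1 := Tau_path (s := fun q a => ({τ q a} : Set B.Q)) (E := I) w st (j - i) i
          (fun l _ => hN (i + l) (by omega)) (fun l _ => hsuc l)
        have h2 : st i = q := congrArg Prod.fst hi'
        have h3 : st j = q' := congrArg Prod.fst hj'
        rw [show i + (j - i) = j by omega, h2, h3] at h1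
        exact h1
    obtain ⟨x0, hx0, hmin⟩ : ∃ x0 ∈ I, ∀ x ∈ I, P x0 ≤ P x := by
      have h1 : (P '' I).Nonempty := hIne.image P
      obtain ⟨x0, hx0, h2⟩ := Nat.sInf_mem h1
      exact ⟨x0, hx0, fun x hx => h2 ▸ Nat.sInf_le ⟨x, hx, rfl⟩⟩
    have hPe : ∀ i, B.pr (st i) (w i) (st (i + 1)) = P (e i) := fun i => hfun i
    rcases Nat.even_or_odd (P x0) with hev' | hodd
    · refine ⟨P x0, hev', ?_, ?_⟩
      · refine Frequently.mono (show ∃ᶠ i in atTop, e i = x0 from hx0) fun i hi => ?_
        show B.pr (st i) (w i) (st (i + 1)) = P x0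
        rw [hPe, hi]
      · intro n' hn' hc
        obtain ⟨i, hi1, hi2⟩ := (hc.and_eventually hev).exists
        have hi1 : B.pr (st i) (w i) (st (i + 1)) = n' := hi1
        rw [hPe] at hi1
        have h1 := hmin _ hi2
        omega
    · exfalso
      have hOdd : OddE (fun q a => ({τ q a} : Set B.Q)) B.pr I := by
        refine ⟨x0.1, x0.2, τ x0.1 x0.2, hx0, rfl, hodd, ?_⟩
        intro p b p' hpb hp'
        have hp' : p' = τ p b := hp'
        rw [hp']
        exact hmin (p, b) hpb
      have hsub := hE I hEC hOdd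
      refine not_lang_of_R hk B r hw hL w st h0 (fun n => ?_) (hev.mono fun i hi => hsub hi) hwL
      rw [hsuc]
      exact hτ _ _
  · intro hacc
    rw [← hL]
    refine ⟨st, ⟨h0, fun i => ?_⟩, hacc⟩
    refine r.supp _ _ _ ?_
    rw [hsuc]
    exact hτ _ _

end Pool.Agent.MAR
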