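import Pool.Agent.Lib_MP_cddbc9.HB
import Pool.Agent.Lib_MP_cddbc9.Tau
import Pool.Agent.Lib_MP_cddbc9.Per
import Pool.Agent.Lib_MP_cddbc9.LowC

/-!
# Assembly
-/

set_option autoImplicit false

open Filter

namespace Pool.Agent.MAR

theorem ma_lower {k m : ℕ} (hk : 3 ≤ k) (hm : 6 * m ≤ k * (k - 3)) (B : NPA (Let k m)) (hMA : B.MA)
    (hL : B.lang = Lg none) : k * (k + 1) / 2 + 7 * m ≤ B.size := by
  have hk0 : 0 < k := by omega
  obtain ⟨τ, hτ⟩ := det_of_MA hk0 B hMA hL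
  let _ := B.fin
  have hsuc : ∀ (w : ℕ → Let k m) (i : ℕ), drun τ B.q0 (seg w 0 (i + 1)) = τ (drun τ B.q0 (seg w 0 i)) (w i) := by
    intro w i
    have h1 : seg w 0 (i + 1) = seg w 0 i ++ [w i] := by
      unfold seg
      rw [List.range_succ, List.map_append]
      simp
    rw [h1, drun_append]
    rfl
  obtain ⟨D, hD⟩ := dm_of_det hk0 B.q0 τ (fun q a => B.pr q a (τ q a)) (fun w => by
    rw [hτ w]
    simp only [hsuc])
  have h2 := D.card_ge (by omega)
  have h3 : k * (k + 1) / 2 + 7 * m ≤ D.size := by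
    rcases h2 with h | h
    · exact h
    · refine le_trans ?_ h
      obtain ⟨j, rfl⟩ : ∃ j, k = j + 3 := ⟨k - 3, by omega⟩
      simp only [Nat.add_sub_cancel] at hm
      have e1 : (j + 3) * (j + 3 + 1) = j * j + 7 * j + 12 := by ring
      have e2 : j + 3 - 1 = j + 2 := by omega
      have e3 : (j + 3) * (j + 2) = j * j + 5 * j + 6 := by ring
      rw [e1, e2, e3]
      have e4 : (j + 3) * j = j * j + 3 * j := by ring
      rw [e4] at hm
      omega
  exact h3.trans hD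

theorem main_thm (k m : ℕ) (hk : 3 ≤ k) (hm : 6 * m ≤ k * (k - 3)) : ∃ A : NPA (Let k m), A.HD ∧
    A.size = k * (k + 1) / 2 + 6 * m ∧ (∀ q a q', A.pr q a q' ≤ 1) ∧
    ∀ B : NPA (Let k m), B.MA → B.lang = A.lang → k * (k + 1) / 2 + 7 * m ≤ B.size := by
  obtain ⟨A, h1, h2, h3, h4⟩ := exists_HD k m (by omega)
  exact ⟨A, h2, h3, h4, fun B hB hBA => ma_lower hk hm B hB (hBA.trans h1)⟩

end Pool.Agent.MAR
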