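import Pool.Agent.Lib_MP_cddbc9.Defs

/-!
# The HD automaton: states, transitions, one step of the strategy (piece HA)

States of the automaton are sets of threads: `Sym2 (Fin k)` (one or two threads of class 0) and for every class `i` the four
singletons and `{0,1,3}`, `{0,1,2}`.  Section 2 of /team-store/ma_hd_proof.md.

Proof of `step_ex` (cases over the letter and the state):
* letter with the wrong source (`src a ≠ scls q`): `img a (TT q) = ∅` and `img a {cls = scls q} = ∅`; take `q' = q`.
* `q` of class 0, `TT q = {x, y}`: `perm g`: exact image; `kp x' y'`: if the image is nonempty, it is a set with one or two elements of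
  class 0 (exact), otherwise `q' = s(x', y')`; `jj x' i y'`: `q' = inr (i, y')` in all cases; `go t i a b`:
  if exactly one (or the same) point of `{(pg t).1, (pg t).2}` is in the image, the singleton; if the image is `{(pg t).1, (pg t).2}` with two points:
  `t = some false`: `w1 = inr (i, 4)`, `t = some true`: `w2 = inr (i, 5)`, `t = none`: `w2` if `img a S = {1}`, otherwise `w1`;
  if the image is empty: `w1` for `t = none, some false`, `w2` for `t = some true`.
* `q` of class `i`, letter with source `some i`: `zz i y`: `q' = inr (i, y)`; `mm i s a b`: exact image (one or two elements of class 0);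
  `ff t i a b`: if the image is nonempty: exact, otherwise `q' = s(a, b)`.
The clause `(img a S).Nonempty → Inv q' (img a S)` uses for `w1`: the image of `S` is not `{1}`; note for `ff false` at `w1` (kills only thread 1) and
`ff true` at `w2` (kills only thread 0) that `img a S = ∅` is impossible by `Inv`.
-/

set_option autoImplicit false

open Filter

namespace Pool.Agent.MAR

section
variable {k m : ℕ}

/-- states of the HD automaton -/
abbrev SA (k m : ℕ) := Sym2 (Fin k) ⊕ (Fin m × Fin 6)

/-- threads of the six states of the classes `i ≥ 1` -/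
def tset (j : Fin 6) : Set (Fin 4) :=
  {z | (j.val < 4 ∧ z.val = j.val) ∨ (j = 4 ∧ z ≠ 2) ∨ (j = 5 ∧ z ≠ 3)}

/-- the set of threads of a state -/
def TT : SA k m → Set (Th k m)
  | .inl e => {x | ∃ z ∈ e, x = .inl z}
  | .inr (i, j) => {x | ∃ z ∈ tset j, x = .inr (i, z)}

/-- class of a state -/
def scls : SA k m → Cl m
  | .inl _ => none
  | .inr p => some p.1

/-- image of a set of threads -/
def img (a : Let k m) (S : Set (Th k m)) : Set (Th k m) := {y | ∃ x ∈ S, act a x = some y}

/-- transitions of the HD automaton -/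
def trans (q : SA k m) (a : Let k m) (q' : SA k m) : Prop :=
  scls q' = nc (scls q) a ∧
    (((img a (TT q)).Nonempty ∧ img a (TT q) ⊆ TT q') ∨
      (img a (TT q) = ∅ ∧ img a {x | cls x = scls q} ⊆ TT q'))

/-- invariant of the strategy -/
def Inv (q : SA k m) (S : Set (Th k m)) : Prop :=
  S ⊆ TT q ∧ S.Nonempty ∧ (∀ i, q = .inr (i, 4) → S ≠ {.inr (i, 1)}) ∧ (∀ i, q = .inr (i, 5) → S ≠ {.inr (i, 0)})

private theorem ha_sub_cls {q : SA k m} {x : Th k m} (h : x ∈ TT q) : cls x = scls q := by
  rcases q with e | ⟨i, j⟩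
  · obtain ⟨z, _, rfl⟩ := h
    rfl
  · obtain ⟨z, _, rfl⟩ := h
    rfl

private theorem ha_mem_inl {x y : Fin k} {t : Th k m} :
    t ∈ TT (m := m) (.inl s(x, y)) ↔ t = .inl x ∨ t = .inl y := by
  constructor
  · rintro ⟨z, hz, rfl⟩
    rcases Sym2.mem_iff.1 hz with h | h
    · left; rw [h]
    · right; rw [h]
  · rintro (rfl | rfl)
    · exact ⟨x, by simp, rfl⟩
    · exact ⟨y, by simp, rfl⟩

private theorem ha_mem_inr {i : Fin m} {j : Fin 6} {t : Th k m} :
    t ∈ TT (k := k) (.inr (i, j)) ↔ ∃ z ∈ tset j, t = .inr (i, z) := Iff.rfl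

private theorem ha_tset_ne (j : Fin 6) : ∃ z, z ∈ tset j := by
  fin_cases j
  · exact ⟨0, by simp [tset]⟩
  · exact ⟨1, by simp [tset]⟩
  · exact ⟨2, by simp [tset]⟩
  · exact ⟨3, by simp [tset]⟩
  · exact ⟨0, by simp [tset]⟩
  · exact ⟨0, by simp [tset]⟩

theorem inv_TT (q : SA k m) : Inv q (TT q) := by
  refine ⟨fun x hx => hx, ?_, ?_, ?_⟩
  · rcases q with e | ⟨i, j⟩
    · induction e using Sym2.ind with
      | _ x y => exact ⟨.inl x, x, by simp, rfl⟩
    · obtain ⟨z, hz⟩ := ha_tset_ne j
      exact ⟨.inr (i, z), z, hz, rfl⟩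
  · rintro i rfl h
    have h0 : (Sum.inr (i, (0 : Fin 4)) : Th k m) ∈ TT (k := k) (.inr (i, 4)) := ⟨0, by simp [tset], rfl⟩
    rw [h] at h0
    simp at h0
  · rintro i rfl h
    have h0 : (Sum.inr (i, (1 : Fin 4)) : Th k m) ∈ TT (k := k) (.inr (i, 5)) := ⟨1, by simp [tset], rfl⟩
    rw [h] at h0
    simp at h0

theorem cls_TT {q : SA k m} {x : Th k m} (h : x ∈ TT q) : cls x = scls q := ha_sub_cls h

theorem card_SA (k m : ℕ) : Fintype.card (SA k m) = k * (k + 1) / 2 + 6 * m := by
  unfold SA
  rw [Fintype.card_sum, Sym2.card, Fintype.card_prod, Fintype.card_fin, Fintype.card_fin, Fintype.card_fin,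
    Nat.choose_two_right, Nat.add_sub_cancel, Nat.mul_comm (k + 1) k, Nat.mul_comm m 6]

/-- the goal of `step_ex` -/
private def HaGoal (q : SA k m) (S : Set (Th k m)) (a : Let k m) : Prop :=
    ∃ q', trans q a q' ∧ ((img a S).Nonempty → Inv q' (img a S)) ∧
      (img a S = ∅ → (img a (TT q)).Nonempty → ∃ x, TT q' = {x}) ∧
      ((∃ x, TT q = {x}) → (img a (TT q)).Nonempty → ∃ x, TT q' = {x})

private theorem ha_img_mono {a : Let k m} {S T : Set (Th k m)} (h : S ⊆ T) : img a S ⊆ img a T := by
  rintro y ⟨x, hx, hy⟩
  exact ⟨x, h hx, hy⟩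

private theorem ha_B {q : SA k m} {S : Set (Th k m)} {a : Let k m} (h : Inv q S) (q' : SA k m)
    (hc : scls q' = nc (scls q) a) (he : img a (TT q) = ∅)
    (hs : img a {x | cls x = scls q} ⊆ TT q') : HaGoal q S a := by
  have hS : img a S = ∅ := Set.subset_eq_empty (he ▸ ha_img_mono h.1) rfl
  refine ⟨q', ⟨hc, Or.inr ⟨he, hs⟩⟩, ?_, ?_, ?_⟩
  · intro hn
    rw [hS] at hn
    exact absurd hn Set.not_nonempty_empty
  · intro _ hn
    rw [he] at hn
    exact absurd hn Set.not_nonempty_empty
  · intro _ hn
    rw [he] at hn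
    exact absurd hn Set.not_nonempty_empty

private theorem ha_A {q : SA k m} {S : Set (Th k m)} {a : Let k m} (h : Inv q S) (q' : SA k m) (p : Th k m)
    (hc : scls q' = nc (scls q) a) (hne : (img a (TT q)).Nonempty) (hsub : ∀ t ∈ img a (TT q), t = p)
    (hp : TT q' = {p}) (h4 : ∀ i, q' ≠ .inr (i, 4)) (h5 : ∀ i, q' ≠ .inr (i, 5)) : HaGoal q S a := by
  refine ⟨q', ⟨hc, Or.inl ⟨hne, ?_⟩⟩, ?_, ?_, ?_⟩
  · intro t ht
    rw [hp]
    exact hsub t ht
  · intro hn
    refine ⟨?_, hn, fun i hi => absurd hi (h4 i), fun i hi => absurd hi (h5 i)⟩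
    intro t ht
    rw [hp]
    exact hsub t (ha_img_mono h.1 ht)
  · intro _ _
    exact ⟨p, hp⟩
  · intro _ _
    exact ⟨p, hp⟩

private theorem ha_C {q : SA k m} {S : Set (Th k m)} {a : Let k m} (h : Inv q S) (q' : SA k m)
    (hc : scls q' = nc (scls q) a) (hsub : img a (TT q) ⊆ TT q')
    (hS : (img a S).Nonempty)
    (h4 : ∀ i, q' = .inr (i, 4) → img a S ≠ {.inr (i, 1)})
    (h5 : ∀ i, q' = .inr (i, 5) → img a S ≠ {.inr (i, 0)})
    (h1 : (∃ x, TT q = {x}) → ∃ x, TT q' = {x}) : HaGoal q S a := by
  refine ⟨q', ⟨hc, Or.inl ⟨hS.mono (ha_img_mono h.1), hsub⟩⟩, ?_, ?_, ?_⟩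
  · intro hn
    exact ⟨fun t ht => hsub (ha_img_mono h.1 ht), hn, h4, h5⟩
  · intro he _
    rw [he] at hS
    exact absurd hS Set.not_nonempty_empty
  · intro hx _
    exact h1 hx

private theorem ha_TT_single (x : Fin k) : TT (m := m) (.inl s(x, x)) = {.inl x} := by
  ext t
  rw [ha_mem_inl, or_self, Set.mem_singleton_iff]

/-- index of the singleton state -/
private def hI (y : Fin 4) : Fin 6 := ⟨y.val, by omega⟩

private theorem ha_TT_hI (i : Fin m) (y : Fin 4) : TT (k := k) (.inr (i, hI y)) = {.inr (i, y)} := by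
  ext t
  rw [ha_mem_inr, Set.mem_singleton_iff]
  constructor
  · rintro ⟨z, hz, rfl⟩
    have : z = y := by
      rcases hz with ⟨_, h⟩ | ⟨h, _⟩ | ⟨h, _⟩
      · exact Fin.ext h
      · exfalso
        have := congrArg Fin.val h
        simp [hI] at this
        omega
      · exfalso
        have := congrArg Fin.val h
        simp [hI] at this
        omega
    rw [this]
  · rintro rfl
    refine ⟨y, Or.inl ⟨?_, rfl⟩, rfl⟩
    simp [hI]

private theorem ha_hI4 (i i' : Fin m) (y : Fin 4) : (Sum.inr (i, hI y) : SA k m) ≠ .inr (i', 4) := by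
  intro h
  have h2 := congrArg Fin.val (congrArg Prod.snd (Sum.inr.inj h))
  simp [hI] at h2
  omega

private theorem ha_hI5 (i i' : Fin m) (y : Fin 4) : (Sum.inr (i, hI y) : SA k m) ≠ .inr (i', 5) := by
  intro h
  have h2 := congrArg Fin.val (congrArg Prod.snd (Sum.inr.inj h))
  simp [hI] at h2
  omega

private theorem ha_act_wrong (a : Let k m) (x : Th k m) (h : src a ≠ cls x) : act a x = none := by
  cases a <;> rcases x with x | ⟨j, x⟩ <;> simp [src, cls] at h <;> simp [act] <;>
    (intro h'; exact absurd h'.symm h)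

/-- letter with the wrong source -/
private theorem ha_wrong {q : SA k m} {S : Set (Th k m)} {a : Let k m} (h : Inv q S) (hs : src a ≠ scls q) :
    HaGoal q S a := by
  have key : ∀ x : Th k m, cls x = scls q → act a x = none := by
    intro x hx
    rw [← hx] at hs
    exact ha_act_wrong a x hs
  have he : img a {x | cls x = scls q} = ∅ := by
    rw [Set.eq_empty_iff_forall_notMem]
    rintro y ⟨x, hx, hy⟩
    rw [key x hx] at hy
    exact absurd hy (by simp)
  refine ha_B h q ?_ ?_ ?_
  · unfold nc
    rw [if_neg hs]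
  · refine Set.subset_eq_empty (?_ : img a (TT q) ⊆ _) he
    exact ha_img_mono fun x hx => ha_sub_cls hx
  · rw [he]
    exact Set.empty_subset _

private theorem ha_nc {q : SA k m} {a : Let k m} (hs : src a = scls q) : nc (scls q) a = tgt a := by
  unfold nc
  rw [if_pos hs]

private theorem ha_mem_img {a : Let k m} {S : Set (Th k m)} {y : Th k m} :
    y ∈ img a S ↔ ∃ x ∈ S, act a x = some y := Iff.rfl

/-- images of sets of class 0 threads by a state of class 0 -/
private theorem ha_img_inl {a : Let k m} {x y : Fin k} {t : Th k m} :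
    t ∈ img a (TT (.inl s(x, y))) ↔ act a (.inl x) = some t ∨ act a (.inl y) = some t := by
  constructor
  · rintro ⟨z, hz, ht⟩
    rcases ha_mem_inl.1 hz with rfl | rfl
    · exact Or.inl ht
    · exact Or.inr ht
  · rintro (h | h)
    · exact ⟨_, ha_mem_inl.2 (Or.inl rfl), h⟩
    · exact ⟨_, ha_mem_inl.2 (Or.inr rfl), h⟩

private theorem ha_perm (x y : Fin k) (S : Set (Th k m)) (g : Equiv.Perm (Fin k))
    (h : Inv (.inl s(x, y)) S) : HaGoal (.inl s(x, y)) S (.perm g) := by
  refine ha_C h (.inl s(g x, g y)) rfl ?_ ?_ (fun i hi => by simp at hi) (fun i hi => by simp at hi) ?_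
  · intro t ht
    rw [ha_mem_inl]
    rcases ha_img_inl.1 ht with h | h
    · left
      simpa [act] using h.symm
    · right
      simpa [act] using h.symm
  · obtain ⟨z, hz⟩ := h.2.1
    rcases ha_mem_inl.1 (h.1 hz) with rfl | rfl
    · exact ⟨_, _, hz, rfl⟩
    · exact ⟨_, _, hz, rfl⟩
  · rintro ⟨p, hp⟩
    have h1 : (Sum.inl x : Th k m) ∈ ({p} : Set (Th k m)) := by
      rw [← hp]; exact ha_mem_inl.2 (Or.inl rfl)
    have h2 : (Sum.inl y : Th k m) ∈ ({p} : Set (Th k m)) := by
      rw [← hp]; exact ha_mem_inl.2 (Or.inr rfl)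
    have h3 : x = y := Sum.inl.inj (h1.trans h2.symm)
    subst h3
    exact ⟨_, ha_TT_single _⟩

/-- a set inside `TT` of a class 0 state with both threads mapped has a nonempty image -/
private theorem ha_ne_inl {a : Let k m} {x y : Fin k} {S : Set (Th k m)} (h : Inv (.inl s(x, y)) S)
    (hx : act a (.inl x) ≠ none) (hy : act a (.inl y) ≠ none) : (img a S).Nonempty := by
  obtain ⟨z, hz⟩ := h.2.1
  have : act a z ≠ none := by
    rcases ha_mem_inl.1 (h.1 hz) with rfl | rfl
    · exact hx
    · exact hy
  obtain ⟨t, ht⟩ := Option.ne_none_iff_exists'.1 this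
  exact ⟨t, z, hz, ht⟩

private theorem ha_single_inl {x y : Fin k} (h : ∃ p, TT (m := m) (.inl s(x, y)) = {p}) : x = y := by
  obtain ⟨p, hp⟩ := h
  have h1 : (Sum.inl x : Th k m) ∈ ({p} : Set (Th k m)) := by
    rw [← hp]; exact ha_mem_inl.2 (Or.inl rfl)
  have h2 : (Sum.inl y : Th k m) ∈ ({p} : Set (Th k m)) := by
    rw [← hp]; exact ha_mem_inl.2 (Or.inr rfl)
  exact Sum.inl.inj (h1.trans h2.symm)

private theorem ha_kp (x y : Fin k) (S : Set (Th k m)) (x' y' : Fin k)
    (h : Inv (.inl s(x, y)) S) : HaGoal (.inl s(x, y)) S (.kp x' y') := by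
  by_cases hx : x = x' ∨ x = y'
  · by_cases hy : y = x' ∨ y = y'
    · refine ha_C h (.inl s(x, y)) rfl ?_ ?_ (fun i hi => by simp at hi) (fun i hi => by simp at hi) (fun h => h)
      · intro t ht
        rw [ha_mem_inl]
        rcases ha_img_inl.1 ht with h | h
        · left
          simpa [act, hx] using h.symm
        · right
          simpa [act, hy] using h.symm
      · exact ha_ne_inl h (by simp [act, hx]) (by simp [act, hy])
    · refine ha_A h (.inl s(x, x)) (.inl x) rfl ?_ ?_ (ha_TT_single _) (fun i hi => by simp at hi)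
        (fun i hi => by simp at hi)
      · exact ⟨.inl x, ha_img_inl.2 (Or.inl (by simp [act, hx]))⟩
      · intro t ht
        rcases ha_img_inl.1 ht with h | h
        · simpa [act, hx] using h.symm
        · simp [act, hy] at h
  · by_cases hy : y = x' ∨ y = y'
    · refine ha_A h (.inl s(y, y)) (.inl y) rfl ?_ ?_ (ha_TT_single _) (fun i hi => by simp at hi)
        (fun i hi => by simp at hi)
      · exact ⟨.inl y, ha_img_inl.2 (Or.inr (by simp [act, hy]))⟩
      · intro t ht
        rcases ha_img_inl.1 ht with h | h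
        · simp [act, hx] at h
        · simpa [act, hy] using h.symm
    · refine ha_B h (.inl s(x', y')) rfl ?_ ?_
      · rw [Set.eq_empty_iff_forall_notMem]
        intro t ht
        rcases ha_img_inl.1 ht with h | h
        · simp [act, hx] at h
        · simp [act, hy] at h
      · rintro t ⟨z, hz, ht⟩
        rcases z with z | ⟨j, z⟩
        · by_cases hz' : z = x' ∨ z = y'
          · simp only [act, if_pos hz', Option.some.injEq] at ht
            subst ht
            rw [ha_mem_inl]
            rcases hz' with rfl | rfl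
            · exact Or.inl rfl
            · exact Or.inr rfl
          · simp only [act, if_neg hz'] at ht
            exact absurd ht (by simp)
        · simp [act] at ht

private theorem ha_jj (x y : Fin k) (S : Set (Th k m)) (x' : Fin k) (i : Fin m) (y' : Fin 4)
    (h : Inv (.inl s(x, y)) S) : HaGoal (.inl s(x, y)) S (.jj x' i y') := by
  have hsub : ∀ z t : Th k m, act (.jj x' i y') z = some t → t = .inr (i, y') := by
    intro z t ht
    rcases z with z | ⟨j, z⟩
    · by_cases hz : z = x'
      · simpa [act, hz] using ht.symm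
      · simp [act, hz] at ht
    · simp [act] at ht
  by_cases hn : (img (.jj x' i y') (TT (m := m) (.inl s(x, y)))).Nonempty
  · refine ha_A h (.inr (i, hI y')) (.inr (i, y')) rfl hn ?_ (ha_TT_hI i y') (fun i' => ha_hI4 i i' y')
      (fun i' => ha_hI5 i i' y')
    rintro t ⟨z, _, ht⟩
    exact hsub z t ht
  · refine ha_B h (.inr (i, hI y')) rfl (Set.not_nonempty_iff_eq_empty.1 hn) ?_
    rintro t ⟨z, _, ht⟩
    rw [ha_TT_hI]
    exact hsub z t ht

private theorem ha_pg_ne (t : Option Bool) : (pg t).1 ≠ (pg t).2 := by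
  rcases t with _ | t
  · simp [pg]
  · cases t <;> simp [pg, pf]

/-- value of the letter `go` -/
private theorem ha_act_go (t : Option Bool) (i : Fin m) (a b z : Fin k) (u : Th k m)
    (h : act (.go t i a b) (.inl z) = some u) :
    (z = a ∧ u = .inr (i, (pg t).1)) ∨ (z = b ∧ z ≠ a ∧ u = .inr (i, (pg t).2)) := by
  by_cases ha : z = a
  · left
    refine ⟨ha, ?_⟩
    simpa [act, ha] using h.symm
  · by_cases hb : z = b
    · right
      refine ⟨hb, ha, ?_⟩
      simp only [act, if_neg ha, if_pos hb] at h
      simpa using h.symm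
    · simp [act, ha, hb] at h

private theorem ha_go (x y : Fin k) (S : Set (Th k m)) (t : Option Bool) (i : Fin m) (a b : Fin k)
    (h : Inv (.inl s(x, y)) S) : HaGoal (.inl s(x, y)) S (.go t i a b) := by
  have hA : act (m := m) (.go t i a b) (.inl a) = some (.inr (i, (pg t).1)) := by simp [act]
  have hB : b ≠ a → act (m := m) (.go t i a b) (.inl b) = some (.inr (i, (pg t).2)) := by
    intro hb
    simp [act, hb]
  by_cases ha : a = x ∨ a = y
  · have hamem : (Sum.inr (i, (pg t).1) : Th k m) ∈ img (.go t i a b) (TT (.inl s(x, y))) := by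
      rw [ha_img_inl]
      rcases ha with rfl | rfl
      · exact Or.inl hA
      · exact Or.inr hA
    by_cases hb : b ≠ a ∧ (b = x ∨ b = y)
    · -- both
      obtain ⟨hba, hb⟩ := hb
      have hxy : x ≠ y := by
        rintro rfl
        rcases ha with rfl | rfl <;> rcases hb with rfl | rfl <;> exact hba rfl
      have himS : ∀ u ∈ img (.go t i a b) (TT (m := m) (.inl s(x, y))),
          u = .inr (i, (pg t).1) ∨ u = .inr (i, (pg t).2) := by
        intro u hu
        rcases ha_img_inl.1 hu with h | h
        · rcases ha_act_go t i a b x u h with ⟨_, h⟩ | ⟨_, _, h⟩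
          · exact Or.inl h
          · exact Or.inr h
        · rcases ha_act_go t i a b y u h with ⟨_, h⟩ | ⟨_, _, h⟩
          · exact Or.inl h
          · exact Or.inr h
      have hSne : (img (.go t i a b) S).Nonempty := by
        have hx : x = a ∨ x = b := by
          rcases ha with rfl | rfl
          · exact Or.inl rfl
          · rcases hb with rfl | rfl
            · exact Or.inr rfl
            · exact absurd rfl hba
        have hy : y = a ∨ y = b := by
          rcases ha with rfl | rfl
          · rcases hb with rfl | rfl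
            · exact absurd rfl hba
            · exact Or.inr rfl
          · exact Or.inl rfl
        refine ha_ne_inl h ?_ ?_
        · rcases hx with rfl | rfl
          · rw [hA]; simp
          · rw [hB hba]; simp
        · rcases hy with rfl | rfl
          · rw [hA]; simp
          · rw [hB hba]; simp
      have h1 : (∃ p, TT (m := m) (.inl s(x, y)) = {p}) → ∀ q' : SA k m, ∃ p, TT q' = {p} := by
        intro hp
        exact absurd (ha_single_inl hp) hxy
      have hSim : ∀ u ∈ img (.go t i a b) S, u = .inr (i, (pg t).1) ∨ u = .inr (i, (pg t).2) :=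
        fun u hu => himS u (ha_img_mono h.1 hu)
      rcases t with _ | t
      · by_cases hS1 : img (.go none i a b) S = {.inr (i, 1)}
        · refine ha_C h (.inr (i, 5)) rfl ?_ hSne ?_ ?_ (fun hp => h1 hp _)
          · intro u hu
            rcases himS u hu with rfl | rfl
            · exact ⟨0, by simp [tset], rfl⟩
            · exact ⟨1, by simp [tset], rfl⟩
          · intro i' hi'
            simp at hi'
          · intro i' hi'
            rw [hS1]
            simp
        · refine ha_C h (.inr (i, 4)) rfl ?_ hSne ?_ ?_ (fun hp => h1 hp _)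
          · intro u hu
            rcases himS u hu with rfl | rfl
            · exact ⟨0, by simp [tset], rfl⟩
            · exact ⟨1, by simp [tset], rfl⟩
          · intro i' hi'
            have : i' = i := by simpa using (congrArg Prod.fst (Sum.inr.inj hi')).symm
            subst this
            exact hS1
          · intro i' hi'
            simp at hi'
      · cases t
        · refine ha_C h (.inr (i, 4)) rfl ?_ hSne ?_ ?_ (fun hp => h1 hp _)
          · intro u hu
            rcases himS u hu with rfl | rfl
            · exact ⟨3, by simp [tset], rfl⟩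
            · exact ⟨0, by simp [tset], rfl⟩
          · intro i' hi' hS
            obtain ⟨u, hu⟩ := hSne
            have hu1 := hSim u hu
            rw [hS] at hu
            rw [Set.mem_singleton_iff] at hu
            subst hu
            simp [pg, pf] at hu1
          · intro i' hi'
            simp at hi'
        · refine ha_C h (.inr (i, 5)) rfl ?_ hSne ?_ ?_ (fun hp => h1 hp _)
          · intro u hu
            rcases himS u hu with rfl | rfl
            · exact ⟨1, by simp [tset], rfl⟩
            · exact ⟨2, by simp [tset], rfl⟩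
          · intro i' hi'
            simp at hi'
          · intro i' hi' hS
            obtain ⟨u, hu⟩ := hSne
            have hu1 := hSim u hu
            rw [hS] at hu
            rw [Set.mem_singleton_iff] at hu
            subst hu
            simp [pg, pf] at hu1
    · -- only a
      refine ha_A h (.inr (i, hI (pg t).1)) (.inr (i, (pg t).1)) rfl ⟨_, hamem⟩ ?_ (ha_TT_hI i _)
        (fun i' => ha_hI4 i i' _) (fun i' => ha_hI5 i i' _)
      intro u hu
      rcases ha_img_inl.1 hu with h | h
      · rcases ha_act_go t i a b x u h with ⟨_, h⟩ | ⟨h1, h2, h⟩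
        · exact h
        · exact absurd ⟨fun h3 => h2 (h1.trans h3), Or.inl h1.symm⟩ hb
      · rcases ha_act_go t i a b y u h with ⟨_, h⟩ | ⟨h1, h2, h⟩
        · exact h
        · exact absurd ⟨fun h3 => h2 (h1.trans h3), Or.inr h1.symm⟩ hb
  · by_cases hb : b ≠ a ∧ (b = x ∨ b = y)
    · obtain ⟨hba, hb⟩ := hb
      refine ha_A h (.inr (i, hI (pg t).2)) (.inr (i, (pg t).2)) rfl ⟨.inr (i, (pg t).2), ?_⟩ ?_ (ha_TT_hI i _)
        (fun i' => ha_hI4 i i' _) (fun i' => ha_hI5 i i' _)
      · rw [ha_img_inl]
        rcases hb with rfl | rfl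
        · exact Or.inl (hB hba)
        · exact Or.inr (hB hba)
      · intro u hu
        rcases ha_img_inl.1 hu with h | h
        · rcases ha_act_go t i a b x u h with ⟨h1, h⟩ | ⟨_, _, h⟩
          · exact absurd (Or.inl h1.symm) ha
          · exact h
        · rcases ha_act_go t i a b y u h with ⟨h1, h⟩ | ⟨_, _, h⟩
          · exact absurd (Or.inr h1.symm) ha
          · exact h
    · -- empty image
      have he : img (.go t i a b) (TT (m := m) (.inl s(x, y))) = ∅ := by
        rw [Set.eq_empty_iff_forall_notMem]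
        intro u hu
        rcases ha_img_inl.1 hu with h | h
        · rcases ha_act_go t i a b x u h with ⟨h1, _⟩ | ⟨h1, h2, _⟩
          · exact ha (Or.inl h1.symm)
          · exact hb ⟨fun h3 => h2 (h1.trans h3), Or.inl h1.symm⟩
        · rcases ha_act_go t i a b y u h with ⟨h1, _⟩ | ⟨h1, h2, _⟩
          · exact ha (Or.inr h1.symm)
          · exact hb ⟨fun h3 => h2 (h1.trans h3), Or.inr h1.symm⟩
      have hcl : ∀ u ∈ img (.go t i a b) {v : Th k m | cls v = scls (.inl s(x, y) : SA k m)},
          u = .inr (i, (pg t).1) ∨ u = .inr (i, (pg t).2) := by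
        rintro u ⟨z, hz, hu⟩
        rcases z with z | ⟨j, z⟩
        · rcases ha_act_go t i a b z u hu with ⟨_, h⟩ | ⟨_, _, h⟩
          · exact Or.inl h
          · exact Or.inr h
        · simp [act] at hu
      rcases t with _ | t
      · refine ha_B h (.inr (i, 4)) rfl he ?_
        intro u hu
        rcases hcl u hu with rfl | rfl
        · exact ⟨0, by simp [tset], rfl⟩
        · exact ⟨1, by simp [tset], rfl⟩
      · cases t
        · refine ha_B h (.inr (i, 4)) rfl he ?_
          intro u hu
          rcases hcl u hu with rfl | rfl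
          · exact ⟨3, by simp [tset], rfl⟩
          · exact ⟨0, by simp [tset], rfl⟩
        · refine ha_B h (.inr (i, 5)) rfl he ?_
          intro u hu
          rcases hcl u hu with rfl | rfl
          · exact ⟨1, by simp [tset], rfl⟩
          · exact ⟨2, by simp [tset], rfl⟩

/-! letters with source `some i` -/

private theorem ha_nc_inr (i : Fin m) (c : Fin 6) (a : Let k m) (ha : src a = some i) :
    nc (scls (.inr (i, c) : SA k m)) a = tgt a := ha_nc ha

private theorem ha_zz (i : Fin m) (c : Fin 6) (S : Set (Th k m)) (y : Fin 4)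
    (h : Inv (.inr (i, c)) S) : HaGoal (.inr (i, c)) S (.zz i y) := by
  have hsub : ∀ z u : Th k m, act (.zz i y) z = some u → u = .inr (i, y) := by
    intro z u hu
    rcases z with z | ⟨j, z⟩
    · simp [act] at hu
    · by_cases hz : j = i ∧ z = y
      · simp only [act, if_pos hz, Option.some.injEq] at hu
        rw [← hu, hz.1, hz.2]
      · simp only [act, if_neg hz] at hu
        exact absurd hu (by simp)
  by_cases hn : (img (.zz i y) (TT (k := k) (.inr (i, c)))).Nonempty
  · refine ha_A h (.inr (i, hI y)) (.inr (i, y)) (ha_nc_inr i c (.zz i y) rfl).symm hn ?_ (ha_TT_hI i y)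
      (fun i' => ha_hI4 i i' y) (fun i' => ha_hI5 i i' y)
    rintro t ⟨z, _, ht⟩
    exact hsub z t ht
  · refine ha_B h (.inr (i, hI y)) (ha_nc_inr i c (.zz i y) rfl).symm (Set.not_nonempty_iff_eq_empty.1 hn) ?_
    rintro t ⟨z, _, ht⟩
    rw [ha_TT_hI]
    exact hsub z t ht

private theorem ha_act_mm (i : Fin m) (s z : Fin 4) (a b : Fin k) :
    act (m := m) (.mm i s a b) (.inr (i, z)) = some (.inl (if z = s then a else b)) := by
  simp [act]

private theorem ha_mm (i : Fin m) (c : Fin 6) (S : Set (Th k m)) (s : Fin 4) (a b : Fin k)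
    (h : Inv (.inr (i, c)) S) : HaGoal (.inr (i, c)) S (.mm i s a b) := by
  have hSne : (img (.mm i s a b) S).Nonempty := by
    obtain ⟨z, hz⟩ := h.2.1
    obtain ⟨z', _, rfl⟩ := h.1 hz
    exact ⟨_, _, hz, ha_act_mm i s z' a b⟩
  have hne := hSne.mono (ha_img_mono (a := (.mm i s a b : Let k m)) h.1)
  by_cases hs : s ∈ tset c
  · by_cases hz : ∃ z ∈ tset c, z ≠ s
    · refine ha_C h (.inl s(a, b)) (ha_nc_inr i c (.mm i s a b) rfl).symm ?_ hSne (fun i hi => by simp at hi)
        (fun i hi => by simp at hi) ?_
      · rintro t ⟨z, ⟨z', _, rfl⟩, ht⟩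
        rw [ha_act_mm, Option.some.injEq] at ht
        rw [← ht, ha_mem_inl]
        by_cases hz' : z' = s
        · left; rw [if_pos hz']
        · right; rw [if_neg hz']
      · rintro ⟨p, hp⟩
        exfalso
        obtain ⟨z, hz, hzs⟩ := hz
        have h1 : (Sum.inr (i, z) : Th k m) ∈ ({p} : Set (Th k m)) := by
          rw [← hp]; exact ⟨z, hz, rfl⟩
        have h2 : (Sum.inr (i, s) : Th k m) ∈ ({p} : Set (Th k m)) := by
          rw [← hp]; exact ⟨s, hs, rfl⟩
        have h3 : (Sum.inr (i, z) : Th k m) = .inr (i, s) := h1.trans h2.symm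
        exact hzs (by simpa using h3)
    · refine ha_A h (.inl s(a, a)) (.inl a) (ha_nc_inr i c (.mm i s a b) rfl).symm hne ?_ (ha_TT_single _)
        (fun i hi => by simp at hi) (fun i hi => by simp at hi)
      rintro t ⟨z, ⟨z', hz', rfl⟩, ht⟩
      rw [ha_act_mm, Option.some.injEq] at ht
      have : z' = s := by
        by_contra hcon
        exact hz ⟨z', hz', hcon⟩
      rw [← ht, if_pos this]
  · refine ha_A h (.inl s(b, b)) (.inl b) (ha_nc_inr i c (.mm i s a b) rfl).symm hne ?_ (ha_TT_single _)
      (fun i hi => by simp at hi) (fun i hi => by simp at hi)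
    rintro t ⟨z, ⟨z', hz', rfl⟩, ht⟩
    rw [ha_act_mm, Option.some.injEq] at ht
    have : z' ≠ s := by
      rintro rfl
      exact hs hz'
    rw [← ht, if_neg this]

private theorem ha_act_ff (t : Bool) (i : Fin m) (a b : Fin k) (z : Fin 4) (u : Th k m)
    (h : act (.ff t i a b) (.inr (i, z)) = some u) :
    (z = (pf t).1 ∧ u = .inl a) ∨ (z = (pf t).2 ∧ u = .inl b) := by
  by_cases h1 : z = (pf t).1
  · left
    refine ⟨h1, ?_⟩
    simpa [act, h1] using h.symm
  · by_cases h2 : z = (pf t).2
    · right
      refine ⟨h2, ?_⟩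
      simp only [act, if_true, if_neg h1, if_pos h2] at h
      simpa using h.symm
    · simp [act, h1, h2] at h

private theorem ha_fin4a : ∀ z : Fin 4, z ≠ 3 → z ≠ 0 → z ≠ 2 → z = 1 := by decide

private theorem ha_fin4b : ∀ z : Fin 4, z ≠ 1 → z ≠ 2 → z ≠ 3 → z = 0 := by decide

private theorem ha_ff (i : Fin m) (c : Fin 6) (S : Set (Th k m)) (t : Bool) (a b : Fin k)
    (h : Inv (.inr (i, c)) S) : HaGoal (.inr (i, c)) S (.ff t i a b) := by
  have hpf : (pf t).2 ≠ (pf t).1 := by cases t <;> simp [pf]
  have hA : act (m := m) (.ff t i a b) (.inr (i, (pf t).1)) = some (.inl a) := by simp [act]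
  have hB : act (m := m) (.ff t i a b) (.inr (i, (pf t).2)) = some (.inl b) := by simp [act, hpf]
  by_cases h1 : (pf t).1 ∈ tset c
  · by_cases h2 : (pf t).2 ∈ tset c
    · have hSne : (img (.ff t i a b) S).Nonempty := by
        by_contra hcon
        have hno : ∀ z : Fin 4, (Sum.inr (i, z) : Th k m) ∈ S → z ≠ (pf t).1 ∧ z ≠ (pf t).2 := by
          intro z hz
          constructor
          · rintro rfl
            exact hcon ⟨_, _, hz, hA⟩
          · rintro rfl
            exact hcon ⟨_, _, hz, hB⟩
        obtain ⟨x, hx⟩ := h.2.1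
        cases t
        · -- pf = (3, 0): c = 4
          have hc : c = 4 := by
            fin_cases c <;> simp [tset, pf] at h1 h2 ⊢
          subst hc
          refine h.2.2.1 i rfl ?_
          have hall : ∀ y ∈ S, y = .inr (i, 1) := by
            intro y hy
            obtain ⟨z, hz, rfl⟩ := h.1 hy
            have := hno z hy
            have hz2 : z ≠ 2 := by
              rcases hz with ⟨h, _⟩ | ⟨_, h⟩ | ⟨h, _⟩
              · exact absurd h (by decide)
              · exact h
              · exact absurd h (by decide)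
            have : z = 1 := ha_fin4a z this.1 this.2 hz2
            rw [this]
          ext y
          rw [Set.mem_singleton_iff]
          refine ⟨hall y, ?_⟩
          rintro rfl
          rw [hall x hx] at hx
          exact hx
        · have hc : c = 5 := by
            fin_cases c <;> simp [tset, pf] at h1 h2 ⊢
          subst hc
          refine h.2.2.2 i rfl ?_
          have hall : ∀ y ∈ S, y = .inr (i, 0) := by
            intro y hy
            obtain ⟨z, hz, rfl⟩ := h.1 hy
            have := hno z hy
            have hz2 : z ≠ 3 := by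
              rcases hz with ⟨h, _⟩ | ⟨h, _⟩ | ⟨_, h⟩
              · exact absurd h (by decide)
              · exact absurd h (by decide)
              · exact h
            have : z = 0 := ha_fin4b z this.1 this.2 hz2
            rw [this]
          ext y
          rw [Set.mem_singleton_iff]
          refine ⟨hall y, ?_⟩
          rintro rfl
          rw [hall x hx] at hx
          exact hx
      refine ha_C h (.inl s(a, b)) (ha_nc_inr i c (.ff t i a b) rfl).symm ?_ hSne (fun i hi => by simp at hi)
        (fun i hi => by simp at hi) ?_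
      · rintro u ⟨z, ⟨z', _, rfl⟩, hu⟩
        rw [ha_mem_inl]
        rcases ha_act_ff t i a b z' u hu with ⟨_, h⟩ | ⟨_, h⟩
        · exact Or.inl h
        · exact Or.inr h
      · rintro ⟨p, hp⟩
        exfalso
        have g1 : (Sum.inr (i, (pf t).1) : Th k m) ∈ ({p} : Set (Th k m)) := by
          rw [← hp]; exact ⟨_, h1, rfl⟩
        have g2 : (Sum.inr (i, (pf t).2) : Th k m) ∈ ({p} : Set (Th k m)) := by
          rw [← hp]; exact ⟨_, h2, rfl⟩
        have g3 : (Sum.inr (i, (pf t).2) : Th k m) = .inr (i, (pf t).1) := g2.trans g1.symm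
        exact hpf (by simpa using g3)
    · refine ha_A h (.inl s(a, a)) (.inl a) (ha_nc_inr i c (.ff t i a b) rfl).symm ⟨.inl a, _, ⟨_, h1, rfl⟩, hA⟩ ?_
        (ha_TT_single _) (fun i hi => by simp at hi) (fun i hi => by simp at hi)
      rintro u ⟨z, ⟨z', hz', rfl⟩, hu⟩
      rcases ha_act_ff t i a b z' u hu with ⟨_, h⟩ | ⟨h, _⟩
      · exact h
      · exact absurd (h ▸ hz') h2
  · by_cases h2 : (pf t).2 ∈ tset c
    · refine ha_A h (.inl s(b, b)) (.inl b) (ha_nc_inr i c (.ff t i a b) rfl).symm ⟨.inl b, _, ⟨_, h2, rfl⟩, hB⟩ ?_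
        (ha_TT_single _) (fun i hi => by simp at hi) (fun i hi => by simp at hi)
      rintro u ⟨z, ⟨z', hz', rfl⟩, hu⟩
      rcases ha_act_ff t i a b z' u hu with ⟨h, _⟩ | ⟨_, h⟩
      · exact absurd (h ▸ hz') h1
      · exact h
    · refine ha_B h (.inl s(a, b)) (ha_nc_inr i c (.ff t i a b) rfl).symm ?_ ?_
      · rw [Set.eq_empty_iff_forall_notMem]
        rintro u ⟨z, ⟨z', hz', rfl⟩, hu⟩
        rcases ha_act_ff t i a b z' u hu with ⟨h, _⟩ | ⟨h, _⟩
        · exact absurd (h ▸ hz') h1
        · exact absurd (h ▸ hz') h2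
      · rintro u ⟨z, hz, hu⟩
        rcases z with z | ⟨j, z⟩
        · simp [act] at hu
        · have hj : j = i := by
            by_contra hj
            simp [act, hj] at hu
          subst hj
          rw [ha_mem_inl]
          rcases ha_act_ff t j a b z u hu with ⟨_, h⟩ | ⟨_, h⟩
          · exact Or.inl h
          · exact Or.inr h

/-- one step of the strategy -/
theorem step_ex (q : SA k m) (S : Set (Th k m)) (a : Let k m) (h : Inv q S) :
    ∃ q', trans q a q' ∧ ((img a S).Nonempty → Inv q' (img a S)) ∧
      (img a S = ∅ → (img a (TT q)).Nonempty → ∃ x, TT q' = {x}) ∧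
      ((∃ x, TT q = {x}) → (img a (TT q)).Nonempty → ∃ x, TT q' = {x}) := by
  change HaGoal q S a
  by_cases hs : src a = scls q
  · rcases q with e | ⟨i, c⟩
    · induction e using Sym2.ind with
      | _ x y =>
        cases a with
        | perm g => exact ha_perm x y S g h
        | kp x' y' => exact ha_kp x y S x' y' h
        | jj x' i y' => exact ha_jj x y S x' i y' h
        | go t i a b => exact ha_go x y S t i a b h
        | zz i y' => simp [src, scls] at hs
        | mm i s a b => simp [src, scls] at hs
        | ff t i a b => simp [src, scls] at hs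
    · cases a with
      | perm g => simp [src, scls] at hs
      | kp x' y' => simp [src, scls] at hs
      | jj x' i' y' => simp [src, scls] at hs
      | go t i' a b => simp [src, scls] at hs
      | zz i' y' =>
        have : i' = i := by simpa [src, scls] using hs
        subst this
        exact ha_zz i' c S y' h
      | mm i' s a b =>
        have : i' = i := by simpa [src, scls] using hs
        subst this
        exact ha_mm i' c S s a b h
      | ff t i' a b =>
        have : i' = i := by simpa [src, scls] using hs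
        subst this
        exact ha_ff i' c S t a b h
  · exact ha_wrong h hs

end

end Pool.Agent.MAR
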