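import Pool.Agent.Lib_MP_cddbc9.HA

/-!
# The HD automaton: language and strategy (piece HB)

`autA k m hk`: states `SA k m`, initial state `s(0,0)`, transitions `trans`, priority `1` if `(img a (TT q)).Nonempty`, otherwise `0`.

* `lang ⊆ Lg none`: let `ρ` be an accepting run on `w` (infinitely often priority 0; the class of `ρ n` is `ncs none (seg w 0 n)`), and suppose
  a thread `x` of the right class at time `n` survives for ever, `x_j` its position at time `n + j`.  Take a time `n + j` with priority 0:
  `x_{j+1} ∈ img a {cls = scls (ρ ..)} ⊆ TT (ρ (n+j+1))`; from then on `x_j ∈ TT (ρ ..)` (step with nonempty image); at the next priority 0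
  step the image is empty, but `x_j` survives: contradiction.
* strategy: state of the memory `(q, S)` with `Inv q S`; new state `q'` by `step_ex`, new memory: `img a S` if nonempty, otherwise `TT q'`.
  The history determines the memory (fold over the list of letters; Eve's moves in the history can be ignored).
  If `w ∈ Lg none` then infinitely often priority 0: otherwise from some time `N` on all steps have nonempty `img a (TT q)`.
  Either `S` never becomes empty after `N` (then some thread of the finite set `S_N` survives for ever: contradiction to `w ∈ Lg none`;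
  the class of the threads in `TT q` is the class of `q`), or after a time with `img a S = ∅` the state is a singleton and `S = TT q`, and
  by the last clause of `step_ex` this stays so; the single thread survives for ever: contradiction.
  So the run of the strategy is accepting for `w ∈ Lg none`, which gives `Lg none ⊆ lang` and `HD`.
-/

set_option autoImplicit false

open Filter

namespace Pool.Agent.MAR

namespace HB

section
variable {k m : ℕ}

lemma seg_succ {A : Type} (w : ℕ → A) (n j : ℕ) : seg w n (j + 1) = seg w n j ++ [w (n + j)] := by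
  simp [seg, List.range_succ]

lemma ncs_append (c : Cl m) (u : List (Let k m)) (a : Let k m) : ncs c (u ++ [a]) = nc (ncs c u) a := by
  induction u generalizing c with
  | nil => rfl
  | cons b u ih => exact ih _

lemma acts_append (u : List (Let k m)) (a : Let k m) (x : Th k m) :
    acts (u ++ [a]) x = (acts u x).bind (act a) := by
  induction u generalizing x with
  | nil =>
    rcases h : act a x with _ | y
    · simp [acts, h]
    · simp [acts, h]
  | cons b u ih =>
    rw [List.cons_append, acts, acts]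
    rcases act b x with _ | y
    · rfl
    · exact ih y

lemma acts_seg_succ (w : ℕ → Let k m) (n j : ℕ) (x : Th k m) :
    acts (seg w n (j + 1)) x = (acts (seg w n j) x).bind (act (w (n + j))) := by
  rw [seg_succ, acts_append]

lemma acts_none_mono (w : ℕ → Let k m) (n : ℕ) (x : Th k m) {j j' : ℕ} (hj : j ≤ j')
    (h : acts (seg w n j) x = none) : acts (seg w n j') x = none := by
  induction j', hj using Nat.le_induction with
  | base => exact h
  | succ j' _ ih => rw [acts_seg_succ, ih]; rfl

lemma act_cls {a : Let k m} {x y : Th k m} (h : act a x = some y) : src a = cls x ∧ cls y = tgt a := by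
  rcases x with z | ⟨j, z⟩ <;> cases a <;> simp only [act] at h <;> (try split_ifs at h) <;>
    simp_all [src, tgt, cls] <;> (try subst h) <;> (try simp)

lemma act_nc {a : Let k m} {x y : Th k m} (h : act a x = some y) : cls y = nc (cls x) a := by
  obtain ⟨h1, h2⟩ := act_cls h
  rw [nc, if_pos h1, h2]

lemma scls_run {w : ℕ → Let k m} {ρ : ℕ → SA k m} (h0 : scls (ρ 0) = none)
    (h : ∀ n, trans (ρ n) (w n) (ρ (n + 1))) (n : ℕ) : scls (ρ n) = ncs none (seg w 0 n) := by
  induction n with
  | zero => exact h0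
  | succ n ih => rw [seg_succ, ncs_append, ← ih, (h n).1, zero_add]

/-- after a step with nonempty image -/
lemma trans_sub {q q' : SA k m} {a : Let k m} (h : trans q a q') (h1 : (img a (TT q)).Nonempty) :
    img a (TT q) ⊆ TT q' := by
  rcases h.2 with h2 | h2
  · exact h2.2
  · exact absurd h2.1 h1.ne_empty

lemma trans_sub' {q q' : SA k m} {a : Let k m} (h : trans q a q') (h1 : img a (TT q) = ∅) :
    img a {x | cls x = scls q} ⊆ TT q' := by
  rcases h.2 with h2 | h2
  · exact absurd h1 h2.1.ne_empty
  · exact h2.2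

/-- the first inclusion -/
lemma mem_Lg {w : ℕ → Let k m} {ρ : ℕ → SA k m} (h0 : scls (ρ 0) = none)
    (h : ∀ n, trans (ρ n) (w n) (ρ (n + 1))) (hf : ∃ᶠ i in atTop, img (w i) (TT (ρ i)) = ∅) :
    w ∈ Lg none := by
  intro n x hx
  by_contra hc
  push Not at hc
  have hs : ∀ j, ∃ y, acts (seg w n j) x = some y := fun j => Option.ne_none_iff_exists'.1 (hc j)
  choose X hX using hs
  have hX0 : X 0 = x := by
    have := hX 0
    simp only [seg, List.range_zero, List.map_nil, acts] at this
    exact (Option.some.inj this).symm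
  have hstep : ∀ j, act (w (n + j)) (X j) = some (X (j + 1)) := by
    intro j
    have h1 := hX (j + 1)
    rw [acts_seg_succ, hX j] at h1
    exact h1
  have hcls : ∀ j, cls (X j) = scls (ρ (n + j)) := by
    intro j
    induction j with
    | zero => rw [hX0, add_zero, scls_run h0 h, hx]
    | succ j ih => rw [act_nc (hstep j), ih, ← (h (n + j)).1]; rfl
  obtain ⟨i, hi, hi2⟩ := (frequently_atTop.1 hf) n
  obtain ⟨j, rfl⟩ := Nat.exists_eq_add_of_le hi
  have hin : ∀ l, X (j + 1 + l) ∈ TT (ρ (n + (j + 1 + l))) := by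
    intro l
    induction l with
    | zero => exact trans_sub' (h (n + j)) hi2 ⟨X j, hcls j, hstep j⟩
    | succ l ih =>
      have h1 : X (j + 1 + l + 1) ∈ img (w (n + (j + 1 + l))) (TT (ρ (n + (j + 1 + l)))) :=
        ⟨_, ih, hstep _⟩
      exact trans_sub (h (n + (j + 1 + l))) ⟨_, h1⟩ h1
  obtain ⟨i', hi', hi2'⟩ := (frequently_atTop.1 hf) (n + (j + 1))
  obtain ⟨l, rfl⟩ := Nat.exists_eq_add_of_le hi'
  have h1 : X (j + 1 + l + 1) ∈ img (w (n + (j + 1) + l)) (TT (ρ (n + (j + 1) + l))) := by
    have := hin l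
    have h2 := hstep (j + 1 + l)
    rw [← add_assoc] at this h2
    exact ⟨_, this, h2⟩
  rw [hi2'] at h1
  exact h1

/-- memory states -/
abbrev Mem (k m : ℕ) := {p : SA k m × Set (Th k m) // Inv p.1 p.2}

/-- the new state -/
noncomputable def nq (p : Mem k m) (a : Let k m) : SA k m := (step_ex p.1.1 p.1.2 a p.2).choose

lemma nq_spec (p : Mem k m) (a : Let k m) :
    trans p.1.1 a (nq p a) ∧ ((img a p.1.2).Nonempty → Inv (nq p a) (img a p.1.2)) ∧
      (img a p.1.2 = ∅ → (img a (TT p.1.1)).Nonempty → ∃ x, TT (nq p a) = {x}) ∧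
      ((∃ x, TT p.1.1 = {x}) → (img a (TT p.1.1)).Nonempty → ∃ x, TT (nq p a) = {x}) :=
  (step_ex p.1.1 p.1.2 a p.2).choose_spec

open Classical in
/-- the new memory -/
noncomputable def stp (p : Mem k m) (a : Let k m) : Mem k m :=
  if h : (img a p.1.2).Nonempty then ⟨(nq p a, img a p.1.2), (nq_spec p a).2.1 h⟩
  else ⟨(nq p a, TT (nq p a)), inv_TT _⟩

lemma stp_fst (p : Mem k m) (a : Let k m) : (stp p a).1.1 = nq p a := by
  unfold stp
  split_ifs <;> rfl

lemma stp_snd (p : Mem k m) (a : Let k m) (h : (img a p.1.2).Nonempty) : (stp p a).1.2 = img a p.1.2 := by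
  unfold stp
  rw [dif_pos h]

/-- the strategy wins -/
lemma wins {w : ℕ → Let k m} {M : ℕ → Mem k m} (h0 : scls (M 0).1.1 = none)
    (hM : ∀ n, M (n + 1) = stp (M n) (w n)) (hw : w ∈ Lg none) :
    ∃ᶠ i in atTop, img (w i) (TT (M i).1.1) = ∅ := by
  have hq : ∀ n, (M (n + 1)).1.1 = nq (M n) (w n) := fun n => by rw [hM n, stp_fst]
  have htr : ∀ n, trans (M n).1.1 (w n) (M (n + 1)).1.1 := fun n => by rw [hq n]; exact (nq_spec _ _).1
  have hcl := scls_run (ρ := fun n => (M n).1.1) h0 htr
  by_contra hc
  rw [not_frequently, eventually_atTop] at hc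
  obtain ⟨N, hN⟩ := hc
  have hN' : ∀ n ≥ N, (img (w n) (TT (M n).1.1)).Nonempty := fun n hn =>
    Set.nonempty_iff_ne_empty.2 (hN n hn)
  by_cases hcase : ∃ n ≥ N, img (w n) (M n).1.2 = ∅
  · obtain ⟨n, hn, he⟩ := hcase
    have hsing : ∀ j, ∃ x, TT (M (n + 1 + j)).1.1 = {x} := by
      intro j
      induction j with
      | zero =>
        rw [add_zero, hq n]
        exact (nq_spec _ _).2.2.1 he (hN' n hn)
      | succ j ih =>
        have : n + 1 + (j + 1) = (n + 1 + j) + 1 := rfl
        rw [this, hq]
        exact (nq_spec _ _).2.2.2 ih (hN' _ (by omega))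
    choose x hx using hsing
    have hstep : ∀ j, act (w (n + 1 + j)) (x j) = some (x (j + 1)) := by
      intro j
      obtain ⟨y, hy⟩ := hN' (n + 1 + j) (by omega)
      have h1 : y ∈ TT (M (n + 1 + (j + 1))).1.1 :=
        trans_sub (htr (n + 1 + j)) ⟨y, hy⟩ hy
      rw [hx (j + 1), Set.mem_singleton_iff] at h1
      obtain ⟨z, hz, hzy⟩ := hy
      rw [hx j, Set.mem_singleton_iff] at hz
      rw [← hz, ← h1]
      exact hzy
    have hall : ∀ j, acts (seg w (n + 1) j) (x 0) = some (x j) := by
      intro j
      induction j with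
      | zero => rfl
      | succ j ih =>
        rw [acts_seg_succ, ih]
        exact hstep j
    have hc0 : cls (x 0) = ncs none (seg w 0 (n + 1)) := by
      rw [← hcl (n + 1)]
      refine cls_TT ?_
      have := hx 0
      rw [add_zero] at this
      change x 0 ∈ TT (M (n + 1)).1.1
      rw [this]
      exact rfl
    obtain ⟨j, hj⟩ := hw (n + 1) (x 0) hc0
    rw [hall j] at hj
    exact Option.some_ne_none _ hj
  · push Not at hcase
    have hne : ∀ n ≥ N, (img (w n) (M n).1.2).Nonempty := hcase
    have hS : ∀ j, (M (N + j)).1.2 = {y | ∃ x ∈ (M N).1.2, acts (seg w N j) x = some y} := by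
      intro j
      induction j with
      | zero =>
        ext y
        constructor
        · intro hy
          exact ⟨y, hy, rfl⟩
        · rintro ⟨x, hx, h⟩
          have : x = y := Option.some.inj h
          rw [← this]
          exact hx
      | succ j ih =>
        have h1 : (M (N + (j + 1))).1.2 = img (w (N + j)) (M (N + j)).1.2 := by
          have : N + (j + 1) = (N + j) + 1 := rfl
          rw [this, hM, stp_snd _ _ (hne _ (by omega))]
        rw [h1, ih]
        ext y
        constructor
        · rintro ⟨z, ⟨x, hx, hz⟩, hy⟩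
          refine ⟨x, hx, ?_⟩
          rw [acts_seg_succ, hz]
          exact hy
        · rintro ⟨x, hx, h⟩
          rw [acts_seg_succ] at h
          obtain ⟨z, hz, hy⟩ := Option.bind_eq_some_iff.1 h
          exact ⟨z, ⟨x, hx, hz⟩, hy⟩
    have hdie : ∀ x : Th k m, ∃ j, x ∈ (M N).1.2 → acts (seg w N j) x = none := by
      intro x
      by_cases hx : x ∈ (M N).1.2
      · obtain ⟨j, hj⟩ := hw N x (by rw [← hcl N]; exact cls_TT ((M N).2.1 hx))
        exact ⟨j, fun _ => hj⟩
      · exact ⟨0, fun h => absurd h hx⟩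
    choose J hJ using hdie
    let J0 := Finset.univ.sup J
    obtain ⟨y, hy⟩ := (M (N + J0)).2.2.1
    rw [hS J0] at hy
    obtain ⟨x, hx, h⟩ := hy
    rw [acts_none_mono w N x (Finset.le_sup (Finset.mem_univ x)) (hJ x hx)] at h
    exact Option.some_ne_none _ h.symm

end

open Classical in
/-- the HD automaton -/
noncomputable def autA (k m : ℕ) (hk : 0 < k) : NPA (Let k m) where
  Q := SA k m
  fin := inferInstance
  q0 := .inl s(⟨0, hk⟩, ⟨0, hk⟩)
  Δ := trans
  pr q a _ := if (img a (TT q)).Nonempty then 1 else 0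

lemma parity_of {p : ℕ → ℕ} (h : ∃ᶠ i in atTop, p i = 0) : ParityAcc p :=
  ⟨0, Even.zero, h, fun _ hn => absurd hn (Nat.not_lt_zero _)⟩

lemma of_parity {p : ℕ → ℕ} (hp : ∀ i, p i ≤ 1) (h : ParityAcc p) : ∃ᶠ i in atTop, p i = 0 := by
  obtain ⟨n, hn, h1, -⟩ := h
  obtain ⟨i, hi⟩ := h1.exists
  have h2 := hp i
  rw [hi] at h2
  obtain rfl : n = 0 := by
    rcases hn with ⟨r, hr⟩
    omega
  exact h1

end HB

open HB in
/-- the HD automaton exists -/
theorem exists_HD (k m : ℕ) (hk : 0 < k) : ∃ B : NPA (Let k m), B.lang = Lg none ∧ B.HD ∧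
    B.size = k * (k + 1) / 2 + 6 * m ∧ ∀ q a q', B.pr q a q' ≤ 1 := by
  classical
  have hpr : ∀ q a q', (autA k m hk).pr q a q' ≤ 1 := by
    intro q a q'
    change (if (img a (TT q)).Nonempty then 1 else 0) ≤ 1
    split_ifs <;> simp
  have hpr0 : ∀ (w : ℕ → Let k m) (ρ : ℕ → SA k m) (i : ℕ),
      (autA k m hk).prs w ρ i = 0 ↔ img (w i) (TT (ρ i)) = ∅ := by
    intro w ρ i
    change (if (img (w i) (TT (ρ i))).Nonempty then 1 else 0) = 0 ↔ _
    rw [Set.nonempty_iff_ne_empty]
    by_cases h : img (w i) (TT (ρ i)) = ∅ <;> simp [h]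
  have hsub : ∀ w, w ∈ (autA k m hk).lang → w ∈ Lg none := by
    rintro w ⟨ρ, ⟨h0, h1⟩, h2⟩
    refine mem_Lg (ρ := ρ) (by rw [h0]; rfl) h1 ?_
    refine (of_parity (fun i => hpr _ _ _) h2).mono fun i hi => ?_
    exact (hpr0 w ρ i).1 hi
  let m0 : Mem k m := ⟨((autA k m hk).q0, TT (autA k m hk).q0), inv_TT _⟩
  have hwin : ∀ (w : ℕ → Let k m) (M : ℕ → Mem k m), M 0 = m0 → (∀ n, M (n + 1) = stp (M n) (w n)) →
      w ∈ Lg none → ParityAcc ((autA k m hk).prs w fun n => (M n).1.1) := by
    intro w M h0 h1 hw
    refine parity_of ?_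
    refine (wins (M := M) (by rw [h0]; rfl) h1 hw).mono fun i hi => ?_
    exact (hpr0 w _ i).2 hi
  have htr : ∀ (w : ℕ → Let k m) (M : ℕ → Mem k m), (∀ n, M (n + 1) = stp (M n) (w n)) →
      ∀ n, trans (M n).1.1 (w n) (M (n + 1)).1.1 := by
    intro w M h1 n
    rw [h1 n, stp_fst]
    exact (nq_spec _ _).1
  refine ⟨autA k m hk, ?_, ?_, card_SA k m, hpr⟩
  · refine Set.Subset.antisymm hsub fun w hw => ?_
    let M : ℕ → Mem k m := fun n => Nat.rec m0 (fun n p => stp p (w n)) n
    exact ⟨fun n => (M n).1.1, ⟨rfl, htr w M fun n => rfl⟩, hwin w M rfl (fun n => rfl) hw⟩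
  · refine ⟨fun h a => (stp (h.foldl (fun p x => stp p x.1) m0) a).1.1, fun w ρ h0 h1 => ?_⟩
    let M : ℕ → Mem k m := fun n => ((autA k m hk).hist w ρ n).foldl (fun p x => stp p x.1) m0
    have hM : ∀ n, M (n + 1) = stp (M n) (w n) := by
      intro n
      change ((autA k m hk).hist w ρ (n + 1)).foldl (fun p x => stp p x.1) m0 = _
      rw [NPA.hist, List.range_succ, List.map_append, List.foldl_append]
      rfl
    have hρ : ρ = fun n => (M n).1.1 := by
      funext n
      cases n with
      | zero => exact h0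
      | succ n =>
        rw [h1 n, hM n]
    constructor
    · intro n
      rw [hρ]
      exact htr w M hM n
    · intro hw
      rw [hρ]
      exact hwin w M rfl hM (hsub w hw)

end Pool.Agent.MAR
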