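import Pool.Agent.Lib_MP_cddbc9.Defs

/-!
# Existence of the law of the play (piece LX)

Ionescu-Tulcea: `ProbabilityTheory.Kernel.traj` (or `trajMeasure`) for the kernels which send the history `(ρ 0, …, ρ n)` to
`(r.σ (ρ n) (B.ltr α ρ n)).toMeasure` (`B.ltr α ρ n` depends only on `ρ 0, …, ρ n`; all finite powers of the finite type `B.Q` are discrete), started
at `B.q0`.  If Mathlib's `traj` is awkward, any other construction is fine (for example the image of the product measure `Measure.infinitePi` of
uniform variables under the recursive simulation of the play).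
-/

set_option autoImplicit false

open Filter MeasureTheory

namespace Pool.Agent.MAR

/-- the history of the play depends only on the states up to now -/
private lemma law_hs_congr {A : Type} (B : NPA A) (α : List (A × B.Q) → A) {ρ ρ' : ℕ → B.Q} :
    ∀ n : ℕ, (∀ i ≤ n, ρ i = ρ' i) → B.hs α ρ n = B.hs α ρ' n := by
  intro n
  induction n with
  | zero => intro _; rfl
  | succ n ih =>
    intro h
    have h1 := ih (fun i hi => h i (by omega))
    simp only [NPA.hs]
    rw [h1, h (n + 1) le_rfl]

private lemma law_ltr_congr {A : Type} (B : NPA A) (α : List (A × B.Q) → A) {ρ ρ' : ℕ → B.Q} (n : ℕ)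
    (h : ∀ i ≤ n, ρ i = ρ' i) : B.ltr α ρ n = B.ltr α ρ' n := by
  simp only [NPA.ltr]
  rw [law_hs_congr B α n h]

/-- extension of a finite history -/
private def law_ext {Q : Type} (n : ℕ) (x : (i : Finset.Iic n) → (fun _ : ℕ => Q) i) : ℕ → Q :=
  fun i => x ⟨min i n, Finset.mem_Iic.2 (min_le_right _ _)⟩

private lemma law_ext_apply {Q : Type} (n : ℕ) (h : ℕ → Q) (i : ℕ) (hi : i ≤ n) :
    law_ext n (fun j : Finset.Iic n => h j) i = h i := by
  simp [law_ext, min_eq_left hi]

theorem law_exists {A : Type} (B : NPA A) (r : B.Resolver) (α : List (A × B.Q) → A) :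
    ∃ μ : Measure (ℕ → B.Q), B.IsLaw r α μ := by
  classical
  haveI : Fintype B.Q := B.fin
  haveI hms : MeasurableSingletonClass B.Q := ⟨fun _ => MeasurableSpace.measurableSet_top⟩
  -- the kernels
  let X : ℕ → Type := fun _ => B.Q
  let K : (n : ℕ) → ((i : Finset.Iic n) → X i) → Measure (X (n + 1)) := fun n x =>
    (r.σ (law_ext n x n) (B.ltr α (law_ext n x) n)).toMeasure
  haveI hc : ∀ n : ℕ, Countable ((i : Finset.Iic n) → X i) := fun n => by
    haveI : ∀ i : Finset.Iic n, Finite (X i) := fun _ => (inferInstance : Finite B.Q)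
    infer_instance
  haveI hs : ∀ n : ℕ, MeasurableSingletonClass ((i : Finset.Iic n) → X i) := fun n => by
    haveI : ∀ i : Finset.Iic n, MeasurableSingletonClass (X i) := fun _ => hms
    infer_instance
  let κ : (n : ℕ) → ProbabilityTheory.Kernel ((i : Finset.Iic n) → X i) (X (n + 1)) := fun n =>
    ProbabilityTheory.Kernel.ofFunOfCountable (K n)
  haveI hκ : ∀ n, ProbabilityTheory.IsMarkovKernel (κ n) := fun n =>
    ⟨fun x => (PMF.toMeasure.isProbabilityMeasure _ : IsProbabilityMeasure (K n x))⟩
  let x₀ : (i : Finset.Iic 0) → X i := fun _ => B.q0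
  let μ : Measure ((n : ℕ) → X n) := ProbabilityTheory.Kernel.traj κ 0 x₀
  haveI hμ : IsProbabilityMeasure μ := inferInstanceAs (IsProbabilityMeasure (ProbabilityTheory.Kernel.traj κ 0 x₀))
  -- cylinders
  have hcyl : ∀ (n : ℕ) (h : ℕ → B.Q), μ {ρ | ∀ i ≤ n, ρ i = h i} =
      ProbabilityTheory.Kernel.partialTraj κ 0 n x₀ {fun j : Finset.Iic n => h j} := by
    intro n h
    rw [← ProbabilityTheory.Kernel.traj_map_frestrictLe_apply]
    rw [Measure.map_apply (Preorder.measurable_frestrictLe n) (measurableSet_singleton _)]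
    congr 1
    ext ρ
    simp only [Set.mem_setOf_eq, Set.mem_preimage, Set.mem_singleton_iff]
    constructor
    · intro hh
      funext j
      exact hh j (Finset.mem_Iic.1 j.2)
    · intro hh i hi
      have := congrFun hh ⟨i, Finset.mem_Iic.2 hi⟩
      exact this
  refine ⟨μ, ⟨hμ, ?_, ?_⟩⟩
  · have h0 := hcyl 0 (fun _ => B.q0)
    have e : {ρ : ℕ → B.Q | ρ 0 = B.q0} = {ρ | ∀ i ≤ 0, ρ i = (fun _ => B.q0) i} := by
      ext ρ
      simp
    rw [e]
    refine h0.trans ?_
    rw [ProbabilityTheory.Kernel.partialTraj_self, ProbabilityTheory.Kernel.id_apply,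
      Measure.dirac_apply' _ (measurableSet_singleton _)]
    simp [x₀]
  · intro n h
    have hpr := ProbabilityTheory.Kernel.partialTraj_compProd_eq_map_traj (κ := κ) (Nat.zero_le n) (x₀ := x₀)
    have h1 : μ {ρ | ∀ i ≤ n + 1, ρ i = h i} =
        (μ.map (fun x => (Preorder.frestrictLe n x, x (n + 1))))
          ({fun j : Finset.Iic n => h j} ×ˢ {h (n + 1)}) := by
      rw [Measure.map_apply ?_ ?_]
      · congr 1
        ext ρ
        simp only [Set.mem_setOf_eq, Set.mem_preimage, Set.mem_prod, Set.mem_singleton_iff]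
        constructor
        · intro hh
          refine ⟨?_, hh (n + 1) le_rfl⟩
          funext j
          exact hh j (le_trans (Finset.mem_Iic.1 j.2) (Nat.le_succ n))
        · rintro ⟨hh, hh'⟩ i hi
          rcases Nat.lt_or_ge n i with hn | hn
          · have : i = n + 1 := by omega
            subst this
            exact hh'
          · exact congrFun hh ⟨i, Finset.mem_Iic.2 hn⟩
      · exact (Preorder.measurable_frestrictLe n).prodMk (measurable_pi_apply (n + 1))
      · exact (measurableSet_singleton _).prod (measurableSet_singleton _)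
    rw [h1]
    change (Measure.map _ (ProbabilityTheory.Kernel.traj κ 0 x₀)) _ = _
    rw [← hpr, Measure.compProd_apply_prod (measurableSet_singleton _) (measurableSet_singleton _),
      lintegral_singleton]
    rw [hcyl n h]
    rw [mul_comm]
    congr 1
    change (K n (fun j : Finset.Iic n => h j)) {h (n + 1)} = _
    simp only [K]
    rw [PMF.toMeasure_apply_singleton _ _ (measurableSet_singleton _), law_ext_apply n h n le_rfl,
      law_ltr_congr B α n (fun i hi => law_ext_apply n h i hi)]

end Pool.Agent.MAR
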