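import Pool.Agent.Lib_MP_cddbc9.Defs

/-!
# Lower bound, part A: closed walks, `T`, heights (piece LA)

Section 3 of /team-store/ma_hd_proof.md: `T_ne` (concatenate odd closed walks which kill the threads one after the other; `kill`),
`T_map` = (L4) (insert an odd closed walk at `q'`), heights `ht` = number of reachable pairs, `ht_lt` = (L5): otherwise the pair `(q', y')` reaches
`(q, y)`, the closed walk fixes `y`, is odd by `oddfix` (it is nonempty as `w` kills `x`), and kills `x ∈ T q`.
-/

set_option autoImplicit false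

open Filter

namespace Pool.Agent.MAR

section
variable {k m : ℕ}

theorem acts_append (u v : List (Let k m)) (x : Th k m) : acts (u ++ v) x = (acts u x).bind (acts v) := by
  induction u generalizing x with
  | nil => rfl
  | cons a u ih =>
    have h : acts (u ++ v) = fun z => (acts u z).bind (acts v) := funext fun z => ih z
    show (act a x).bind (acts (u ++ v)) = ((act a x).bind (acts u)).bind (acts v)
    rw [h, Option.bind_assoc]

theorem ncs_append (u v : List (Let k m)) (c : Cl m) : ncs c (u ++ v) = ncs (ncs c u) v := by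
  induction u generalizing c with
  | nil => rfl
  | cons a u ih => exact ih (nc c a)

theorem drun_append {Q A : Type} (δ : Q → A → Q) (q : Q) (u v : List A) : drun δ q (u ++ v) = drun δ (drun δ q u) v := by
  induction u generalizing q with
  | nil => rfl
  | cons a u ih => exact ih (δ q a)

theorem wpr_append {Q A : Type} (δ : Q → A → Q) (pr : Q → A → ℕ) (q : Q) (u v : List A) :
    wpr δ pr q (u ++ v) = wpr δ pr q u ++ wpr δ pr (drun δ q u) v := by
  induction u generalizing q with
  | nil => rfl
  | cons a u ih =>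
    show pr q a :: wpr δ pr (δ q a) (u ++ v) = _
    rw [ih (δ q a)]
    rfl

theorem act_cls {a : Let k m} {x y : Th k m} (h : act a x = some y) : src a = cls x ∧ tgt a = cls y := by
  cases a <;> cases x <;> simp only [act] at h <;> (try split_ifs at h) <;>
    simp_all [src, tgt, cls] <;> (try (subst h; simp [cls]))

theorem acts_cls {u : List (Let k m)} {x y : Th k m} (h : acts u x = some y) : cls y = ncs (cls x) u := by
  induction u generalizing x with
  | nil =>
    have h' : x = y := Option.some.inj h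
    rw [h']
    rfl
  | cons a u ih =>
    obtain ⟨z, hz, hy⟩ := Option.bind_eq_some_iff.1 (show (act a x).bind (acts u) = some y from h)
    obtain ⟨h1, h2⟩ := act_cls hz
    rw [ih hy]
    show ncs (cls z) u = ncs (nc (cls x) a) u
    rw [nc, if_pos h1, h2]

variable (D : DM k m)

theorem DM.cl_run (q : D.Q) (u : List (Let k m)) : D.cl (drun D.δ q u) = ncs (D.cl q) u := by
  induction u generalizing q with
  | nil => rfl
  | cons a u ih =>
    show D.cl (drun D.δ (D.δ q a) u) = ncs (nc (D.cl q) a) u
    rw [ih, D.hcl]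

theorem odd_concat {Q A : Type} {δ : Q → A → Q} {pr : Q → A → ℕ} {q : Q} {u v : List A} (h : drun δ q u = q)
    (hu : OddW δ pr q u) (hv : OddW δ pr q v) : OddW δ pr q (u ++ v) := by
  obtain ⟨n1, h1, o1, l1⟩ := hu
  obtain ⟨n2, h2, o2, l2⟩ := hv
  have hw : wpr δ pr q (u ++ v) = wpr δ pr q u ++ wpr δ pr q v := by
    rw [wpr_append, h]
  unfold OddW
  rw [hw]
  rcases le_total n1 n2 with h12 | h12
  · refine ⟨n1, List.mem_append_left _ h1, o1, fun n' hn' => ?_⟩
    rcases List.mem_append.1 hn' with h3 | h3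
    · exact l1 n' h3
    · exact h12.trans (l2 n' h3)
  · refine ⟨n2, List.mem_append_right _ h2, o2, fun n' hn' => ?_⟩
    rcases List.mem_append.1 hn' with h3 | h3
    · exact h12.trans (l1 n' h3)
    · exact l2 n' h3

theorem odd_insert {Q A : Type} {δ : Q → A → Q} {pr : Q → A → ℕ} {q q' : Q} {u u' s : List A} (h : drun δ q u = q')
    (h' : drun δ q' s = q') (hu : OddW δ pr q (u ++ u')) (hs : OddW δ pr q' s) : OddW δ pr q (u ++ (s ++ u')) := by
  obtain ⟨n1, h1, o1, l1⟩ := hu
  obtain ⟨n2, h2, o2, l2⟩ := hs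
  have hw : wpr δ pr q (u ++ (s ++ u')) = wpr δ pr q u ++ (wpr δ pr q' s ++ wpr δ pr q' u') := by
    rw [wpr_append, h, wpr_append, h']
  have hw' : wpr δ pr q (u ++ u') = wpr δ pr q u ++ wpr δ pr q' u' := by
    rw [wpr_append, h]
  rw [hw'] at h1 l1
  have hsub : ∀ n ∈ wpr δ pr q u ++ wpr δ pr q' u',
      n ∈ wpr δ pr q u ++ (wpr δ pr q' s ++ wpr δ pr q' u') := by
    intro n hn
    rcases List.mem_append.1 hn with h3 | h3
    · exact List.mem_append_left _ h3
    · exact List.mem_append_right _ (List.mem_append_right _ h3)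
  have hcas : ∀ n ∈ wpr δ pr q u ++ (wpr δ pr q' s ++ wpr δ pr q' u'),
      n ∈ wpr δ pr q u ++ wpr δ pr q' u' ∨ n ∈ wpr δ pr q' s := by
    intro n hn
    rcases List.mem_append.1 hn with h3 | h3
    · exact Or.inl (List.mem_append_left _ h3)
    · rcases List.mem_append.1 h3 with h4 | h4
      · exact Or.inr h4
      · exact Or.inl (List.mem_append_right _ h4)
  unfold OddW
  rw [hw]
  rcases le_total n1 n2 with h12 | h12
  · refine ⟨n1, hsub n1 h1, o1, fun n' hn' => ?_⟩
    rcases hcas n' hn' with h3 | h3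
    · exact l1 n' h3
    · exact h12.trans (l2 n' h3)
  · refine ⟨n2, List.mem_append_right _ (List.mem_append_left _ h2), o2, fun n' hn' => ?_⟩
    rcases hcas n' hn' with h3 | h3
    · exact h12.trans (l1 n' h3)
    · exact l2 n' h3

theorem odd_rot {Q A : Type} {δ : Q → A → Q} {pr : Q → A → ℕ} {q q' : Q} {u u' : List A} (h : drun δ q u = q')
    (h' : drun δ q' u' = q) (hu : OddW δ pr q (u ++ u')) : OddW δ pr q' (u' ++ u) := by
  obtain ⟨n1, h1, o1, l1⟩ := hu
  have hw : wpr δ pr q (u ++ u') = wpr δ pr q u ++ wpr δ pr q' u' := by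
    rw [wpr_append, h]
  have hw' : wpr δ pr q' (u' ++ u) = wpr δ pr q' u' ++ wpr δ pr q u := by
    rw [wpr_append, h']
  rw [hw] at h1 l1
  unfold OddW
  rw [hw']
  exact ⟨n1, List.mem_append.2 (List.mem_append.1 h1).symm, o1,
    fun n' hn' => l1 n' (List.mem_append.2 (List.mem_append.1 hn').symm)⟩

/-- threads of the class of `q` which survive all odd closed walks at `q` -/
def DM.T (q : D.Q) : Set (Th k m) :=
  {x | cls x = D.cl q ∧ ∀ u, drun D.δ q u = q → OddW D.δ D.pr q u → acts u x ≠ none}

theorem DM.T_ne (hk : 0 < k) (q : D.Q) : (D.T q).Nonempty := by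
  classical
  by_contra hne
  rw [Set.not_nonempty_iff_eq_empty] at hne
  -- every thread of the class of `q` is killed by an odd closed walk
  have hkill : ∀ x : Th k m, cls x = D.cl q →
      ∃ u, drun D.δ q u = q ∧ OddW D.δ D.pr q u ∧ acts u x = none := by
    intro x hx
    by_contra hcon
    push Not at hcon
    have hmem : x ∈ D.T q := ⟨hx, fun u h1 h2 => hcon u h1 h2⟩
    rw [hne] at hmem
    exact hmem
  have hx0 : ∃ x : Th k m, cls x = D.cl q := by
    rcases hc : D.cl q with _ | i
    · exact ⟨.inl ⟨0, hk⟩, rfl⟩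
    · exact ⟨.inr (i, 0), rfl⟩
  have hall : ∀ S : Finset (Th k m), ∃ u, drun D.δ q u = q ∧ OddW D.δ D.pr q u ∧
      ∀ x ∈ S, cls x = D.cl q → acts u x = none := by
    intro S
    induction S using Finset.induction_on with
    | empty =>
      obtain ⟨x0, hx0⟩ := hx0
      obtain ⟨u, h1, h2, _⟩ := hkill x0 hx0
      exact ⟨u, h1, h2, fun x hx => absurd hx (Finset.notMem_empty x)⟩
    | insert x S _ ih =>
      obtain ⟨u, h1, h2, h3⟩ := ih
      by_cases hx : cls x = D.cl q
      · rcases hux : acts u x with _ | y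
        · refine ⟨u, h1, h2, fun z hz hcz => ?_⟩
          rcases Finset.mem_insert.1 hz with rfl | hz
          · exact hux
          · exact h3 z hz hcz
        · have hy : cls y = D.cl q := by
            rw [acts_cls hux, hx, ← D.cl_run, h1]
          obtain ⟨v, h4, h5, h6⟩ := hkill y hy
          refine ⟨u ++ v, ?_, odd_concat h1 h2 h5, fun z hz hcz => ?_⟩
          · rw [drun_append, h1, h4]
          · rw [acts_append]
            rcases Finset.mem_insert.1 hz with rfl | hz
            · rw [hux]
              exact h6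
            · rw [h3 z hz hcz]
              rfl
      · refine ⟨u, h1, h2, fun z hz hcz => ?_⟩
        rcases Finset.mem_insert.1 hz with rfl | hz
        · exact absurd hcz hx
        · exact h3 z hz hcz
  obtain ⟨u, h1, h2, h3⟩ := hall Finset.univ
  exact D.kill q u h1 (fun x hx => h3 x (Finset.mem_univ x) hx) h2

theorem DM.T_map {q q' : D.Q} {u u' : List (Let k m)} (h : drun D.δ q u = q') (h' : drun D.δ q' u' = q)
    (ho : OddW D.δ D.pr q (u ++ u')) {x : Th k m} (hx : x ∈ D.T q) : ∃ y ∈ D.T q', acts u x = some y := by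
  have hcl : drun D.δ q (u ++ u') = q := by
    rw [drun_append, h, h']
  have h1 := hx.2 _ hcl ho
  rw [acts_append] at h1
  rcases hux : acts u x with _ | y
  · rw [hux] at h1
    exact absurd rfl h1
  · refine ⟨y, ⟨?_, ?_⟩, rfl⟩
    · rw [acts_cls hux, hx.1, ← D.cl_run, h]
    · intro v hv hov hvy
      have h2 : drun D.δ q (u ++ (v ++ u')) = q := by
        rw [drun_append, h, drun_append, hv, h']
      refine hx.2 _ h2 (odd_insert h hv ho hov) ?_
      rw [acts_append, hux]
      show acts (v ++ u') y = none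
      rw [acts_append, hvy]
      rfl

/-- reachability of pairs (state, thread) -/
def DM.To (p p' : D.Q × Th k m) : Prop := ∃ u, drun D.δ p.1 u = p'.1 ∧ acts u p.2 = some p'.2

theorem DM.To.refl (p : D.Q × Th k m) : D.To p p := by
  exact ⟨[], rfl, rfl⟩

theorem DM.To.trans {p p' p'' : D.Q × Th k m} (h : D.To p p') (h' : D.To p' p'') : D.To p p'' := by
  obtain ⟨u, h1, h2⟩ := h
  obtain ⟨v, h3, h4⟩ := h'
  refine ⟨u ++ v, ?_, ?_⟩
  · rw [drun_append, h1, h3]
  · rw [acts_append, h2]
    exact h4

/-- the height of a pair: number of reachable pairs -/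
noncomputable def DM.ht (p : D.Q × Th k m) : ℕ := {p' | D.To p p'}.ncard

theorem DM.ht_pos (p : D.Q × Th k m) : 0 < D.ht p := by
  haveI := D.fin
  exact (Set.ncard_pos (Set.toFinite _)).2 ⟨p, DM.To.refl D p⟩

theorem DM.ht_le {p p' : D.Q × Th k m} (h : D.To p p') : D.ht p' ≤ D.ht p := by
  haveI := D.fin
  exact Set.ncard_le_ncard (fun r hr => DM.To.trans D h hr) (Set.toFinite _)

theorem DM.ht_back {p p' : D.Q × Th k m} (h : D.To p p') (h' : D.ht p ≤ D.ht p') : D.To p' p := by
  haveI := D.fin
  have h1 : {r | D.To p' r} = {r | D.To p r} :=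
    Set.eq_of_subset_of_ncard_le (fun r hr => DM.To.trans D h hr) h' (Set.toFinite _)
  have h2 : p ∈ {r | D.To p r} := DM.To.refl D p
  rw [← h1] at h2
  exact h2

theorem DM.ht_lt {q q' : D.Q} {w : List (Let k m)} {x y y' : Th k m} (hw : drun D.δ q w = q') (hx : x ∈ D.T q)
    (hxw : acts w x = none) (hy : cls y = D.cl q) (hyw : acts w y = some y') : D.ht (q', y') < D.ht (q, y) := by
  by_contra hcon
  have hle : D.ht (q, y) ≤ D.ht (q', y') := not_lt.1 hcon
  obtain ⟨u, h1, h2⟩ := D.ht_back (p := (q, y)) (p' := (q', y')) ⟨w, hw, hyw⟩ hle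
  have h1' : drun D.δ q' u = q := h1
  have h2' : acts u y' = some y := h2
  have hne : w ++ u ≠ [] := by
    intro h0
    have h3 : w = [] := (List.append_eq_nil_iff.1 h0).1
    rw [h3] at hxw
    exact absurd hxw (by simp [acts])
  have hcl : drun D.δ q (w ++ u) = q := by
    rw [drun_append, hw, h1']
  have hfix : acts (w ++ u) y = some y := by
    rw [acts_append, hyw]
    exact h2'
  refine hx.2 _ hcl (D.oddfix q _ y hne hcl hy hfix) ?_
  rw [acts_append, hxw]
  rfl

end

end Pool.Agent.MAR
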