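import Pool.Agent.Lib_MP_cddbc9.LowA

/-!
# Lower bound, part B: recurrent states, twins, descent (piece LB)

Section 3 of /team-store/ma_hd_proof.md.

`rec_back`: from a recurrent `q` after the perm word `gs` one can return to `q` with total permutation `1`: return by some word, total permutation `g` of the
closed walk, repeat the closed walk `orderOf g` times.
`rec_exists`: a state with the least number of perm-reachable states among the perm-reachable states of `q` is recurrent; then one more letter `perm g⁻¹`.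
`rec_perm`: closed perm walks with total permutation `1` fix the threads, so they are odd (`oddfix`), `T_map` in both directions.
`tw1`, `tw2`: pigeonhole: `(a, b) ↦ D.δ q (perm g)` with `g x = a`, `g y = b` is not injective on the `k (k-1)` ordered pairs.
`pd`: induction over `N`; case A (some `x ∈ S q` with `x ≠ y, z`): letter `kp y z`, `ht_lt`, then `rec_exists`; case B: `S q = {y}` or `{z}` (`S q` is nonempty): `tw1`, then case A.
-/

set_option autoImplicit false

open Filter

namespace Pool.Agent.MAR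

section
variable {k m : ℕ}

/-- total permutation of a list of permutation letters -/
def pprod : List (Equiv.Perm (Fin k)) → Equiv.Perm (Fin k)
  | [] => 1
  | g :: gs => pprod gs * g

theorem acts_perms (gs : List (Equiv.Perm (Fin k))) (x : Fin k) :
    acts (gs.map (Let.perm (m := m))) (.inl x) = some (.inl (pprod gs x)) := by
  induction gs generalizing x with
  | nil => rfl
  | cons g gs ih =>
    rw [List.map_cons]
    change (act (Let.perm (m := m) g) (.inl x)).bind (acts (gs.map Let.perm)) = _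
    change (some (Sum.inl (g x) : Th k m)).bind (acts (gs.map Let.perm)) = _
    rw [Option.bind_some, ih (g x)]
    rfl

private theorem LowB_pprod_append (a b : List (Equiv.Perm (Fin k))) :
    pprod (a ++ b) = pprod b * pprod a := by
  induction a with
  | nil => simp [pprod]
  | cons g gs ih =>
    rw [List.cons_append]
    change pprod (gs ++ b) * g = pprod b * (pprod gs * g)
    rw [ih, mul_assoc]

private theorem LowB_exists_perm {x y a b : Fin k} (hxy : x ≠ y) (hab : a ≠ b) :
    ∃ g : Equiv.Perm (Fin k), g x = a ∧ g y = b := by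
  have h1 : Equiv.swap x a y ≠ a := by
    intro h
    have h2 : Equiv.swap x a y = Equiv.swap x a x := by rw [h, Equiv.swap_apply_left]
    exact hxy ((Equiv.swap x a).injective h2).symm
  refine ⟨Equiv.swap (Equiv.swap x a y) b * Equiv.swap x a, ?_, ?_⟩
  · rw [Equiv.Perm.mul_apply, Equiv.swap_apply_left]
    exact Equiv.swap_apply_of_ne_of_ne h1.symm hab
  · rw [Equiv.Perm.mul_apply, Equiv.swap_apply_left]

variable (D : DM k m)

/-- reachable by permutation letters -/
def DM.PR (q q' : D.Q) : Prop := ∃ gs : List (Equiv.Perm (Fin k)), drun D.δ q (gs.map Let.perm) = q'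

/-- recurrent states of class 0 -/
def DM.Rec (q : D.Q) : Prop := D.cl q = none ∧ ∀ q', D.PR q q' → D.PR q' q

/-- the threads of `T q` in class 0 -/
def DM.S (q : D.Q) : Set (Fin k) := {x | (.inl x : Th k m) ∈ D.T q}

/-- number of states of a class -/
noncomputable def DM.nC (c : Cl m) : ℕ := Nat.card {q : D.Q // D.cl q = c}

private theorem LowB_run_append (q : D.Q) (a b : List (Equiv.Perm (Fin k))) :
    drun D.δ q ((a ++ b).map Let.perm) =
      drun D.δ (drun D.δ q (a.map Let.perm)) (b.map Let.perm) := by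
  rw [List.map_append, drun_append]

private theorem LowB_rep {q : D.Q} {c : List (Equiv.Perm (Fin k))}
    (hc : drun D.δ q (c.map Let.perm) = q) (n : ℕ) :
    ∃ r : List (Equiv.Perm (Fin k)), drun D.δ q (r.map Let.perm) = q ∧ pprod r = pprod c ^ n := by
  induction n with
  | zero => exact ⟨[], rfl, by rw [pow_zero]; rfl⟩
  | succ n ih =>
    obtain ⟨r, hr, hr'⟩ := ih
    refine ⟨c ++ r, ?_, ?_⟩
    · rw [LowB_run_append, hc, hr]
    · rw [LowB_pprod_append, hr', pow_succ]

private theorem LowB_pr_trans {q q' q'' : D.Q} (h : D.PR q q') (h' : D.PR q' q'') : D.PR q q'' := by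
  obtain ⟨a, ha⟩ := h
  obtain ⟨b, hb⟩ := h'
  exact ⟨a ++ b, by rw [LowB_run_append, ha, hb]⟩

private theorem LowB_cl_perms {q : D.Q} (hq : D.cl q = none) (gs : List (Equiv.Perm (Fin k))) :
    D.cl (drun D.δ q (gs.map Let.perm)) = none := by
  induction gs generalizing q with
  | nil => exact hq
  | cons g gs ih =>
    rw [List.map_cons]
    change D.cl (drun D.δ (D.δ q (.perm g)) (gs.map Let.perm)) = none
    refine ih ?_
    rw [D.hcl, hq]
    rfl

private theorem LowB_rec_of {q q' : D.Q} (hq : D.Rec q) (h : D.PR q q') : D.Rec q' := by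
  refine ⟨?_, fun q'' h'' => ?_⟩
  · obtain ⟨gs, rfl⟩ := h
    exact LowB_cl_perms D hq.1 gs
  · exact LowB_pr_trans D (hq.2 q'' (LowB_pr_trans D h h'')) h

theorem DM.rec_back {q : D.Q} (hq : D.Rec q) (gs : List (Equiv.Perm (Fin k))) :
    ∃ gs' : List (Equiv.Perm (Fin k)), drun D.δ (drun D.δ q (gs.map Let.perm)) (gs'.map Let.perm) = q ∧
      pprod (gs ++ gs') = 1 := by
  obtain ⟨hs, hh⟩ := hq.2 _ ⟨gs, rfl⟩
  have hc : drun D.δ q ((gs ++ hs).map Let.perm) = q := by rw [LowB_run_append, hh]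
  set g := pprod (gs ++ hs) with hg
  obtain ⟨r, hr, hr'⟩ := LowB_rep D hc (orderOf g - 1)
  refine ⟨hs ++ r, ?_, ?_⟩
  · rw [LowB_run_append, hh, hr]
  · rw [← List.append_assoc, LowB_pprod_append, hr', ← hg, ← pow_succ,
      Nat.sub_add_cancel (orderOf_pos g), pow_orderOf_eq_one]

theorem DM.rec_exists {q : D.Q} (hq : D.cl q = none) : ∃ (u : List (Let k m)) (q' : D.Q), drun D.δ q u = q' ∧ D.Rec q' ∧
    ∀ x : Fin k, acts u (.inl x : Th k m) = some (.inl x) := by
  haveI := D.fin
  have hne : {q' : D.Q | D.PR q q'}.Nonempty := ⟨q, [], rfl⟩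
  obtain ⟨q1, hq1, hmin⟩ := Set.exists_min_image {q' : D.Q | D.PR q q'}
    (fun q' => {q'' : D.Q | D.PR q' q''}.ncard) (Set.toFinite _) hne
  have hrec : D.Rec q1 := by
    refine ⟨?_, fun q2 h2 => ?_⟩
    · obtain ⟨gs, rfl⟩ := hq1
      exact LowB_cl_perms D hq gs
    · have hsub : {q'' : D.Q | D.PR q2 q''} ⊆ {q'' : D.Q | D.PR q1 q''} :=
        fun q'' h'' => LowB_pr_trans D h2 h''
      have hle := hmin q2 (LowB_pr_trans D hq1 h2)
      have heq := Set.eq_of_subset_of_ncard_le hsub hle (Set.toFinite _)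
      have h3 : q1 ∈ {q'' : D.Q | D.PR q1 q''} := ⟨[], rfl⟩
      rw [← heq] at h3
      exact h3
  obtain ⟨gs, hgs⟩ := hq1
  refine ⟨(gs ++ [(pprod gs)⁻¹]).map Let.perm, _, rfl, ?_, fun x => ?_⟩
  · refine LowB_rec_of D hrec ⟨[(pprod gs)⁻¹], ?_⟩
    rw [LowB_run_append, hgs]
  · rw [acts_perms, LowB_pprod_append]
    have h1 : pprod [(pprod gs)⁻¹] = (pprod gs)⁻¹ := by
      change 1 * (pprod gs)⁻¹ = _
      rw [one_mul]
    rw [h1, inv_mul_cancel]
    rfl

theorem DM.rec_perm (hk : 0 < k) {q : D.Q} (hq : D.Rec q) (g : Equiv.Perm (Fin k)) :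
    D.Rec (D.δ q (.perm g)) ∧ D.S (D.δ q (.perm g)) = g '' D.S q ∧
      ∀ x : Fin k, D.To (q, .inl x) (D.δ q (.perm g), .inl (g x)) ∧ D.To (D.δ q (.perm g), .inl (g x)) (q, .inl x) := by
  obtain ⟨gs', hback, hone⟩ := D.rec_back hq [g]
  have hrun : drun D.δ q ([g].map Let.perm) = D.δ q (.perm g) := rfl
  rw [hrun] at hback
  have hinv : pprod gs' * g = 1 := hone
  have hinv1 : ∀ x, pprod gs' (g x) = x := fun x => by
    rw [← Equiv.Perm.mul_apply, hinv]
    rfl
  have hinv2 : ∀ x, g (pprod gs' x) = x := fun x => by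
    rw [← Equiv.Perm.mul_apply, mul_eq_one_comm.1 hinv]
    rfl
  have hu : ∀ x : Fin k, acts [Let.perm (m := m) g] (.inl x) = some (.inl (g x)) := fun x => rfl
  have hu' : ∀ x : Fin k, acts (gs'.map (Let.perm (m := m))) (.inl x) =
      some (.inl (pprod gs' x)) := fun x => acts_perms gs' x
  have hrec : D.Rec (D.δ q (.perm g)) := LowB_rec_of D hq ⟨[g], rfl⟩
  have h1 : drun D.δ q [Let.perm g] = D.δ q (.perm g) := rfl
  have hodd : OddW D.δ D.pr q ([Let.perm g] ++ gs'.map Let.perm) := by
    refine D.oddfix q _ (.inl ⟨0, hk⟩) (by simp) ?_ hq.1.symm ?_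
    · rw [drun_append, h1, hback]
    · rw [acts_append, hu, Option.bind_some, hu', hinv1]
  have hodd' : OddW D.δ D.pr (D.δ q (.perm g)) (gs'.map Let.perm ++ [Let.perm g]) := by
    refine D.oddfix _ _ (.inl ⟨0, hk⟩) (by simp) ?_ hrec.1.symm ?_
    · rw [drun_append, hback, h1]
    · rw [acts_append, hu', Option.bind_some, hu, hinv2]
  refine ⟨hrec, ?_, fun x => ⟨⟨[Let.perm g], h1, hu x⟩, ⟨gs'.map Let.perm, hback, ?_⟩⟩⟩
  · ext y
    constructor
    · intro hy
      obtain ⟨x, hx, hxy⟩ := D.T_map hback h1 hodd' (x := .inl y) hy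
      rw [hu'] at hxy
      have h2 : x = .inl (pprod gs' y) := (Option.some.inj hxy).symm
      rw [h2] at hx
      exact ⟨pprod gs' y, hx, hinv2 y⟩
    · rintro ⟨x, hx, rfl⟩
      obtain ⟨y, hy, hxy⟩ := D.T_map h1 hback hodd (x := .inl x) hx
      rw [hu] at hxy
      have h2 : y = .inl (g x) := (Option.some.inj hxy).symm
      rw [h2] at hy
      exact hy
  · rw [hu', hinv1]

private theorem LowB_ht_perm (hk : 0 < k) {q : D.Q} (hq : D.Rec q) (g : Equiv.Perm (Fin k))
    (x : Fin k) : D.ht (D.δ q (.perm g), .inl (g x)) = D.ht (q, .inl x) :=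
  le_antisymm (D.ht_le ((D.rec_perm hk hq g).2.2 x).1) (D.ht_le ((D.rec_perm hk hq g).2.2 x).2)

/-- pigeonhole -/
private theorem LowB_pigeon (hn : D.nC none < k * (k - 1)) {q : D.Q} (hq : D.Rec q) {x y : Fin k}
    (hxy : x ≠ y) : ∃ g g' : Equiv.Perm (Fin k), D.δ q (.perm g) = D.δ q (.perm g') ∧
      (g x, g y) ≠ (g' x, g' y) := by
  haveI := D.fin
  by_contra hcon
  push Not at hcon
  have hex : ∀ p : {p : Fin k × Fin k // p.1 ≠ p.2}, ∃ g : Equiv.Perm (Fin k), g x = p.1.1 ∧ g y = p.1.2 :=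
    fun p => LowB_exists_perm hxy p.2
  choose G hG using hex
  have hcl : ∀ g, D.cl (D.δ q (.perm g)) = none := fun g => by
    rw [D.hcl, hq.1]
    rfl
  let F : {p : Fin k × Fin k // p.1 ≠ p.2} → {q' : D.Q // D.cl q' = none} :=
    fun p => ⟨D.δ q (.perm (G p)), hcl _⟩
  have hF : Function.Injective F := by
    intro p p' hpp
    have h1 : D.δ q (.perm (G p)) = D.δ q (.perm (G p')) := congrArg Subtype.val hpp
    have h2 := hcon _ _ h1
    rw [(hG p).1, (hG p).2, (hG p').1, (hG p').2] at h2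
    exact Subtype.ext h2
  have h3 := Nat.card_le_card_of_injective F hF
  have h4 : Nat.card {p : Fin k × Fin k // p.1 ≠ p.2} = k * (k - 1) := by
    rw [Nat.card_eq_fintype_card, Fintype.card_subtype]
    have h5 : (Finset.univ.filter fun p : Fin k × Fin k => p.1 ≠ p.2) = (Finset.univ : Finset (Fin k)).offDiag := by
      ext p
      simp
    rw [h5, Finset.offDiag_card, Finset.card_univ, Fintype.card_fin, Nat.mul_sub_one]
  rw [h4] at h3
  exact absurd hn (not_lt.2 h3)

theorem DM.tw1 (hk : 0 < k) (hn : D.nC none < k * (k - 1)) {q : D.Q} (hq : D.Rec q) {x y : Fin k} (hS : D.S q = {x})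
    (hxy : x ≠ y) : ∃ (q' : D.Q) (a b b' : Fin k), D.Rec q' ∧ D.S q' = {a} ∧ b ≠ a ∧ b' ≠ a ∧ b ≠ b' ∧
      D.ht (q', .inl b) = D.ht (q, .inl y) ∧ D.ht (q', .inl b') = D.ht (q, .inl y) := by
  obtain ⟨g, g', hgg, hne⟩ := LowB_pigeon D hn hq hxy
  have h1 := D.rec_perm hk hq g
  have h2 := D.rec_perm hk hq g'
  have hS1 : D.S (D.δ q (.perm g)) = {g x} := by
    rw [h1.2.1, hS, Set.image_singleton]
  have hS2 : D.S (D.δ q (.perm g)) = {g' x} := by
    rw [hgg, h2.2.1, hS, Set.image_singleton]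
  have hx : g x = g' x := by
    rw [hS1] at hS2
    exact Set.singleton_injective hS2
  refine ⟨D.δ q (.perm g), g x, g y, g' y, h1.1, hS1, ?_, ?_, ?_, ?_, ?_⟩
  · exact fun h => hxy (g.injective h).symm
  · rw [hx]
    exact fun h => hxy (g'.injective h).symm
  · intro h
    exact hne (Prod.ext hx h)
  · exact LowB_ht_perm D hk hq g y
  · rw [hgg]
    exact LowB_ht_perm D hk hq g' y

theorem DM.tw2 (hk : 0 < k) (hn : D.nC none < k * (k - 1)) {q : D.Q} (hq : D.Rec q) {x y : Fin k} (hxy : x ≠ y)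
    (hS : D.S q = {x, y}) : ∃ (q' : D.Q) (a b : Fin k), a ≠ b ∧ D.Rec q' ∧ D.S q' = {a, b} ∧
      D.To (q, .inl x) (q', .inl a) ∧ D.To (q', .inl a) (q, .inl x) ∧
      D.To (q, .inl x) (q', .inl b) ∧ D.To (q', .inl b) (q, .inl x) := by
  obtain ⟨g, g', hgg, hne⟩ := LowB_pigeon D hn hq hxy
  have h1 := D.rec_perm hk hq g
  have h2 := D.rec_perm hk hq g'
  have hS1 : D.S (D.δ q (.perm g)) = {g x, g y} := by
    rw [h1.2.1, hS, Set.image_pair]
  have hS2 : D.S (D.δ q (.perm g)) = {g' x, g' y} := by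
    rw [hgg, h2.2.1, hS, Set.image_pair]
  have hgne : g x ≠ g y := fun h => hxy (g.injective h)
  have hx : g' x = g y := by
    rw [hS1] at hS2
    have h3 : g' x ∈ ({g x, g y} : Set (Fin k)) := by
      rw [hS2]
      exact Set.mem_insert _ _
    rcases h3 with h3 | h3
    · exfalso
      have h4 : g y ∈ ({g' x, g' y} : Set (Fin k)) := by
        rw [← hS2]
        exact Set.mem_insert_of_mem _ rfl
      rcases h4 with h4 | h4
      · exact hgne (by rw [h4, h3])
      · exact hne (Prod.ext h3.symm h4)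
    · exact h3
  refine ⟨D.δ q (.perm g), g x, g y, hgne, h1.1, hS1, (h1.2.2 x).1, (h1.2.2 x).2, ?_, ?_⟩
  · rw [hgg, ← hx]
    exact (h2.2.2 x).1
  · rw [hgg, ← hx]
    exact (h2.2.2 x).2

/-- there is a recurrent state of type 2 with a thread of height at most `N` -/
def DM.Good (N : ℕ) : Prop := ∃ (q : D.Q) (x y : Fin k), D.Rec q ∧ x ≠ y ∧ D.S q = {x, y} ∧ D.ht (q, .inl x) ≤ N

private theorem LowB_caseA (hk : 0 < k) (N : ℕ)
    (ih : ∀ (q : D.Q) (y z : Fin k), D.Rec q → y ≠ z → D.ht (q, .inl y) ≤ N → D.ht (q, .inl z) ≤ N →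
      D.S q ≠ {y, z} → D.Good N)
    {q : D.Q} {x y z : Fin k} (hq : D.Rec q) (hx : x ∈ D.S q) (hxy : x ≠ y) (hxz : x ≠ z) (hyz : y ≠ z)
    (hy : D.ht (q, .inl y) ≤ N + 1) (hz : D.ht (q, .inl z) ≤ N + 1) : D.Good N := by
  have hcl : D.cl (D.δ q (.kp y z)) = none := by
    rw [D.hcl, hq.1]
    rfl
  have hw : drun D.δ q [Let.kp y z] = D.δ q (.kp y z) := rfl
  have hxw : acts [Let.kp (m := m) y z] (.inl x) = none := by
    change (act (Let.kp (m := m) y z) (.inl x)).bind _ = none
    have h1 : act (Let.kp (m := m) y z) (.inl x) = none := by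
      change (if x = y ∨ x = z then some (Sum.inl x : Th k m) else none) = none
      rw [if_neg (by tauto)]
    rw [h1]
    rfl
  have hyw : acts [Let.kp (m := m) y z] (.inl y) = some (.inl y) := by
    change (act (Let.kp (m := m) y z) (.inl y)).bind _ = _
    have h1 : act (Let.kp (m := m) y z) (.inl y) = some (.inl y) := by
      change (if y = y ∨ y = z then some (Sum.inl y : Th k m) else none) = _
      rw [if_pos (Or.inl rfl)]
    rw [h1]
    rfl
  have hzw : acts [Let.kp (m := m) y z] (.inl z) = some (.inl z) := by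
    change (act (Let.kp (m := m) y z) (.inl z)).bind _ = _
    have h1 : act (Let.kp (m := m) y z) (.inl z) = some (.inl z) := by
      change (if z = y ∨ z = z then some (Sum.inl z : Th k m) else none) = _
      rw [if_pos (Or.inr rfl)]
    rw [h1]
    rfl
  have hcy : cls (Sum.inl y : Th k m) = D.cl q := hq.1.symm
  have hcz : cls (Sum.inl z : Th k m) = D.cl q := hq.1.symm
  have h1 := D.ht_lt hw hx hxw hcy hyw
  have h2 := D.ht_lt hw hx hxw hcz hzw
  obtain ⟨u, q2, hu, hrec, hid⟩ := D.rec_exists hcl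
  have h3 : D.ht (q2, .inl y) ≤ D.ht (D.δ q (.kp y z), .inl y) := D.ht_le ⟨u, hu, hid y⟩
  have h4 : D.ht (q2, .inl z) ≤ D.ht (D.δ q (.kp y z), .inl z) := D.ht_le ⟨u, hu, hid z⟩
  by_cases hS : D.S q2 = {y, z}
  · exact ⟨q2, y, z, hrec, hyz, hS, by omega⟩
  · exact ih q2 y z hrec hyz (by omega) (by omega) hS

/-- the descent -/
theorem DM.pd (hk : 0 < k) (hn : D.nC none < k * (k - 1)) (N : ℕ) : ∀ (q : D.Q) (y z : Fin k), D.Rec q → y ≠ z →
    D.ht (q, .inl y) ≤ N + 1 → D.ht (q, .inl z) ≤ N + 1 → D.S q ≠ {y, z} → D.Good N := by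
  have key : ∀ N : ℕ, (∀ (q : D.Q) (y z : Fin k), D.Rec q → y ≠ z → D.ht (q, .inl y) ≤ N →
      D.ht (q, .inl z) ≤ N → D.S q ≠ {y, z} → D.Good N) →
      ∀ (q : D.Q) (y z : Fin k), D.Rec q → y ≠ z →
        D.ht (q, .inl y) ≤ N + 1 → D.ht (q, .inl z) ≤ N + 1 → D.S q ≠ {y, z} → D.Good N := by
    intro N ih q y z hq hyz hy hz hS
    by_cases hA : ∃ x ∈ D.S q, x ≠ y ∧ x ≠ z
    · obtain ⟨x, hx, hxy, hxz⟩ := hA
      exact LowB_caseA D hk N ih hq hx hxy hxz hyz hy hz
    · push Not at hA
      have hne : (D.S q).Nonempty := by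
        obtain ⟨t, ht⟩ := D.T_ne hk q
        rcases t with x | p
        · exact ⟨x, ht⟩
        · exfalso
          have h1 : cls (Sum.inr p : Th k m) = D.cl q := ht.1
          rw [hq.1] at h1
          exact Option.some_ne_none _ h1
      have hB : D.S q = {y} ∨ D.S q = {z} := by
        obtain ⟨x, hx⟩ := hne
        by_cases h1 : y ∈ D.S q
        · by_cases h2 : z ∈ D.S q
          · exfalso
            refine hS (Set.Subset.antisymm (fun w hw => ?_) ?_)
            · by_cases h3 : w = y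
              · exact Or.inl h3
              · exact Or.inr (hA w hw h3)
            · rintro w (rfl | rfl)
              · exact h1
              · exact h2
          · left
            refine Set.Subset.antisymm (fun w hw => ?_) ?_
            · by_contra h3
              have h4 := hA w hw h3
              rw [h4] at hw
              exact h2 hw
            · rintro w rfl
              exact h1
        · right
          have h5 : ∀ w ∈ D.S q, w = z := fun w hw => hA w hw (fun h => h1 (h ▸ hw))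
          refine Set.Subset.antisymm (fun w hw => h5 w hw) ?_
          rintro w rfl
          have h6 := h5 x hx
          rw [← h6]
          exact hx
      rcases hB with hB | hB
      · obtain ⟨q', a, b, b', hr, hSa, hba, hba', hbb, hh, hh'⟩ := D.tw1 hk hn hq hB hyz
        refine LowB_caseA D hk N ih hr (x := a) ?_ hba.symm hba'.symm hbb (by omega) (by omega)
        rw [hSa]
        exact rfl
      · obtain ⟨q', a, b, b', hr, hSa, hba, hba', hbb, hh, hh'⟩ := D.tw1 hk hn hq hB hyz.symm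
        refine LowB_caseA D hk N ih hr (x := a) ?_ hba.symm hba'.symm hbb (by omega) (by omega)
        rw [hSa]
        exact rfl
  induction N with
  | zero =>
    refine key 0 fun q y z _ _ hy _ _ => ?_
    have := D.ht_pos (q, .inl y)
    omega
  | succ N ih =>
    refine key (N + 1) fun q y z hq hyz hy hz hS => ?_
    obtain ⟨q', x, y', h1, h2, h3, h4⟩ := ih q y z hq hyz hy hz hS
    exact ⟨q', x, y', h1, h2, h3, by omega⟩

end

end Pool.Agent.MAR
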