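import Pool.Agent.Lib_MP_cddbc9.Law

/-!
# The probability part (piece PR)

`law_adapted`: for a function `lam` of the states (depending at time `n` only on the states up to time `n`) there is a strategy `α` of Adam
with `B.ltr α ρ n = lam ρ n` for all `ρ` with `ρ 0 = q0` (`α h = lam ρ_h h.length`, where `ρ_h 0 = q0`, `ρ_h (i+1) =` state of the entry `i` of `h`);
apply `law_exists` and `Wins`.

`play_fixed`: `lam ρ n = w n`.  The cylinder of a path `p` from `q0` to `q` with the word `u` has positive measure (induction, `law` step), almost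
surely all steps are in the support (countable union of null cylinders) and Eve wins: so there is such a `ρ`.

-/

set_option autoImplicit false

open Filter MeasureTheory

namespace Pool.Agent.MAR

/-- the sequence of states of a history -/
private def rhoProb {A : Type} (B : NPA A) (h : List (A × B.Q)) : ℕ → B.Q
  | 0 => B.q0
  | i + 1 => if hi : i < h.length then (h[i]).2 else B.q0

private theorem hs_length_Prob {A : Type} (B : NPA A) (α : List (A × B.Q) → A) (ρ : ℕ → B.Q) (n : ℕ) :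
    (B.hs α ρ n).length = n := by
  induction n with
  | zero => simp [NPA.hs]
  | succ n ih => simp [NPA.hs, ih]

private theorem hs_getElem_Prob {A : Type} (B : NPA A) (α : List (A × B.Q) → A) (ρ : ℕ → B.Q) (n : ℕ) :
    ∀ i (hi : i < (B.hs α ρ n).length), ((B.hs α ρ n)[i]).2 = ρ (i + 1) := by
  induction n with
  | zero => intro i hi; simp [NPA.hs] at hi
  | succ n ih =>
    intro i hi
    have hl := hs_length_Prob B α ρ n
    have hi' : i < n + 1 := by rw [hs_length_Prob] at hi; exact hi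
    by_cases hin : i < n
    · have h1 : (B.hs α ρ (n + 1))[i] = (B.hs α ρ n)[i]'(by rw [hl]; exact hin) := by
        simp only [NPA.hs]
        rw [List.getElem_append_left]
      rw [h1]
      exact ih i _
    · have hin' : i = n := by omega
      subst hin'
      have h1 : (B.hs α ρ (i + 1))[i] = (α (B.hs α ρ i), ρ (i + 1)) := by
        simp only [NPA.hs]
        rw [List.getElem_append_right (by rw [hl])]
        simp
      rw [h1]

private theorem rho_hs_Prob {A : Type} (B : NPA A) (α : List (A × B.Q) → A) (ρ : ℕ → B.Q) (h0 : ρ 0 = B.q0) (n : ℕ) :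
    ∀ i ≤ n, rhoProb B (B.hs α ρ n) i = ρ i := by
  intro i hi
  cases i with
  | zero => simp [rhoProb, h0]
  | succ i =>
    have hl := hs_length_Prob B α ρ n
    have : i < (B.hs α ρ n).length := by omega
    simp only [rhoProb, this, dif_pos]
    exact hs_getElem_Prob B α ρ n i this

theorem law_adapted {A : Type} (B : NPA A) (r : B.Resolver) (hw : B.Wins r) (lam : (ℕ → B.Q) → ℕ → A)
    (had : ∀ ρ ρ' n, (∀ i ≤ n, ρ i = ρ' i) → lam ρ n = lam ρ' n) :
    ∃ μ : Measure (ℕ → B.Q), IsProbabilityMeasure μ ∧ μ {ρ | ρ 0 = B.q0} = 1 ∧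
      (∀ (n : ℕ) (h : ℕ → B.Q), h 0 = B.q0 → μ {ρ | ∀ i ≤ n + 1, ρ i = h i} =
        μ {ρ | ∀ i ≤ n, ρ i = h i} * r.σ (h n) (lam h n) (h (n + 1))) ∧
      ∀ᵐ ρ ∂μ, lam ρ ∈ B.lang → ParityAcc (B.prs (lam ρ) ρ) := by
  let α : List (A × B.Q) → A := fun h => lam (rhoProb B h) h.length
  have hα : ∀ ρ : ℕ → B.Q, ρ 0 = B.q0 → B.ltr α ρ = lam ρ := by
    intro ρ h0
    funext n
    show lam (rhoProb B (B.hs α ρ n)) (B.hs α ρ n).length = lam ρ n
    rw [hs_length_Prob]
    exact had _ _ _ (rho_hs_Prob B α ρ h0 n)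
  obtain ⟨μ, hμ⟩ := law_exists B r α
  have := hμ.prob
  refine ⟨μ, hμ.prob, hμ.init, ?_, ?_⟩
  · intro n h h0
    rw [hμ.step n h, hα h h0]
  · have hm : MeasurableSet {ρ : ℕ → B.Q | ρ 0 = B.q0} := by
      have : {ρ : ℕ → B.Q | ρ 0 = B.q0} = (fun ρ : ℕ → B.Q => ρ 0) ⁻¹' {B.q0} := rfl
      rw [this]
      exact measurable_pi_apply 0 MeasurableSpace.measurableSet_top
    have h0 : ∀ᵐ ρ ∂μ, ρ 0 = B.q0 := (mem_ae_iff_prob_eq_one hm).2 hμ.init
    filter_upwards [h0, hw α μ hμ] with ρ h1 h2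
    rw [hα ρ h1] at h2
    exact h2

private theorem path_seq_Prob {A : Type} (B : NPA A) (r : B.Resolver) (q0 : B.Q) (u : List A) (q : B.Q)
    (hu : PathIn r.arena Set.univ q0 u q) :
    ∃ h : ℕ → B.Q, h 0 = q0 ∧ (∀ i (hi : i < u.length), h (i + 1) ∈ r.arena (h i) u[i]) ∧ h u.length = q := by
  induction hu with
  | nil q => exact ⟨fun _ => q, rfl, fun i hi => by simp at hi, rfl⟩
  | @cons q q' q'' a u _ hs _ ih =>
    obtain ⟨h, h0, h1, h2⟩ := ih
    refine ⟨fun i => match i with | 0 => q | i + 1 => h i, rfl, ?_, ?_⟩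
    · intro i hi
      cases i with
      | zero => simpa [h0] using hs
      | succ i =>
        have : i < u.length := by simpa using hi
        simpa using h1 i this
    · simpa using h2

/-- a play against a fixed word, through a given reachable state -/
theorem play_fixed {A : Type} (B : NPA A) (r : B.Resolver) (hw : B.Wins r) (u : List A) (q : B.Q) (hu : r.Rch u q)
    (w : ℕ → A) (hwu : seg w 0 u.length = u) :
    ∃ ρ : ℕ → B.Q, ρ 0 = B.q0 ∧ (∀ n, ρ (n + 1) ∈ r.arena (ρ n) (w n)) ∧ ρ u.length = q ∧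
      (w ∈ B.lang → ParityAcc (B.prs w ρ)) := by
  obtain ⟨μ, hμ, hinit, hstep, hwin⟩ := law_adapted B r hw (fun _ n => w n) (fun _ _ _ _ => rfl)
  have := hμ
  have := B.fin
  have hm : MeasurableSet {ρ : ℕ → B.Q | ρ 0 = B.q0} := by
    have : {ρ : ℕ → B.Q | ρ 0 = B.q0} = (fun ρ : ℕ → B.Q => ρ 0) ⁻¹' {B.q0} := rfl
    rw [this]
    exact measurable_pi_apply 0 MeasurableSpace.measurableSet_top
  have h0 : ∀ᵐ ρ ∂μ, ρ 0 = B.q0 := (mem_ae_iff_prob_eq_one hm).2 hinit
  -- the steps are in the support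
  have hsupp : ∀ᵐ ρ ∂μ, ∀ n, ρ 0 = B.q0 → ρ (n + 1) ∈ r.arena (ρ n) (w n) := by
    rw [ae_all_iff]
    intro n
    rw [ae_iff]
    let ext : (Fin (n + 2) → B.Q) → ℕ → B.Q := fun g i => if h : i < n + 2 then g ⟨i, h⟩ else B.q0
    have hsub : {ρ : ℕ → B.Q | ¬ (ρ 0 = B.q0 → ρ (n + 1) ∈ r.arena (ρ n) (w n))} ⊆
        ⋃ g : {g : Fin (n + 2) → B.Q // ext g 0 = B.q0 ∧ ext g (n + 1) ∉ r.arena (ext g n) (w n)},
          {ρ : ℕ → B.Q | ∀ i ≤ n + 1, ρ i = ext g.1 i} := by
      intro ρ hρ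
      simp only [Set.mem_ofPred_eq, Classical.not_imp] at hρ
      have he : ∀ i ≤ n + 1, ρ i = ext (fun j => ρ j.1) i := by
        intro i hi
        have : i < n + 2 := by omega
        simp [ext, this]
      rw [Set.mem_iUnion]
      refine ⟨⟨fun j => ρ j.1, ?_, ?_⟩, he⟩
      · rw [← he 0 (by omega)]; exact hρ.1
      · rw [← he (n + 1) le_rfl, ← he n (by omega)]; exact hρ.2
    refine measure_mono_null hsub (measure_iUnion_null ?_)
    rintro ⟨g, hg0, hg⟩
    rw [hstep n (ext g) hg0]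
    have : (r.σ (ext g n) (w n)) (ext g (n + 1)) = 0 := by
      by_contra hne
      exact hg ((PMF.mem_support_iff _ _).2 hne)
    rw [this, mul_zero]
  -- the cylinder has positive measure
  obtain ⟨h, hh0, hh1, hh2⟩ := path_seq_Prob B r B.q0 u q hu
  have hcyl : ∀ n ≤ u.length, μ {ρ | ∀ i ≤ n, ρ i = h i} ≠ 0 := by
    intro n
    induction n with
    | zero =>
      intro _
      have : {ρ : ℕ → B.Q | ∀ i ≤ 0, ρ i = h i} = {ρ | ρ 0 = B.q0} := by
        ext ρ
        simp [hh0]
      rw [this, hinit]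
      exact one_ne_zero
    | succ n ih =>
      intro hn
      rw [hstep n h hh0]
      refine mul_ne_zero (ih (by omega)) ?_
      have hlt : n < u.length := by omega
      have hwn : w n = u[n] := by
        have h1 : (seg w 0 u.length)[n]'(by simpa [seg] using hlt) = w n := by simp [seg]
        rw [← h1]
        congr 1
      have := hh1 n hlt
      rw [← hwn] at this
      exact (PMF.mem_support_iff _ _).1 this
  have hfreq : ∃ᵐ ρ ∂μ, ρ ∈ {ρ : ℕ → B.Q | ∀ i ≤ u.length, ρ i = h i} :=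
    frequently_ae_mem_iff.2 (hcyl u.length le_rfl)
  obtain ⟨ρ, hρ, hρ0, hρs, hρw⟩ := (hfreq.and_eventually (h0.and (hsupp.and hwin))).exists
  exact ⟨ρ, hρ0, fun n => hρs n hρ0, by rw [hρ u.length le_rfl, hh2], hρw⟩

end Pool.Agent.MAR
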