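import Pool.Agent.Lib_MP_cddbc9.Defs

/-!
# Splitting of end components: a deterministic sub-arena (piece SP)

For an arena `s'` (nonempty sets `s' q a ⊆ s q a`) let `Φ s'` be: every odd EC of `s'` is contained in `R = Rset s pr`.
`Φ s` holds by definition.  Choose `s' ≤ s` with `Φ s'` and minimal `∑ ncard (s' q a)`.  If some `s' q a` has two elements, write it as a disjoint
union of nonempty `S1`, `S2`, and let `s1`, `s2` be the arenas with `S1` resp. `S2` at `(q, a)`.  By minimality `Φ s1` and `Φ s2` fail: odd ECs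
`E1` of `s1`, `E2` of `s2`, not contained in `R`.  `(q, a) ∈ E1` (otherwise `E1` is an odd EC of `s'`), the same for `E2`.  Then `E1 ∪ E2` is an
EC of `s'` (the successors of `(q, a)` are in the states of `E1` or `E2`; connectivity through `q`), it is odd (the least priority is the
minimum of the two), and it is not inside `R`: contradiction to `Φ s'`.  So all `s' q a` are singletons.
-/

set_option autoImplicit false

open Filter

namespace Pool.Agent.MAR

section aux
variable {V A : Type}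

private theorem pathIn_mono {s s' : V → A → Set V} {E E' : Set (V × A)} (hs : ∀ p b, (p, b) ∈ E → s p b ⊆ s' p b)
    (hE : E ⊆ E') {p p' : V} {u : List A} (h : PathIn s E p u p') : PathIn s' E' p u p' := by
  induction h with
  | nil q => exact PathIn.nil q
  | cons h h' _ ih => exact PathIn.cons (hE h) (hs _ _ h h') ih

private theorem pathIn_append {s : V → A → Set V} {E : Set (V × A)} {p p' p'' : V} {u v : List A}
    (h : PathIn s E p u p') (h' : PathIn s E p' v p'') : PathIn s E p (u ++ v) p'' := by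
  induction h with
  | nil q => exact h'
  | cons h h1 _ ih => exact PathIn.cons h h1 (ih h')

/-- union of an odd EC of `s1` and an odd EC of `s2` with a common state, in the arena `s` -/
private theorem ec_union_gen {s s1 s2 : V → A → Set V} {pr : V → A → V → ℕ} {E1 E2 : Set (V × A)}
    (h1 : EC s1 E1) (h2 : EC s2 E2) (o1 : OddE s1 pr E1) (o2 : OddE s2 pr E2)
    (le1 : ∀ p b, s1 p b ⊆ s p b) (le2 : ∀ p b, s2 p b ⊆ s p b)
    (hcov : ∀ p b p', (p, b) ∈ E1 ∪ E2 → p' ∈ s p b →
      ((p, b) ∈ E1 ∧ p' ∈ s1 p b) ∨ ((p, b) ∈ E2 ∧ p' ∈ s2 p b))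
    (q : V) (hq1 : ∃ a, (q, a) ∈ E1) (hq2 : ∃ a, (q, a) ∈ E2) :
    EC s (E1 ∪ E2) ∧ OddE s pr (E1 ∪ E2) := by
  obtain ⟨a1, ha1⟩ := hq1
  obtain ⟨a2, ha2⟩ := hq2
  have m1 : ∀ {p p' : V} {u : List A}, PathIn s1 E1 p u p' → PathIn s (E1 ∪ E2) p u p' := fun h =>
    pathIn_mono (fun p b _ => le1 p b) Set.subset_union_left h
  have m2 : ∀ {p p' : V} {u : List A}, PathIn s2 E2 p u p' → PathIn s (E1 ∪ E2) p u p' := fun h =>
    pathIn_mono (fun p b _ => le2 p b) Set.subset_union_right h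
  refine ⟨⟨⟨(q, a1), Or.inl ha1⟩, ?_, ?_⟩, ?_⟩
  · intro p b p' hp hp'
    rcases hcov p b p' hp hp' with ⟨h, h'⟩ | ⟨h, h'⟩
    · obtain ⟨a', ha'⟩ := h1.cl p b p' h h'
      exact ⟨a', Or.inl ha'⟩
    · obtain ⟨a', ha'⟩ := h2.cl p b p' h h'
      exact ⟨a', Or.inr ha'⟩
  · intro p b p' b' hp hp'
    rcases hp with hp | hp <;> rcases hp' with hp' | hp'
    · obtain ⟨u, hu⟩ := h1.conn p b p' b' hp hp'
      exact ⟨u, m1 hu⟩
    · obtain ⟨u, hu⟩ := h1.conn p b q a1 hp ha1
      obtain ⟨v, hv⟩ := h2.conn q a2 p' b' ha2 hp'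
      exact ⟨u ++ v, pathIn_append (m1 hu) (m2 hv)⟩
    · obtain ⟨u, hu⟩ := h2.conn p b q a2 hp ha2
      obtain ⟨v, hv⟩ := h1.conn q a1 p' b' ha1 hp'
      exact ⟨u ++ v, pathIn_append (m2 hu) (m1 hv)⟩
    · obtain ⟨u, hu⟩ := h2.conn p b p' b' hp hp'
      exact ⟨u, m2 hu⟩
  · obtain ⟨q1, b1, q1', he1, hs1, hodd1, hmin1⟩ := o1
    obtain ⟨q2, b2, q2', he2, hs2, hodd2, hmin2⟩ := o2
    rcases le_total (pr q1 b1 q1') (pr q2 b2 q2') with hle | hle
    · refine ⟨q1, b1, q1', Or.inl he1, le1 _ _ hs1, hodd1, ?_⟩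
      intro p b p' hp hp'
      rcases hcov p b p' hp hp' with ⟨h, h'⟩ | ⟨h, h'⟩
      · exact hmin1 p b p' h h'
      · exact hle.trans (hmin2 p b p' h h')
    · refine ⟨q2, b2, q2', Or.inr he2, le2 _ _ hs2, hodd2, ?_⟩
      intro p b p' hp hp'
      rcases hcov p b p' hp hp' with ⟨h, h'⟩ | ⟨h, h'⟩
      · exact hle.trans (hmin1 p b p' h h')
      · exact hmin2 p b p' h h'

/-- an odd EC of `s1` all of whose edges have the same successors in `s` and `s1` is an odd EC of `s` -/
private theorem ec_congr {s s1 : V → A → Set V} {pr : V → A → V → ℕ} {E : Set (V × A)}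
    (h1 : EC s1 E) (o1 : OddE s1 pr E) (he : ∀ p b, (p, b) ∈ E → s p b = s1 p b) : EC s E ∧ OddE s pr E := by
  refine ⟨⟨h1.ne, ?_, ?_⟩, ?_⟩
  · intro p b p' hp hp'
    exact h1.cl p b p' hp (he p b hp ▸ hp')
  · intro p b p' b' hp hp'
    obtain ⟨u, hu⟩ := h1.conn p b p' b' hp hp'
    exact ⟨u, pathIn_mono (fun x y hxy => (he x y hxy).ge) subset_rfl hu⟩
  · obtain ⟨q1, b1, q1', he1, hs1, hodd1, hmin1⟩ := o1
    refine ⟨q1, b1, q1', he1, (he _ _ he1).ge hs1, hodd1, ?_⟩
    intro p b p' hp hp'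
    exact hmin1 p b p' hp (he p b hp ▸ hp')

end aux

/-- union of two odd ECs with a common state -/
theorem ec_union {V A : Type} {s : V → A → Set V} {pr : V → A → V → ℕ} {E1 E2 : Set (V × A)} (h1 : EC s E1) (h2 : EC s E2)
    (o1 : OddE s pr E1) (o2 : OddE s pr E2) (q : V) (hq1 : ∃ a, (q, a) ∈ E1) (hq2 : ∃ a, (q, a) ∈ E2) :
    EC s (E1 ∪ E2) ∧ OddE s pr (E1 ∪ E2) := by
  refine ec_union_gen h1 h2 o1 o2 (fun _ _ => subset_rfl) (fun _ _ => subset_rfl) ?_ q hq1 hq2
  intro p b p' hp hp'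
  rcases hp with h | h
  · exact Or.inl ⟨h, hp'⟩
  · exact Or.inr ⟨h, hp'⟩

/-- a deterministic sub-arena all of whose odd ECs are in `R` -/
theorem exists_tau {V A : Type} [Finite V] [Finite A] (s : V → A → Set V) (hs : ∀ q a, (s q a).Nonempty)
    (pr : V → A → V → ℕ) : ∃ τ : V → A → V, (∀ q a, τ q a ∈ s q a) ∧
      ∀ E, EC (fun q a => {τ q a}) E → OddE (fun q a => {τ q a}) pr E → E ⊆ Rset s pr := by
  classical
  have := Fintype.ofFinite V
  have := Fintype.ofFinite A
  -- the arenas which are allowed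
  let P : (V → A → Set V) → Prop := fun s' =>
    (∀ q a, (s' q a).Nonempty) ∧ (∀ q a, s' q a ⊆ s q a) ∧ ∀ E, EC s' E → OddE s' pr E → E ⊆ Rset s pr
  let M : (V → A → Set V) → ℕ := fun s' => ∑ q, ∑ a, (s' q a).ncard
  have hP : ∃ n, ∃ s', P s' ∧ M s' = n := ⟨M s, s, ⟨hs, fun _ _ => subset_rfl,
    fun E h o e he => ⟨E, h, o, he⟩⟩, rfl⟩
  obtain ⟨s', ⟨hne, hsub, hΦ⟩, hM⟩ := Nat.find_spec hP
  have hmin : ∀ s'', P s'' → M s' ≤ M s'' := fun s'' h => by
    rw [hM]
    exact Nat.find_min' hP ⟨s'', h, rfl⟩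
  -- the modified arena
  let mod : V → A → Set V → V → A → Set V := fun q a S p b => if p = q ∧ b = a then S else s' p b
  have mod_same : ∀ q a S, mod q a S q a = S := fun q a S => by simp [mod]
  have mod_ne : ∀ q a S p b, (p, b) ≠ (q, a) → mod q a S p b = s' p b := fun q a S p b h => by
    have : ¬ (p = q ∧ b = a) := fun h' => h (by rw [h'.1, h'.2])
    simp only [mod, if_neg this]
  have mod_sub : ∀ q a S, S ⊆ s' q a → ∀ p b, mod q a S p b ⊆ s' p b := by
    intro q a S hS p b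
    by_cases h : (p, b) = (q, a)
    · obtain ⟨rfl, rfl⟩ := Prod.mk.inj h
      rw [mod_same]
      exact hS
    · rw [mod_ne q a S p b h]
  have mod_M : ∀ q a S, S ⊂ s' q a → M (mod q a S) < M s' := by
    intro q a S hS
    refine Finset.sum_lt_sum (fun p _ => Finset.sum_le_sum fun b _ =>
      Set.ncard_le_ncard (mod_sub q a S hS.subset p b) (Set.toFinite _)) ⟨q, Finset.mem_univ q, ?_⟩
    refine Finset.sum_lt_sum (fun b _ => Set.ncard_le_ncard (mod_sub q a S hS.subset q b) (Set.toFinite _))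
      ⟨a, Finset.mem_univ a, ?_⟩
    rw [mod_same]
    exact Set.ncard_lt_ncard hS (Set.toFinite _)
  -- a smaller arena is not allowed
  have key : ∀ q a S, S.Nonempty → S ⊂ s' q a → ∃ E, EC (mod q a S) E ∧ OddE (mod q a S) pr E ∧
      ¬ E ⊆ Rset s pr ∧ (q, a) ∈ E := by
    intro q a S hSne hS
    by_contra hcon
    push Not at hcon
    have hmP : P (mod q a S) := by
      refine ⟨?_, fun p b => (mod_sub q a S hS.subset p b).trans (hsub p b), ?_⟩
      · intro p b
        by_cases h : (p, b) = (q, a)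
        · obtain ⟨rfl, rfl⟩ := Prod.mk.inj h
          rw [mod_same]
          exact hSne
        · rw [mod_ne q a S p b h]
          exact hne p b
      · intro E hE hO
        by_contra hER
        have hqa := hcon E hE hO hER
        have hc := ec_congr (s := s') hE hO (fun p b hpb => by
          rw [mod_ne q a S p b]
          rintro h
          exact hqa (h ▸ hpb))
        exact hER (hΦ E hc.1 hc.2)
    exact absurd (hmin _ hmP) (not_le.2 (mod_M q a S hS))
  -- all sets are singletons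
  have hsing : ∀ q a, ∃ x, s' q a = {x} := by
    intro q a
    obtain ⟨x, hx⟩ := hne q a
    refine ⟨x, ?_⟩
    by_contra hcon
    obtain ⟨y, hy, hyx⟩ : ∃ y ∈ s' q a, y ≠ x := by
      by_contra hc
      push Not at hc
      exact hcon (Set.eq_singleton_iff_unique_mem.2 ⟨hx, hc⟩)
    have hS1 : ({x} : Set V) ⊂ s' q a := by
      refine ⟨Set.singleton_subset_iff.2 hx, fun h => hyx ?_⟩
      exact Set.mem_singleton_iff.1 (h hy)
    have hS2 : s' q a \ {x} ⊂ s' q a := by
      refine ⟨Set.sdiff_subset, fun h => (h hx).2 rfl⟩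
    obtain ⟨E1, hE1, hO1, hR1, hq1⟩ := key q a {x} ⟨x, rfl⟩ hS1
    obtain ⟨E2, hE2, hO2, hR2, hq2⟩ := key q a (s' q a \ {x}) ⟨y, hy, hyx⟩ hS2
    have hu := ec_union_gen (s := s') hE1 hE2 hO1 hO2 (mod_sub q a {x} hS1.subset)
      (mod_sub q a (s' q a \ {x}) hS2.subset) (by
        intro p b p' hp hp'
        by_cases h : (p, b) = (q, a)
        · obtain ⟨rfl, rfl⟩ := Prod.mk.inj h
          by_cases hpx : p' = x
          · left
            refine ⟨hq1, ?_⟩
            rw [mod_same]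
            exact hpx
          · right
            refine ⟨hq2, ?_⟩
            rw [mod_same]
            exact ⟨hp', hpx⟩
        · rcases hp with hp | hp
          · left
            refine ⟨hp, ?_⟩
            rw [mod_ne q a {x} p b h]
            exact hp'
          · right
            refine ⟨hp, ?_⟩
            rw [mod_ne q a (s' q a \ {x}) p b h]
            exact hp') q ⟨a, hq1⟩ ⟨a, hq2⟩
    exact hR1 (Set.subset_union_left.trans (hΦ _ hu.1 hu.2))
  choose τ hτ using hsing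
  have hs' : s' = fun q a => {τ q a} := by
    funext q a
    exact hτ q a
  refine ⟨τ, fun q a => hsub q a (by rw [hτ q a]; rfl), ?_⟩
  intro E hE hO
  rw [← hs'] at hE hO
  exact hΦ E hE hO

end Pool.Agent.MAR
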